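import Pool.Agent.NH16.DL.B5
import Pool.Agent.H305R2.MertensE

set_option autoImplicit false
set_option linter.unusedSectionVars false
set_option linter.unusedVariables false

/-!
# Choice of the sieve level
-/

namespace Pool.Agent.NH16.DL

open Finset Filter Topology
open scoped BigOperators

lemma Vv_inv_eq (v : ℕ) : (Vv v)⁻¹ = ∏ p ∈ (Finset.Icc 1 v).filter Nat.Prime, (1 - (p : ℝ)⁻¹)⁻¹ := by
  unfold Vv PP
  rw [← prod_inv_distrib]
  exact prod_congr rfl fun p _ => by rw [one_div]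

lemma Vv_bounds : ∀ᶠ v : ℕ in atTop, Real.log v ≤ (Vv v)⁻¹ ∧ (Vv v)⁻¹ ≤ 4 * Real.log v := by
  have h := Pool.Agent.H305R2.mertens_three
  have h1 : (1 : ℝ) < Real.exp Real.eulerMascheroniConstant := by
    have := Real.one_half_lt_eulerMascheroniConstant
    exact Real.one_lt_exp_iff.2 (by linarith)
  have h2 : Real.exp Real.eulerMascheroniConstant < 4 := by
    have h3 := Real.eulerMascheroniConstant_lt_two_thirds
    have h4 : Real.exp Real.eulerMascheroniConstant < Real.exp 1 := Real.exp_lt_exp.2 (by linarith)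
    have h5 := Real.exp_one_lt_d9
    linarith
  have hlog : ∀ᶠ v : ℕ in atTop, (0 : ℝ) < Real.log v :=
    (Real.tendsto_log_atTop.comp tendsto_natCast_atTop_atTop).eventually_gt_atTop 0
  filter_upwards [h.eventually (lt_mem_nhds h1), h.eventually (gt_mem_nhds h2), hlog] with v h3 h4 h5
  rw [← Vv_inv_eq] at h3 h4
  rw [lt_div_iff₀ h5] at h3
  rw [div_lt_iff₀ h5] at h4
  constructor <;> linarith

/-- the sieve level -/
noncomputable def yx (C b x : ℕ) : ℕ := ⌊(x : ℝ) ^ (1 / (2 * (4 * (C : ℝ) * b + 1)))⌋₊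

/-- the exponent -/
noncomputable def ke (C b : ℕ) : ℝ := 1 / (2 * (4 * (C : ℝ) * b + 1))

lemma ke_pos (C b : ℕ) : 0 < ke C b := by unfold ke; positivity

lemma yx_eq (C b x : ℕ) : yx C b x = ⌊(x : ℝ) ^ ke C b⌋₊ := rfl

lemma yx_tendsto (C b : ℕ) : Tendsto (yx C b) atTop atTop := by
  unfold yx
  exact tendsto_nat_floor_atTop.comp ((tendsto_rpow_atTop (ke_pos C b)).comp tendsto_natCast_atTop_atTop)

lemma yx_le {C b x : ℕ} : (yx C b x : ℝ) ≤ (x : ℝ) ^ ke C b := Nat.floor_le (by positivity)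

lemma yx_log (C b : ℕ) : ∀ᶠ x : ℕ in atTop, ke C b / 2 * Real.log x ≤ Real.log (yx C b x) ∧
    Real.log (yx C b x) ≤ ke C b * Real.log x := by
  have h1 : ∀ᶠ x : ℕ in atTop, 4 ≤ yx C b x := (yx_tendsto C b).eventually_ge_atTop 4
  filter_upwards [h1, eventually_ge_atTop 2] with x hx hx2
  have hxp : (0 : ℝ) < x := by exact_mod_cast (by omega : 0 < x)
  have hy4 : (4 : ℝ) ≤ yx C b x := by exact_mod_cast hx
  have hyp : (0 : ℝ) < yx C b x := by linarith
  constructor
  · have h2 : (x : ℝ) ^ ke C b ≤ (yx C b x : ℝ) ^ 2 := by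
      have := (Nat.lt_floor_add_one ((x : ℝ) ^ ke C b)).le
      rw [← yx_eq] at this
      nlinarith
    have h3 := Real.log_le_log (by positivity) h2
    rw [Real.log_rpow hxp, Real.log_pow] at h3
    push_cast at h3
    linarith
  · have h3 := Real.log_le_log hyp (yx_le (C := C) (b := b) (x := x))
    rwa [Real.log_rpow hxp] at h3

lemma log_pow_div (m : ℕ) (c : ℝ) : Tendsto (fun x : ℕ => (4 * Real.log x) ^ m * (c * (x : ℝ) ^ (1 / 2 : ℝ)) / x)
    atTop (𝓝 0) := by
  have h1 : Tendsto (fun x : ℝ => Real.log x ^ (m : ℝ) / x ^ (1 / 2 : ℝ)) atTop (𝓝 0) :=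
    (isLittleO_log_rpow_rpow_atTop (m : ℝ) (by norm_num)).tendsto_div_nhds_zero
  have h2 := (h1.comp tendsto_natCast_atTop_atTop).const_mul (4 ^ m * c)
  rw [mul_zero] at h2
  refine h2.congr' ?_
  filter_upwards [eventually_ge_atTop 1] with x hx
  have hxp : (0 : ℝ) < x := by exact_mod_cast hx
  simp only [Function.comp]
  have e : (x : ℝ) = (x : ℝ) ^ (1 / 2 : ℝ) * (x : ℝ) ^ (1 / 2 : ℝ) := by
    rw [← Real.rpow_add hxp]; norm_num
  rw [Real.rpow_natCast, mul_pow]
  have hh : (0 : ℝ) < (x : ℝ) ^ (1 / 2 : ℝ) := Real.rpow_pos_of_pos hxp _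
  field_simp
  rw [sq, ← e]

/-- the fundamental lemma holds eventually -/
theorem FL_ev (M : ℕ) : ∃ C : ℕ, 1 ≤ C ∧ ∀ b : ℕ, C ≤ b → ∀ η : ℝ, 0 < η → ∀ᶠ x : ℕ in atTop,
    ∀ m ≤ M, ∀ w ≤ yx C b x, FL w (yx C b x) x (3 * (1 / 2 : ℝ) ^ b) η m := by
  choose C0 K0 hC0 hK0 h using fl_prod
  set C := ∑ m ∈ range (M + 1), C0 m with hC
  have hCm : ∀ m ≤ M, C0 m ≤ C := fun m hm =>
    single_le_sum (f := C0) (fun _ _ => Nat.zero_le _) (mem_range.2 (by omega))
  refine ⟨C, (hC0 0).trans (hCm 0 (Nat.zero_le _)), fun b hb η hη => ?_⟩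
  have h1 : ∀ m ∈ range (M + 1), ∀ᶠ x : ℕ in atTop,
      ∀ w ≤ yx C b x, FL w (yx C b x) x (3 * (1 / 2 : ℝ) ^ b) η m := by
    intro m hm
    rw [mem_range] at hm
    have hlim := log_pow_div m (4 * (K0 m : ℝ))
    have hVy := (yx_tendsto C b).eventually Vv_bounds
    filter_upwards [hlim.eventually (gt_mem_nhds hη), hVy, yx_log C b, eventually_ge_atTop 3,
      (yx_tendsto C b).eventually_ge_atTop 3] with x hx hV hl hx2 hy3 w hw a r
    have hxp : (0 : ℝ) < x := by exact_mod_cast (by omega : 0 < x)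
    have hx1 : (1 : ℝ) ≤ x := by exact_mod_cast (by omega : 1 ≤ x)
    set y := yx C b x with hy
    have key := h m b ((hCm m (by omega)).trans hb) y (by omega) w hw a r x (by omega)
    refine key.trans (add_le_add le_rfl ?_)
    have hlog0 : 0 ≤ Real.log x := Real.log_nonneg hx1
    have hke1 : ke C b ≤ 1 := by
      unfold ke
      rw [div_le_one (by positivity)]
      have : (0 : ℝ) ≤ 4 * (C : ℝ) * b := by positivity
      linarith
    have k1 : (Vv y)⁻¹ ^ m ≤ (4 * Real.log x) ^ m := by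
      refine pow_le_pow_left₀ (inv_nonneg.2 (Vv_pos y).le) (hV.2.trans ?_) m
      have : Real.log y ≤ Real.log x := hl.2.trans (by nlinarith)
      linarith
    have hy1 : (1 : ℝ) ≤ y := by exact_mod_cast (by omega : 1 ≤ y)
    have k2 : Er (C0 m) (K0 m) b y ≤ 2 * K0 m * (x : ℝ) ^ (1 / 2 : ℝ) := by
      unfold Er
      have j1 : ((Pool.Agent.W41.JJ y : ℝ) + 2) ≤ 2 * y := by
        exact_mod_cast Pool.Agent.W41.JJ_small y hy3
      have j2 : (y : ℝ) ^ (2 * (C0 m * b)) ≤ (y : ℝ) ^ (2 * (C * b)) :=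
        pow_le_pow_right₀ hy1 (Nat.mul_le_mul_left 2 (Nat.mul_le_mul_right b (hCm m (by omega))))
      have j3 : (y : ℝ) ^ (4 * (C * b) + 1) ≤ (x : ℝ) ^ (1 / 2 : ℝ) := by
        calc (y : ℝ) ^ (4 * (C * b) + 1) ≤ ((x : ℝ) ^ ke C b) ^ (4 * (C * b) + 1) :=
              pow_le_pow_left₀ (by linarith) yx_le _
          _ = (x : ℝ) ^ (1 / 2 : ℝ) := by
              rw [← Real.rpow_natCast, ← Real.rpow_mul hxp.le]
              congr 1
              unfold ke
              push_cast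
              field_simp
      calc _ ≤ (2 * y) * ((y : ℝ) ^ (2 * (C * b)) * (K0 m * (y : ℝ) ^ (2 * (C * b)))) := by
            gcongr
        _ = 2 * K0 m * (y : ℝ) ^ (4 * (C * b) + 1) := by
            rw [pow_succ, show 4 * (C * b) = 2 * (C * b) + 2 * (C * b) by ring, pow_add]
            ring
        _ ≤ _ := mul_le_mul_of_nonneg_left j3 (by positivity)
    calc 2 * ((Vv y)⁻¹ ^ m * Er (C0 m) (K0 m) b y / x) ≤
          2 * ((4 * Real.log x) ^ m * (2 * K0 m * (x : ℝ) ^ (1 / 2 : ℝ)) / x) := by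
          refine mul_le_mul_of_nonneg_left (div_le_div_of_nonneg_right ?_ hxp.le) zero_le_two
          exact mul_le_mul k1 k2 (Er_nonneg _ _ _ _) (by positivity)
      _ = (4 * Real.log x) ^ m * (4 * (K0 m : ℝ) * (x : ℝ) ^ (1 / 2 : ℝ)) / x := by ring
      _ ≤ η := hx.le
  have h2 := (eventually_all_finset (range (M + 1))).2 h1
  filter_upwards [h2] with x hx m hm
  exact hx m (mem_range.2 (by omega))

open Classical in
/-- the normalised indicator function of the primes `q r + 1` -/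
noncomputable def fx (R x : ℕ) (s : Fin R) (q : Fin x) : ℝ :=
  if ((x + q) * vl s + 1).Prime then Real.log x else 0

lemma fx_nonneg (R x : ℕ) (s : Fin R) (q : Fin x) : 0 ≤ fx R x s q := by
  unfold fx
  split_ifs
  · exact Real.log_natCast_nonneg x
  · exact le_rfl

/-- `f ≤ K ν` -/
lemma fx_le (C b : ℕ) : ∀ᶠ x : ℕ in atTop, ∀ (R : ℕ) (s : Fin R) (q : Fin x),
    fx R x s q ≤ 2 / ke C b * gx R x (yx C b x) s q := by
  filter_upwards [(yx_tendsto C b).eventually Vv_bounds, yx_log C b, eventually_ge_atTop 2] with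
    x hV hl hx2 R s q
  have hk := ke_pos C b
  have hx1 : (1 : ℝ) ≤ x := by exact_mod_cast (by omega : 1 ≤ x)
  unfold fx gx Gf
  split_ifs with h1 h2 h2
  · calc Real.log x = 2 / ke C b * (ke C b / 2 * Real.log x) := by field_simp
      _ ≤ 2 / ke C b * (Vv (yx C b x))⁻¹ :=
          mul_le_mul_of_nonneg_left (hl.1.trans hV.1) (by positivity)
  · exfalso
    apply h2
    intro p hp hd
    rw [mem_PP] at hp
    have hpe : p = (x + q) * vl s + 1 := (Nat.prime_dvd_prime_iff_eq hp.1 h1).1 hd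
    have hyx : yx C b x ≤ x := by
      have : (yx C b x : ℝ) ≤ x := by
        refine yx_le.trans ?_
        calc (x : ℝ) ^ ke C b ≤ (x : ℝ) ^ (1 : ℝ) := by
              refine Real.rpow_le_rpow_of_exponent_le hx1 ?_
              unfold ke
              rw [div_le_one (by positivity)]
              have : (0 : ℝ) ≤ 4 * (C : ℝ) * b := by positivity
              linarith
          _ = x := Real.rpow_one _
      exact_mod_cast this
    have hv := vl_pos s
    have : x ≤ (x + q) * vl s := by nlinarith [Nat.zero_le (q : ℕ)]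
    omega
  · exact mul_nonneg (by positivity) (inv_nonneg.2 (Vv_pos _).le)
  · rw [mul_zero]

end Pool.Agent.NH16.DL
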