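import Pool.Agent.NH16.DL.B7

set_option autoImplicit false
set_option linter.unusedSectionVars false
set_option linter.unusedVariables false

/-!
# Averages of the primes `q r + 1` against functions of the class of `q`
-/

namespace Pool.Agent.NH16.DL

open Finset Filter Topology
open scoped BigOperators

lemma pnt {δ : ℝ} (hδ : 0 < δ) : ∀ᶠ X : ℕ in atTop,
    |H343E.pi1 X - X / Real.log X| ≤ δ * (X / Real.log X) := by
  have h := (Pool.Agent.Helper507.PNT.pi_tendsto.comp (tendsto_natCast_atTop_atTop (R := ℝ)))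
  filter_upwards [h.eventually (gt_mem_nhds (show (1 : ℝ) < 1 + δ by linarith)),
    h.eventually (lt_mem_nhds (show (1 : ℝ) - δ < 1 by linarith)), eventually_ge_atTop 3] with x hx hx' hx3
  simp only [Function.comp, Nat.floor_natCast] at hx hx'
  have hx0 : (0:ℝ) < x := by positivity
  have hL : 0 < Real.log x := Real.log_pos (by exact_mod_cast (by omega : 1 < x))
  rw [div_lt_iff₀ hx0] at hx
  rw [lt_div_iff₀ hx0] at hx'
  rw [Pool.Agent.H387R2.Uni.pi1_eq]
  have e : (x : ℝ) / Real.log x * Real.log x = x := by field_simp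
  have h0 : 0 < (x : ℝ) / Real.log x := by positivity
  rw [abs_le]
  constructor
  · have : 0 ≤ ((Nat.primeCounting x : ℝ) - x / Real.log x + δ * (x / Real.log x)) * Real.log x := by
      nlinarith
    have := nonneg_of_mul_nonneg_left this hL
    linarith
  · have : 0 ≤ (δ * (x / Real.log x) - ((Nat.primeCounting x : ℝ) - x / Real.log x)) * Real.log x := by
      nlinarith
    have := nonneg_of_mul_nonneg_left this hL
    linarith

lemma loglog_small (C : ℝ) {δ : ℝ} (hδ : 0 < δ) : ∀ᶠ x : ℕ in atTop,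
    1 ≤ Real.log x ∧ Real.log (2 * x * Real.log x ^ C) ≤ (1 + δ) * Real.log x := by
  have h1 : Tendsto (fun t : ℝ => Real.log t / t) atTop (𝓝 0) := by
    have := Real.isLittleO_log_id_atTop.tendsto_div_nhds_zero
    exact this
  have hlog : Tendsto (fun x : ℕ => Real.log (x : ℝ)) atTop atTop :=
    Real.tendsto_log_atTop.comp tendsto_natCast_atTop_atTop
  have h2 : Tendsto (fun t : ℝ => Real.log 2 / t + C * (Real.log t / t)) atTop (𝓝 0) := by
    have := (tendsto_const_nhds (x := Real.log 2)).div_atTop tendsto_id |>.add (h1.const_mul C)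
    simpa using this
  filter_upwards [hlog.eventually (h2.eventually (gt_mem_nhds hδ)), hlog.eventually_ge_atTop 1,
    eventually_ge_atTop 1] with x h3 h4 h5
  refine ⟨h4, ?_⟩
  have hx : (0 : ℝ) < x := by exact_mod_cast h5
  have hL : 0 < Real.log x := by linarith
  have h6 : 0 < Real.log x ^ C := Real.rpow_pos_of_pos hL C
  rw [Real.log_mul (by positivity) h6.ne', Real.log_mul two_ne_zero hx.ne', Real.log_rpow hL]
  have e : Real.log 2 / Real.log x + C * (Real.log (Real.log x) / Real.log x) =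
      (Real.log 2 + C * Real.log (Real.log x)) / Real.log x := by field_simp
  rw [e, div_lt_iff₀ hL] at h3
  linarith

/-- the number of primes of the whole range -/
lemma pi_range {C : ℝ} (hC : 0 ≤ C) {δ : ℝ} (hδ : 0 < δ) (hδ1 : δ ≤ 1) : ∀ᶠ x : ℕ in atTop, ∀ r : ℕ, 1 ≤ r →
    (r : ℝ) ≤ Real.log x ^ C →
    |H343E.pi1 ((2 * x - 1) * r + 1) - H343E.pi1 (x * r) - x * r / Real.log x| ≤ δ * (x * r / Real.log x) := by
  have hδ' : 0 < δ / 16 := by positivity
  obtain ⟨X0, hX0⟩ := eventually_atTop.1 (pnt hδ')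
  filter_upwards [loglog_small C hδ', eventually_ge_atTop (max X0 2), (tendsto_natCast_atTop_atTop (R := ℝ)).eventually_ge_atTop (16 / δ)]
    with x hx hx0 hxδ r hr hrC
  obtain ⟨hL1, hL2⟩ := hx
  have hx2 : 2 ≤ x := (le_max_right _ _).trans hx0
  have hxX : X0 ≤ x := (le_max_left _ _).trans hx0
  have hxp : (0 : ℝ) < x := by exact_mod_cast (by omega : 0 < x)
  have hrp : (1 : ℝ) ≤ r := by exact_mod_cast hr
  set L := Real.log x with hL
  have hLp : 0 < L := by linarith
  -- the estimate for one `X`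
  have one : ∀ X : ℕ, x ≤ X → (X : ℝ) ≤ 2 * x * L ^ C → |H343E.pi1 X - X / L| ≤ δ / 8 * (X / L) := by
    intro X h1 h2
    have hXp : (0 : ℝ) < X := by exact_mod_cast (by omega : 0 < X)
    have k1 := hX0 X (hxX.trans h1)
    have k2 : L ≤ Real.log X := Real.log_le_log hxp (by exact_mod_cast h1)
    have k3 : Real.log X ≤ (1 + δ / 16) * L := (Real.log_le_log hXp h2).trans hL2
    have k4 : (X : ℝ) / Real.log X ≤ X / L := div_le_div_of_nonneg_left hXp.le hLp k2
    have hlX : 0 < Real.log X := by linarith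
    have k5 : (X : ℝ) / L - X / Real.log X ≤ δ / 16 * (X / L) := by
      rw [div_sub_div _ _ hLp.ne' hlX.ne', mul_div_assoc', div_le_div_iff₀ (by positivity) hLp]
      have : (X : ℝ) * Real.log X - L * X ≤ δ / 16 * X * Real.log X := by
        have : (X : ℝ) * (Real.log X - L) ≤ X * (δ / 16 * L) := mul_le_mul_of_nonneg_left (by linarith) hXp.le
        have k6 : (X : ℝ) * (δ / 16 * L) ≤ X * (δ / 16 * Real.log X) :=
          mul_le_mul_of_nonneg_left (mul_le_mul_of_nonneg_left k2 hδ'.le) hXp.le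
        linarith
      nlinarith [mul_le_mul_of_nonneg_right this hLp.le]
    have k0 : 0 ≤ (X : ℝ) / L - X / Real.log X := by linarith
    calc |H343E.pi1 X - X / L| ≤ |H343E.pi1 X - X / Real.log X| + |X / Real.log X - X / L| := abs_sub_le _ _ _
      _ ≤ δ / 16 * (X / Real.log X) + δ / 16 * (X / L) := by
          refine add_le_add k1 ?_
          rw [abs_sub_comm, abs_of_nonneg k0]
          exact k5
      _ ≤ δ / 16 * (X / L) + δ / 16 * (X / L) := by
          gcongr
      _ = _ := by ring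
  have hLC : (1 : ℝ) ≤ L ^ C := Real.one_le_rpow hL1 hC
  have hX1c : (((2 * x - 1) * r + 1 : ℕ) : ℝ) = (2 * x - 1) * r + 1 := by
    push_cast [Nat.cast_sub (by omega : 1 ≤ 2 * x)]
    ring
  have hA : x ≤ x * r := Nat.le_mul_of_pos_right x hr
  have hB : x ≤ (2 * x - 1) * r + 1 := by nlinarith [Nat.mul_le_mul_right r (by omega : x ≤ 2 * x - 1)]
  have hxr : (x : ℝ) * r ≤ 2 * x * L ^ C := by nlinarith
  have hxr1 : (((2 * x - 1) * r + 1 : ℕ) : ℝ) ≤ 2 * x * L ^ C := by
    rw [hX1c]
    nlinarith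
  have t1 := one ((2 * x - 1) * r + 1) hB hxr1
  have t2 := one (x * r) hA (by push_cast; exact hxr)
  rw [hX1c] at t1
  push_cast at t2
  have hrx : (r : ℝ) ≤ δ / 16 * (x * r) := by
    have : (1 : ℝ) ≤ δ / 16 * x := by
      rw [div_le_iff₀ hδ] at hxδ
      linarith
    nlinarith
  have e : H343E.pi1 ((2 * x - 1) * r + 1) - H343E.pi1 (x * r) - x * r / L =
      (H343E.pi1 ((2 * x - 1) * r + 1) - ((2 * x - 1) * r + 1) / L) - (H343E.pi1 (x * r) - x * r / L) +
        (1 - r) / L := by
    field_simp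
    ring
  rw [e]
  have t3 : |(1 - (r : ℝ)) / L| ≤ r / L := by
    rw [abs_div, abs_of_pos hLp]
    refine div_le_div_of_nonneg_right ?_ hLp.le
    rw [abs_le]; constructor <;> linarith
  refine (abs_add_le _ _).trans (le_trans (add_le_add ((abs_sub _ _).trans (add_le_add t1 t2)) t3) ?_)
  have f1 : ((2 * (x : ℝ) - 1) * r + 1) / L ≤ 2 * (x * r / L) := by
    rw [mul_div_assoc']
    exact div_le_div_of_nonneg_right (by nlinarith) hLp.le
  have f2 : (r : ℝ) / L ≤ δ / 16 * (x * r / L) := by
    rw [mul_div_assoc']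
    exact div_le_div_of_nonneg_right hrx hLp.le
  have f0 : 0 ≤ (x : ℝ) * r / L := by positivity
  nlinarith

end Pool.Agent.NH16.DL
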