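import Pool.Agent.NH16.DL.A3

set_option autoImplicit false
set_option linter.unusedSectionVars false

/-!
# A counting inequality: telescoping
-/

namespace Pool.Agent.NH16.DL

open Finset
open scoped BigOperators

variable {ρ κ : Type*} [Fintype ρ] [Fintype κ]

lemma pp_insert (f F : ρ → κ → ℝ) {n : ℕ} (i : Fin (n + 1)) (a : Fin (n + 1) → Bool) (s : ρ)
    (u : Fin n → ρ) (q : κ) :
    pp f F a (i.insertNth s u : Fin (n + 1) → ρ) q =
      pt f F (a i) s q * pp f F (fun k => a (i.succAbove k)) u q := by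
  unfold pp
  rw [Fin.prod_univ_succAbove _ i]
  simp only [Fin.insertNth_apply_same, Fin.insertNth_apply_succAbove]

/-- bits below `j` -/
def bits (n j : ℕ) : Fin n → Bool := fun i => decide (i.val < j)

lemma step_eq (f F : ρ → κ → ℝ) {n : ℕ} (i : Fin (n + 1)) (s : ρ) (u : Fin n → ρ) :
    𝔼 q, pp f F (bits (n + 1) (i.val + 1)) (i.insertNth s u : Fin (n + 1) → ρ) q -
      𝔼 q, pp f F (bits (n + 1) i.val) (i.insertNth s u : Fin (n + 1) → ρ) q =
    𝔼 q, (f s q - F s q) * pp f F (fun k => bits (n + 1) i.val (i.succAbove k)) u q := by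
  rw [← expect_sub_distrib]
  refine expect_congr rfl fun q _ => ?_
  rw [pp_insert, pp_insert]
  have e1 : bits (n + 1) (i.val + 1) i = true := by simp [bits]
  have e2 : bits (n + 1) i.val i = false := by simp [bits]
  have e3 : (fun k : Fin n => bits (n + 1) (i.val + 1) (i.succAbove k)) =
      fun k => bits (n + 1) i.val (i.succAbove k) := by
    funext k
    unfold bits
    have hne : (i.succAbove k).val ≠ i.val := fun h => Fin.succAbove_ne i k (Fin.ext h)
    rw [decide_eq_decide]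
    omega
  rw [e1, e2, e3, pt_true, pt_false]
  ring

variable [Nonempty ρ] [Nonempty κ]

/-- **The counting inequality.** -/
theorem counting {f F ν g : ρ → κ → ℝ} {K A B τ ε : ℝ} {n : ℕ}
    (hK : 0 ≤ K) (hf : ∀ s q, |f s q| ≤ K * ν s q) (hF : ∀ s q, |F s q| ≤ K * g s q)
    (hν : ∀ s q, 0 ≤ ν s q) (hg : ∀ s q, 0 ≤ g s q) (hgA : ∀ s q, g s q ≤ A)
    (hB : 0 ≤ B) (hτ : 0 ≤ τ)
    (hMB : MB ν g B n) (hMB2 : MB ν g B 2) (hPR : PR ν g τ (n + n + 1 + 1))
    (hcut : ∀ b : ρ → ℝ, (∀ s, |b s| ≤ 1) → 𝔼 q, (𝔼 s, b s * (f s q - F s q)) ^ 2 ≤ ε) :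
    𝔼 r : Fin (n + 1) → ρ, |𝔼 q, ∏ i, f (r i) q - 𝔼 q, ∏ i, F (r i) q| ≤
      (n + 1) * (K ^ n * Real.sqrt (B * (A ^ n * ε + 8 * K ^ 2 * Real.sqrt (B * τ)))) := by
  set P : ℕ → (Fin (n + 1) → ρ) → ℝ := fun j r => 𝔼 q, pp f F (bits (n + 1) j) r q with hP
  have e0 : ∀ r : Fin (n + 1) → ρ, P 0 r = 𝔼 q, ∏ i, F (r i) q := by
    intro r
    refine expect_congr rfl fun q _ => prod_congr rfl fun i _ => ?_
    simp [bits, pt]
  have e1 : ∀ r : Fin (n + 1) → ρ, P (n + 1) r = 𝔼 q, ∏ i, f (r i) q := by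
    intro r
    refine expect_congr rfl fun q _ => prod_congr rfl fun i _ => ?_
    have : i.val < n + 1 := i.2
    simp [bits, pt, this]
  have h1 : ∀ r : Fin (n + 1) → ρ, |𝔼 q, ∏ i, f (r i) q - 𝔼 q, ∏ i, F (r i) q| ≤
      ∑ i : Fin (n + 1), |P (i.val + 1) r - P i.val r| := by
    intro r
    rw [← e0 r, ← e1 r, ← Finset.sum_range_sub (fun j => P j r) (n + 1),
      ← Fin.sum_univ_eq_sum_range (fun j => P (j + 1) r - P j r) (n + 1)]
    exact abs_sum_le_sum_abs _ _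
  refine (expect_le_expect fun r _ => h1 r).trans ?_
  rw [expect_sum_comm]
  have h2 : ∀ i : Fin (n + 1), 𝔼 r : Fin (n + 1) → ρ, |P (i.val + 1) r - P i.val r| ≤
      K ^ n * Real.sqrt (B * (A ^ n * ε + 8 * K ^ 2 * Real.sqrt (B * τ))) := by
    intro i
    rw [exp_insertNth i]
    have := one_step hK hf hF hν hg hgA hB hτ hMB hMB2 hPR hcut
      (fun k => bits (n + 1) i.val (i.succAbove k))
    refine le_trans (le_of_eq ?_) this
    refine expect_congr rfl fun s _ => expect_congr rfl fun u _ => ?_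
    rw [← step_eq]
  calc _ ≤ ∑ _i : Fin (n + 1), K ^ n * Real.sqrt (B * (A ^ n * ε + 8 * K ^ 2 * Real.sqrt (B * τ))) :=
        sum_le_sum fun i _ => h2 i
    _ = _ := by
        rw [sum_const, card_univ, Fintype.card_fin, nsmul_eq_mul]
        push_cast
        ring

end Pool.Agent.NH16.DL
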