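import Pool.Agent.NH16.DL.B8

set_option autoImplicit false
set_option linter.unusedSectionVars false
set_option linter.unusedVariables false

/-!
# Averages of the primes `q r + 1` against functions of the class of `q`: the theorem
-/

namespace Pool.Agent.NH16.DL

open Finset Filter Topology
open scoped BigOperators

lemma sum_shift' (x : ℕ) (φ : ℕ → ℝ) : ∑ i : Fin x, φ (x + i) = ∑ n ∈ Ico x (2 * x), φ n := by
  rw [Fin.sum_univ_eq_sum_range (fun i => φ (x + i)) x, Finset.sum_Ico_eq_sum_range]
  congr 2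
  omega

lemma class_card {x W : ℕ} (hW : 0 < W) (hx : 1 ≤ x) (z : ℕ) (hz : z < W) :
    |(((Ico x (2 * x)).filter (fun q => q % W = z)).card : ℝ) - x / W| ≤ 1 := by
  have e : (Ico x (2 * x)).filter (fun q => q % W = z) =
      (Ioc (x - 1) (2 * x - 1)).filter (fun n => n ≡ z [MOD W]) := by
    ext n
    rw [mem_filter, mem_filter, mem_Ico, mem_Ioc, Nat.ModEq, Nat.mod_eq_of_lt hz]
    constructor
    · rintro ⟨h1, h2⟩; exact ⟨by omega, h2⟩
    · rintro ⟨h1, h2⟩; exact ⟨by omega, h2⟩
  obtain ⟨h1, h2⟩ := Pool.Agent.H387R2.Uni.size_bounds (x - 1) (2 * x - 1) z hW (by omega)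
  rw [← e] at h1 h2
  have e1 : (((2 * x - 1 : ℕ) : ℝ) - ((x - 1 : ℕ) : ℝ)) = x := by
    rw [Nat.cast_sub (by omega), Nat.cast_sub hx]; push_cast; ring
  rw [e1] at h1 h2
  rw [abs_le]
  constructor <;> linarith

/-- **Siegel-Walfisz for the values `q r + 1`.** -/
theorem sw_dil (w : ℕ) {C : ℝ} (hC : 0 ≤ C) {δ η : ℝ} (hδ : 0 < δ) (hδ1 : δ ≤ 1) (hη : 0 < η) :
    ∀ᶠ x : ℕ in atTop, ∀ r : ℕ, 1 ≤ r → (r : ℝ) ≤ Real.log x ^ C → ∀ ψ : ℕ → ℝ, (∀ z, |ψ z| ≤ 1) →
      |𝔼 q : Fin x, ψ ((x + q) % Wn w) *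
        ((open Classical in if ((x + q) * r + 1).Prime then Real.log x else 0) - Gf w r (x + q))| ≤
      (Vv w)⁻¹ * ((1 + δ) * sg w 3 r - 1) + η := by
  classical
  set W := Wn w with hWd
  have hW : 0 < W := Wn_pos w
  have hWp : (0 : ℝ) < W := by exact_mod_cast hW
  obtain ⟨k, hk⟩ := exists_nat_ge C
  obtain ⟨x0, hx0⟩ := Pool.Agent.W218.MU.sw (k + 1) (k + 2)
  have hlog : Tendsto (fun x : ℕ => Real.log (x : ℝ)) atTop atTop :=
    Real.tendsto_log_atTop.comp tendsto_natCast_atTop_atTop
  filter_upwards [pi_range hC hδ hδ1, eventually_ge_atTop (max x0 (w + 2)),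
    hlog.eventually_ge_atTop (max (W : ℝ) (6 * W / η) ), hlog.eventually_ge_atTop 1,
    (tendsto_natCast_atTop_atTop (R := ℝ)).eventually_ge_atTop (2 * W * (Vv w)⁻¹ / η)]
    with x hpi hxx hLW hL1 hxη r hr hrC ψ hψ
  have hxx0 : x0 ≤ x := (le_max_left _ _).trans hxx
  have hxw : w + 2 ≤ x := (le_max_right _ _).trans hxx
  have hx1 : 1 ≤ x := by omega
  have hxp : (0 : ℝ) < x := by exact_mod_cast hx1
  have hrp : (1 : ℝ) ≤ r := by exact_mod_cast hr
  set L := Real.log x with hL
  have hLp : 0 < L := by linarith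
  have hVp : 0 < (Vv w)⁻¹ := inv_pos.2 (Vv_pos w)
  set φt : ℝ := (Nat.totient (r * W) : ℝ) with hφ
  have hφp : 0 < φt := by
    rw [hφ]
    exact_mod_cast Nat.totient_pos.2 (Nat.mul_pos hr hW)
  set κ : ℝ := ∏ p ∈ r.primeFactors.filter (fun p => w < p), (1 - 1 / (p : ℝ))⁻¹ with hκ
  obtain ⟨hκ1, hκ2⟩ := kap_bounds w r
  rw [← hκ] at hκ1 hκ2
  have hphi : (W : ℝ) * r / φt = (Vv w)⁻¹ * κ := phi_eq hr
  set S : ℕ → ℝ := fun z => (((Ico x (2 * x)).filter (fun q => q % W = z ∧ (q * r + 1).Prime)).card : ℝ) with hS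
  set T : ℕ → ℝ := fun z => (((Ico x (2 * x)).filter (fun q => q % W = z)).card : ℝ) with hT
  -- decomposition
  have e1 : 𝔼 q : Fin x, ψ ((x + q) % W) *
        ((if ((x + q) * r + 1).Prime then L else 0) - Gf w r (x + q)) =
      ∑ z ∈ range W, ψ z * (L * S z / x - Gf w r z * T z / x) := by
    rw [Fintype.expect_eq_sum_div_card, Fintype.card_fin,
      sum_shift' x (fun n => ψ (n % W) * ((if (n * r + 1).Prime then L else 0) - Gf w r n)),
      ← sum_fiberwise_of_maps_to (t := range W) (g := fun q => q % W)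
        (fun q _ => mem_range.2 (Nat.mod_lt q hW)), sum_div]
    refine sum_congr rfl fun z hz => ?_
    have : ∑ q ∈ (Ico x (2 * x)).filter (fun q => q % W = z),
        ψ (q % W) * ((if (q * r + 1).Prime then L else 0) - Gf w r q) =
        ∑ q ∈ (Ico x (2 * x)).filter (fun q => q % W = z),
          (ψ z * (if (q * r + 1).Prime then L else 0) - ψ z * Gf w r z) := by
      refine sum_congr rfl fun q hq => ?_
      rw [mem_filter] at hq
      rw [← Gf_mod w r q, ← hWd, hq.2]
      ring
    rw [this, sum_sub_distrib, ← mul_sum, ← sum_filter, filter_filter, sum_const, sum_const,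
      nsmul_eq_mul, nsmul_eq_mul]
    simp only [hS, hT]
    ring
  rw [e1]
  -- one class
  have cls : ∀ z ∈ range W, |L * S z / x - Gf w r z * T z / x| ≤
      ((Vv w)⁻¹ * ((1 + δ) * κ - 1) + η) / W := by
    intro z hz
    rw [mem_range] at hz
    have hRHS : 0 ≤ ((Vv w)⁻¹ * ((1 + δ) * κ - 1) + η) / W := by
      have : 0 ≤ (1 + δ) * κ - 1 := by nlinarith
      positivity
    by_cases hcop : ∀ p ∈ PP w, ¬ p ∣ z * r + 1
    · have hG : Gf w r z = (Vv w)⁻¹ := by unfold Gf; rw [if_pos hcop]
      have hc := cop_iff.1 hcop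
      have hc2 : Nat.Coprime (z * r + 1) (r * W) := by
        refine Nat.Coprime.mul_right ?_ hc
        rw [mul_comm]
        exact (Nat.coprime_mul_left_add_left 1 r z).2 (Nat.coprime_one_left r)
      set a := (z * r + 1) % (r * W) with ha
      have hrW : 0 < r * W := Nat.mul_pos hr hW
      have halt : a < r * W := Nat.mod_lt _ hrW
      have hac : a.Coprime (r * W) := by
        rw [ha]
        have := Nat.ModEq.gcd_eq (Nat.mod_modEq (z * r + 1) (r * W))
        unfold Nat.Coprime
        rw [this]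
        exact hc2
      have hrWL : ((r * W : ℕ) : ℝ) ≤ L ^ (k + 1) := by
        push_cast
        rw [pow_succ]
        refine mul_le_mul ?_ ((le_max_left _ _).trans hLW) hWp.le (by positivity)
        refine hrC.trans ?_
        rw [← Real.rpow_natCast]
        exact Real.rpow_le_rpow_of_exponent_le hL1 hk
      have one : ∀ X : ℕ, x ≤ X → |H343E.piAP X (r * W) a - H343E.pi1 X / φt| ≤ X / L ^ (k + 2) := by
        intro X hX
        have hLX : L ≤ Real.log X := Real.log_le_log hxp (by exact_mod_cast hX)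
        have := hx0 X (hxx0.trans hX) (r * W) hrW
          (hrWL.trans (pow_le_pow_left₀ hLp.le hLX _)) a halt hac
        refine this.trans ?_
        exact div_le_div_of_nonneg_left (Nat.cast_nonneg _) (by positivity)
          (pow_le_pow_left₀ hLp.le hLX _)
      have hA : x ≤ x * r := Nat.le_mul_of_pos_right x hr
      have hB : x ≤ (2 * x - 1) * r + 1 := by nlinarith [Nat.mul_le_mul_right r (by omega : x ≤ 2 * x - 1)]
      have t1 := one _ hB
      have t2 := one _ hA
      have t3 := hpi r hr hrC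
      have hSz : S z = H343E.piAP ((2 * x - 1) * r + 1) (r * W) a - H343E.piAP (x * r) (r * W) a :=
        cnt_class hr hW hx1 hz
      have hX1c : (((2 * x - 1) * r + 1 : ℕ) : ℝ) = (2 * x - 1) * r + 1 := by
        push_cast [Nat.cast_sub (by omega : 1 ≤ 2 * x)]
        ring
      rw [hX1c] at t1
      push_cast at t2
      -- the count of primes
      have k1 : |S z - (x * r / L) / φt| ≤ δ * (x * r / L) / φt + 3 * (x * r) / L ^ (k + 2) := by
        have e : S z - (x * r / L) / φt =
            (H343E.piAP ((2 * x - 1) * r + 1) (r * W) a - H343E.pi1 ((2 * x - 1) * r + 1) / φt) -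
            (H343E.piAP (x * r) (r * W) a - H343E.pi1 (x * r) / φt) +
            (H343E.pi1 ((2 * x - 1) * r + 1) - H343E.pi1 (x * r) - x * r / L) / φt := by
          rw [hSz]; ring
        rw [e]
        refine (abs_add_le _ _).trans (le_trans (add_le_add ((abs_sub _ _).trans (add_le_add t1 t2))
          (le_of_eq (by rw [abs_div, abs_of_pos hφp]))) ?_)
        have f1 : |H343E.pi1 ((2 * x - 1) * r + 1) - H343E.pi1 (x * r) - x * r / L| / φt ≤
            δ * (x * r / L) / φt := div_le_div_of_nonneg_right t3 hφp.le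
        have f2 : ((2 * (x : ℝ) - 1) * r + 1) / L ^ (k + 2) + x * r / L ^ (k + 2) ≤
            3 * (x * r) / L ^ (k + 2) := by
          rw [← add_div]
          exact div_le_div_of_nonneg_right (by nlinarith) (by positivity)
        linarith
      have k2 : |L * S z / x - r / φt| ≤ δ * (r / φt) + 3 / L := by
        have e : L * S z / x - r / φt = L / x * (S z - (x * r / L) / φt) := by
          field_simp
        rw [e, abs_mul, abs_of_pos (by positivity : 0 < L / x)]
        refine (mul_le_mul_of_nonneg_left k1 (by positivity)).trans ?_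
        have e2 : L / x * (δ * (x * r / L) / φt + 3 * (x * r) / L ^ (k + 2)) =
            δ * (r / φt) + 3 * (r / L ^ (k + 1)) := by
          rw [show k + 2 = (k + 1) + 1 by ring, pow_succ L (k + 1)]
          field_simp
        rw [e2]
        have : (r : ℝ) / L ^ (k + 1) ≤ 1 / L := by
          rw [div_le_div_iff₀ (by positivity) hLp, pow_succ, one_mul]
          refine mul_le_mul_of_nonneg_right (hrC.trans ?_) hLp.le
          rw [← Real.rpow_natCast]
          exact Real.rpow_le_rpow_of_exponent_le hL1 hk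
        have e3 : (3 : ℝ) / L = 3 * (1 / L) := by ring
        rw [e3]
        linarith
      have k3 : |T z / x - 1 / W| ≤ 1 / x := by
        have h := class_card hW hx1 z hz
        have e : T z / x - 1 / W = (T z - x / W) / x := by field_simp
        rw [e, abs_div, abs_of_pos hxp]
        exact div_le_div_of_nonneg_right h hxp.le
      have hrφ : (r : ℝ) / φt = (Vv w)⁻¹ * κ / W := by
        rw [← hphi]; field_simp
      rw [hG]
      have e : L * S z / x - (Vv w)⁻¹ * T z / x = (L * S z / x - r / φt) - (Vv w)⁻¹ * (T z / x - 1 / W) +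
          ((Vv w)⁻¹ * κ / W - (Vv w)⁻¹ / W) := by
        rw [hrφ]; ring
      rw [e]
      have k4 : |(Vv w)⁻¹ * (T z / x - 1 / W)| ≤ (Vv w)⁻¹ * (1 / x) := by
        rw [abs_mul, abs_of_pos hVp]
        exact mul_le_mul_of_nonneg_left k3 hVp.le
      have k5 : |(Vv w)⁻¹ * κ / W - (Vv w)⁻¹ / W| = (Vv w)⁻¹ * (κ - 1) / W := by
        rw [abs_of_nonneg]
        · ring
        · have : 0 ≤ (Vv w)⁻¹ * (κ - 1) / W := by
            have : 0 ≤ κ - 1 := by linarith
            positivity
          calc (0 : ℝ) ≤ (Vv w)⁻¹ * (κ - 1) / W := this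
            _ = _ := by ring
      refine (abs_add_le _ _).trans (le_trans (add_le_add ((abs_sub _ _).trans (add_le_add k2 k4)) (le_of_eq k5)) ?_)
      rw [hrφ]
      have g1 : 3 / L ≤ η / 2 / W := by
        have : 6 * W / η ≤ L := (le_max_right _ _).trans hLW
        rw [div_le_iff₀ hη] at this
        rw [div_div, div_le_div_iff₀ hLp (by positivity)]
        linarith
      have g2 : (Vv w)⁻¹ * (1 / x) ≤ η / 2 / W := by
        rw [div_le_iff₀ hη] at hxη
        rw [mul_one_div, div_div, div_le_div_iff₀ hxp (by positivity)]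
        linarith
      have e4 : ((Vv w)⁻¹ * ((1 + δ) * κ - 1) + η) / W =
          δ * ((Vv w)⁻¹ * κ / W) + (Vv w)⁻¹ * (κ - 1) / W + (η / 2 / W + η / 2 / W) := by ring
      rw [e4]
      linarith
    · have hG : Gf w r z = 0 := by unfold Gf; rw [if_neg hcop]
      have hS0 : S z = 0 := by
        simp only [hS]
        rw [Nat.cast_eq_zero, card_eq_zero, filter_eq_empty_iff]
        rintro q hq ⟨h1, h2⟩
        push Not at hcop
        obtain ⟨p, hp, hd⟩ := hcop
        have hp' := mem_PP.1 hp
        have hpd : p ∣ q * r + 1 := by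
          rw [← Nat.modEq_zero_iff_dvd] at hd ⊢
          refine Nat.ModEq.trans ?_ hd
          refine (Nat.ModEq.mul_right _ ?_).add_right _
          have : q ≡ z [MOD W] := by rw [Nat.ModEq, h1, Nat.mod_eq_of_lt hz]
          exact this.of_dvd ((dvd_Wn hp'.1).2 hp'.2)
        have := (Nat.prime_dvd_prime_iff_eq hp'.1 h2).1 hpd
        rw [mem_Ico] at hq
        have : q ≤ q * r := Nat.le_mul_of_pos_right q hr
        omega
      rw [hG, hS0]
      simpa using hRHS
  calc _ ≤ ∑ z ∈ range W, |ψ z * (L * S z / x - Gf w r z * T z / x)| := abs_sum_le_sum_abs _ _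
    _ ≤ ∑ _z ∈ range W, ((Vv w)⁻¹ * ((1 + δ) * κ - 1) + η) / W := by
        refine sum_le_sum fun z hz => ?_
        rw [abs_mul]
        calc _ ≤ 1 * |L * S z / x - Gf w r z * T z / x| :=
              mul_le_mul_of_nonneg_right (hψ z) (abs_nonneg _)
          _ ≤ _ := by rw [one_mul]; exact cls z hz
    _ = (Vv w)⁻¹ * ((1 + δ) * κ - 1) + η := by
        rw [sum_const, card_range, nsmul_eq_mul]
        field_simp
    _ ≤ _ := by
        have : (1 + δ) * κ ≤ (1 + δ) * sg w 3 r := mul_le_mul_of_nonneg_left hκ2 (by linarith)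
        have := mul_le_mul_of_nonneg_left (sub_le_sub_right this 1) hVp.le
        linarith

end Pool.Agent.NH16.DL
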