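import Pool.Agent.NH16.DL.B9
import Pool.Agent.W218.MU.Dil

set_option autoImplicit false
set_option linter.unusedSectionVars false
set_option linter.unusedVariables false

/-!
# The singular product
-/

namespace Pool.Agent.NH16.DL

open Finset Filter Topology
open scoped BigOperators
open Pool.Agent.W218.MU (wD SD ND SD_hasProd)

lemma tendsto_PP {F : ℕ → ℝ} {a : ℝ} (h : HasProd (fun p : Nat.Primes => F (p : ℕ)) a) :
    Tendsto (fun y : ℕ => ∏ p ∈ PP y, F p) atTop (𝓝 a) := by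
  classical
  have h1 : Tendsto (fun y : ℕ => (Finset.subtype Nat.Prime (PP y) : Finset Nat.Primes)) atTop atTop := by
    refine tendsto_atTop_finset_of_monotone ?_ ?_
    · intro y y' hy p hp
      rw [Finset.mem_subtype, mem_PP] at hp ⊢
      exact ⟨hp.1, hp.2.trans hy⟩
    · intro p
      refine ⟨(p : ℕ), ?_⟩
      rw [Finset.mem_subtype, mem_PP]
      exact ⟨p.2, le_rfl⟩
  have h2 := Tendsto.comp h h1
  refine h2.congr fun y => ?_
  simp only [Function.comp]
  exact prod_subtype_of_mem (f := F) fun p hp => (mem_PP.1 hp).1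

/-- the pattern with only `true` -/
abbrev tt (m : ℕ) : Fin m → Bool := fun _ => true

lemma wD_image {m : ℕ} (r : Fin m → ℕ) {p y w : ℕ} (hp : p.Prime) (hpy : p ≤ y) :
    zz w y (tt m) r p = wD (univ.image r) p := by
  classical
  unfold zz wD Rl
  congr 1
  ext t
  simp only [mem_filter, and_congr_right_iff]
  intro _
  rw [Prime.dvd_finset_prod_iff hp.prime]
  simp only [mem_image, mem_univ, true_and]
  constructor
  · rintro ⟨i, _, h⟩
    exact ⟨r i, ⟨i, rfl⟩, h⟩
  · rintro ⟨_, ⟨i, rfl⟩, h⟩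
    exact ⟨i, hpy, h⟩

lemma card_image_inj {m : ℕ} {r : Fin m → ℕ} (hr : Function.Injective r) : (univ.image r).card = m := by
  rw [card_image_of_injective _ hr, card_univ, Fintype.card_fin]

lemma Lc_tt_tendsto {m w : ℕ} {r : Fin m → ℕ} (hr : Function.Injective r) (h0 : ∀ i, r i ≠ 0) :
    Tendsto (fun y => Lc w y (tt m) r) atTop (𝓝 (SD (univ.image r))) := by
  classical
  have h := SD_hasProd (T := univ.image r) (fun t ht => by
    rw [mem_image] at ht
    obtain ⟨i, _, rfl⟩ := ht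
    exact Nat.one_le_iff_ne_zero.2 (h0 i))
  rw [card_image_inj hr] at h
  have h1 := tendsto_PP (F := fun p => (1 - (wD (univ.image r) p : ℝ) / (p : ℝ)) / (1 - 1 / (p : ℝ)) ^ m) h
  refine h1.congr' ?_
  filter_upwards [eventually_ge_atTop w] with y hy
  rw [Lc_eq hy]
  refine prod_congr rfl fun p hp => ?_
  rw [mem_PP] at hp
  unfold lf
  rw [wD_image r hp.1 hp.2]
  have hk : kk w y (tt m) p = m := by
    unfold kk
    rw [filter_true_of_mem, card_univ, Fintype.card_fin]
    intro i _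
    exact hp.2
  rw [hk, div_eq_mul_inv]

theorem SD_close {m w y : ℕ} (hwy : w ≤ y) (hw : 1 ≤ w) (hm : m ≤ w) {r : Fin m → ℕ}
    (hr : Function.Injective r) (h0 : ∀ i, r i ≠ 0) :
    |SD (univ.image r) - Lc w y (ff m) r| ≤
      (Vv w)⁻¹ ^ m * ((sg w (3 ^ m) (disc r) - 1) + (m : ℝ) ^ 2 / w) := by
  have h1 : Tendsto (fun y' => |Lc w y' (tt m) r - Lc w y (ff m) r|) atTop
      (𝓝 |SD (univ.image r) - Lc w y (ff m) r|) := ((Lc_tt_tendsto hr h0).sub_const _).abs
  refine le_of_tendsto h1 ?_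
  filter_upwards [eventually_ge_atTop w] with y' hy'
  exact Lc_diff hy' hwy hw hm (tt m) hr h0

/-- the mean value of the singular product along injective tuples differs little from that of the model -/
theorem avg_SD {R x w y : ℕ} (hR : 1 ≤ R) (hwy : w ≤ y) {θ η : ℝ} (hθ0 : 0 ≤ θ) (hη0 : 0 ≤ η) {m : ℕ}
    (hw : 1 ≤ w) (hmw : m ≤ w) (hFL : FL w y x θ η m) :
    𝔼 r : Fin m → Fin R, (open Classical in if Function.Injective r then
      |𝔼 q, ∏ i, gx R x w (r i) q - SD (univ.image (fun i => vl (r i)))| else 0) ≤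
      θ * c1 m + η + (Vv w)⁻¹ ^ m * ((m + 2 * m * m) * (Real.exp ((1 + 3 ^ m) ^ (m + m * m) / w) - 1) +
        (m : ℝ) ^ 2 / w) := by
  classical
  have hne : Nonempty (Fin R) := ⟨⟨0, hR⟩⟩
  have hVw : 0 ≤ (Vv w)⁻¹ ^ m := pow_nonneg (inv_nonneg.2 (Vv_pos w).le) _
  have h1 : ∀ r : Fin m → Fin R, (if Function.Injective r then
      |𝔼 q, ∏ i, gx R x w (r i) q - SD (univ.image (fun i => vl (r i)))| else 0) ≤
      θ * sg 1 (3 ^ m) (disc (fun i => vl (r i))) + η +
        (Vv w)⁻¹ ^ m * ((sg w (3 ^ m) (disc (fun i => vl (r i))) - 1) + (m : ℝ) ^ 2 / w) := by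
    intro r
    have hsg := sg_one_le (w := 1) (c := 3 ^ m) (by positivity) (disc (fun i => vl (r i)))
    have hsgw := sg_one_le (w := w) (c := 3 ^ m) (by positivity) (disc (fun i => vl (r i)))
    have hmw0 : (0 : ℝ) ≤ (m : ℝ) ^ 2 / w := by positivity
    split_ifs with hinj
    · have e : 𝔼 q, ∏ i, gx R x w (r i) q =
          𝔼 i : Fin x, ∏ j, Gf (lv w y (ff m j)) (vl (r j)) (x + i) := rfl
      rw [e]
      have f1 := hFL (ff m) (fun i => vl (r i))
      have g1 := Lc_le hwy (ff m) (inj_vl hinj) (vl_ne r)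
      have g2 := SD_close hwy hw hmw (inj_vl hinj) (vl_ne r)
      rw [abs_sub_comm] at g2
      have := abs_sub_le (𝔼 i : Fin x, ∏ j, Gf (lv w y (ff m j)) (vl (r j)) (x + i))
        (Lc w y (ff m) (fun i => vl (r i))) (SD (univ.image (fun i => vl (r i))))
      have h5 := mul_le_mul_of_nonneg_left g1 hθ0
      linarith
    · have k1 : 0 ≤ (Vv w)⁻¹ ^ m * ((sg w (3 ^ m) (disc (fun i => vl (r i))) - 1) + (m : ℝ) ^ 2 / w) :=
        mul_nonneg hVw (by linarith)
      have k2 : 0 ≤ θ * sg 1 (3 ^ m) (disc (fun i => vl (r i))) := by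
        have : 0 ≤ sg 1 (3 ^ m) (disc (fun i => vl (r i))) := by linarith
        positivity
      linarith
  refine (expect_le_expect fun r _ => h1 r).trans ?_
  have hd := avg_disc (R := R) (m := m) (M := m + m * m) (w := w) hR le_rfl hw (c := 3 ^ m) (by positivity)
  have he := exp_sg (R := R) (m := m) hR
  simp only [expect_add_distrib, ← mul_expect, Fintype.expect_const]
  have k3 := mul_le_mul_of_nonneg_left he hθ0
  have k4 : (Vv w)⁻¹ ^ m * (𝔼 r : Fin m → Fin R, (sg w (3 ^ m) (disc (fun i => vl (r i))) - 1) +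
      (m : ℝ) ^ 2 / w) ≤ (Vv w)⁻¹ ^ m * ((m + 2 * m * m) *
        (Real.exp ((1 + 3 ^ m) ^ (m + m * m) / w) - 1) + (m : ℝ) ^ 2 / w) :=
    mul_le_mul_of_nonneg_left (by linarith) hVw
  linarith

end Pool.Agent.NH16.DL
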