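import Mathlib

set_option autoImplicit false

/-!
# A counting inequality: averages of products over tuples

`f, F, g, ν : ρ → κ → ℝ` with `0 ≤ f ≤ K ν`, `0 ≤ F ≤ K g`, `g ≤ A`.  If the products of copies of `ν` and `g` have
the same averages as the products of copies of `g` for most tuples, and `f - F` is small on average in the
sense of squares, then the products of copies of `f` have the same averages as those of `F` for most tuples.
-/

namespace Pool.Agent.NH16.DL

open Finset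
open scoped BigOperators

/-- Cauchy-Schwarz with a weight -/
lemma cs_weight {ι : Type*} [Fintype ι] (F M H : ι → ℝ) (h : ∀ i, |F i| ≤ M i) :
    (𝔼 i, F i * H i) ^ 2 ≤ (𝔼 i, M i) * 𝔼 i, M i * H i ^ 2 := by
  have h0 : ∀ i, 0 ≤ M i := fun i => (abs_nonneg _).trans (h i)
  have h1 : |𝔼 i, F i * H i| ≤ 𝔼 i, Real.sqrt (M i) * (Real.sqrt (M i) * |H i|) := by
    refine (abs_expect_le _ _).trans (expect_le_expect fun i _ => ?_)
    rw [abs_mul, ← mul_assoc, Real.mul_self_sqrt (h0 i)]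
    exact mul_le_mul_of_nonneg_right (h i) (abs_nonneg _)
  calc (𝔼 i, F i * H i) ^ 2 = |𝔼 i, F i * H i| ^ 2 := (sq_abs _).symm
    _ ≤ (𝔼 i, Real.sqrt (M i) * (Real.sqrt (M i) * |H i|)) ^ 2 :=
        pow_le_pow_left₀ (abs_nonneg _) h1 2
    _ ≤ (𝔼 i, Real.sqrt (M i) ^ 2) * 𝔼 i, (Real.sqrt (M i) * |H i|) ^ 2 :=
        expect_mul_sq_le_sq_mul_sq _ _ _
    _ = _ := by
        congr 1
        · exact expect_congr rfl fun i _ => Real.sq_sqrt (h0 i)
        · exact expect_congr rfl fun i _ => by rw [mul_pow, Real.sq_sqrt (h0 i), sq_abs]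

lemma exp_prod {α β : Type*} [Fintype α] [Fintype β] (φ : α × β → ℝ) :
    𝔼 z, φ z = 𝔼 a, 𝔼 b, φ (a, b) := by
  rw [← univ_product_univ, expect_product]

lemma exp_comm {α β : Type*} [Fintype α] [Fintype β] (φ : α → β → ℝ) :
    𝔼 a, 𝔼 b, φ a b = 𝔼 b, 𝔼 a, φ a b := expect_comm _ _ _

variable {α σ κ : Type*} [Fintype α] [Fintype σ] [Fintype κ]

lemma cs_weight2 (F M H : α → κ → ℝ) (h : ∀ u q, |F u q| ≤ M u q) :
    (𝔼 u, 𝔼 q, F u q * H u q) ^ 2 ≤ (𝔼 u, 𝔼 q, M u q) * 𝔼 u, 𝔼 q, M u q * H u q ^ 2 := by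
  have := cs_weight (fun z : α × κ => F z.1 z.2) (fun z => M z.1 z.2) (fun z => H z.1 z.2)
    (fun z => h z.1 z.2)
  rw [exp_prod, exp_prod, exp_prod] at this
  exact this

lemma cs_weight3 {β : Type*} [Fintype β] (F M H : α → β → κ → ℝ) (h : ∀ u v q, |F u v q| ≤ M u v q) :
    (𝔼 u, 𝔼 v, 𝔼 q, F u v q * H u v q) ^ 2 ≤
      (𝔼 u, 𝔼 v, 𝔼 q, M u v q) * 𝔼 u, 𝔼 v, 𝔼 q, M u v q * H u v q ^ 2 := by
  have := cs_weight2 (fun (z : α × β) q => F z.1 z.2 q) (fun z q => M z.1 z.2 q)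
    (fun z q => H z.1 z.2 q) (fun z q => h z.1 z.2 q)
  rw [exp_prod, exp_prod, exp_prod] at this
  exact this

/-- the square of an average -/
lemma sq_exp (φ : α → ℝ) : (𝔼 u, φ u) ^ 2 = 𝔼 u, 𝔼 v, φ u * φ v := by
  rw [sq, expect_mul_expect]

/-- the error from replacing the weight `M` by `M - D` -/
lemma replace (D : α → κ → ℝ) (c : α → σ → ℝ) (h μ : σ → κ → ℝ) (hc : ∀ u s, |c u s| ≤ 1)
    (hμ : ∀ s q, |h s q| ≤ μ s q) :
    (𝔼 u, 𝔼 q, D u q * (𝔼 s, c u s * h s q) ^ 2) ^ 2 ≤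
      (𝔼 s, 𝔼 t, 𝔼 q, μ s q * μ t q) *
        𝔼 s, 𝔼 t, 𝔼 u, 𝔼 v, |𝔼 q, μ s q * μ t q * (D u q * D v q)| := by
  have h0 : ∀ s q, 0 ≤ μ s q := fun s q => (abs_nonneg _).trans (hμ s q)
  have e1 : 𝔼 u, 𝔼 q, D u q * (𝔼 s, c u s * h s q) ^ 2 =
      𝔼 s, 𝔼 t, 𝔼 q, (h s q * h t q) * 𝔼 u, c u s * c u t * D u q := by
    have a1 : ∀ u q, D u q * (𝔼 s, c u s * h s q) ^ 2 =
        𝔼 s, 𝔼 t, (h s q * h t q) * (c u s * c u t * D u q) := by
      intro u q
      rw [sq_exp, mul_expect]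
      refine expect_congr rfl fun s _ => ?_
      rw [mul_expect]
      refine expect_congr rfl fun t _ => by ring
    simp only [a1]
    have a2 : ∀ u, 𝔼 q, 𝔼 s, 𝔼 t, (h s q * h t q) * (c u s * c u t * D u q) =
        𝔼 s, 𝔼 t, 𝔼 q, (h s q * h t q) * (c u s * c u t * D u q) := by
      intro u
      rw [exp_comm]
      exact expect_congr rfl fun s _ => exp_comm _
    simp only [a2]
    rw [exp_comm]
    refine expect_congr rfl fun s _ => ?_
    rw [exp_comm]
    refine expect_congr rfl fun t _ => ?_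
    rw [exp_comm]
    refine expect_congr rfl fun q _ => ?_
    rw [mul_expect]
  rw [e1]
  refine (cs_weight3 (fun s t q => h s q * h t q) (fun s t q => μ s q * μ t q)
    (fun s t q => 𝔼 u, c u s * c u t * D u q) (fun s t q => ?_)).trans ?_
  · rw [abs_mul]
    exact mul_le_mul (hμ s q) (hμ t q) (abs_nonneg _) (h0 s q)
  · refine mul_le_mul_of_nonneg_left ?_ (expect_nonneg fun s _ => expect_nonneg fun t _ =>
      expect_nonneg fun q _ => mul_nonneg (h0 s q) (h0 t q))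
    refine expect_le_expect fun s _ => expect_le_expect fun t _ => ?_
    have e2 : 𝔼 q, μ s q * μ t q * (𝔼 u, c u s * c u t * D u q) ^ 2 =
        𝔼 u, 𝔼 v, (c u s * c u t * (c v s * c v t)) * 𝔼 q, μ s q * μ t q * (D u q * D v q) := by
      have a1 : ∀ q, μ s q * μ t q * (𝔼 u, c u s * c u t * D u q) ^ 2 =
          𝔼 u, 𝔼 v, (c u s * c u t * (c v s * c v t)) * (μ s q * μ t q * (D u q * D v q)) := by
        intro q
        rw [sq_exp, mul_expect]
        refine expect_congr rfl fun u _ => ?_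
        rw [mul_expect]
        refine expect_congr rfl fun v _ => by ring
      simp only [a1]
      rw [exp_comm]
      refine expect_congr rfl fun u _ => ?_
      rw [exp_comm]
      refine expect_congr rfl fun v _ => ?_
      rw [mul_expect]
    rw [e2]
    refine expect_le_expect fun u _ => expect_le_expect fun v _ => ?_
    refine (le_abs_self _).trans ?_
    rw [abs_mul]
    have h1 : |c u s * c u t * (c v s * c v t)| ≤ 1 := by
      rw [abs_mul, abs_mul, abs_mul]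
      have k1 := hc u s
      have k2 := hc u t
      have k3 := hc v s
      have k4 := hc v t
      have n1 := abs_nonneg (c u s)
      have n2 := abs_nonneg (c u t)
      have n3 := abs_nonneg (c v s)
      have n4 := abs_nonneg (c v t)
      have m1 : |c u s| * |c u t| ≤ 1 := mul_le_one₀ k1 n2 k2
      have m2 : |c v s| * |c v t| ≤ 1 := mul_le_one₀ k3 n4 k4
      exact mul_le_one₀ m1 (mul_nonneg n3 n4) m2
    calc _ ≤ 1 * _ := mul_le_mul_of_nonneg_right h1 (abs_nonneg _)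
      _ = _ := one_mul _

end Pool.Agent.NH16.DL
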