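import Pool.Agent.NH16.DL.A1

set_option autoImplicit false
set_option linter.unusedSectionVars false

/-!
# A counting inequality: the pseudorandomness conditions and the main inequality
-/

namespace Pool.Agent.NH16.DL

open Finset
open scoped BigOperators

variable {ρ κ : Type*} [Fintype ρ] [Fintype κ]

/-- the function chosen by a bit -/
def pt (ν g : ρ → κ → ℝ) (b : Bool) : ρ → κ → ℝ := if b then ν else g

lemma pt_true (ν g : ρ → κ → ℝ) : pt ν g true = ν := rfl
lemma pt_false (ν g : ρ → κ → ℝ) : pt ν g false = g := rfl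

/-- the product over a tuple -/
def pp (ν g : ρ → κ → ℝ) {n : ℕ} (a : Fin n → Bool) (u : Fin n → ρ) (q : κ) : ℝ :=
  ∏ i, pt ν g (a i) (u i) q

/-- bounded moments -/
def MB (ν g : ρ → κ → ℝ) (B : ℝ) (m : ℕ) : Prop :=
  ∀ a : Fin m → Bool, 𝔼 r : Fin m → ρ, 𝔼 q, pp ν g a r q ≤ B

/-- pseudorandomness -/
def PR (ν g : ρ → κ → ℝ) (τ : ℝ) (m : ℕ) : Prop :=
  ∀ a : Fin m → Bool, 𝔼 r : Fin m → ρ, |𝔼 q, pp ν g a r q - 𝔼 q, pp ν g (fun _ => false) r q| ≤ τ

lemma exp_cons {n : ℕ} (φ : (Fin (n + 1) → ρ) → ℝ) :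
    𝔼 r, φ r = 𝔼 s, 𝔼 u : Fin n → ρ, φ (Fin.cons s u) := by
  rw [← exp_prod (fun z : ρ × (Fin n → ρ) => φ (Fin.cons z.1 z.2))]
  exact (Fintype.expect_equiv (Fin.consEquiv (fun _ => ρ)) _ _ (fun z => rfl)).symm

lemma exp_insertNth {n : ℕ} (i : Fin (n + 1)) (φ : (Fin (n + 1) → ρ) → ℝ) :
    𝔼 r, φ r = 𝔼 s, 𝔼 u : Fin n → ρ, φ (i.insertNth s u) := by
  rw [← exp_prod (fun z : ρ × (Fin n → ρ) => φ (i.insertNth z.1 z.2))]
  exact (Fintype.expect_equiv (Fin.insertNthEquiv (fun _ => ρ) i) _ _ (fun z => rfl)).symm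

lemma exp_append {m n : ℕ} (φ : (Fin (m + n) → ρ) → ℝ) :
    𝔼 r, φ r = 𝔼 u : Fin m → ρ, 𝔼 v : Fin n → ρ, φ (Fin.append u v) := by
  rw [← exp_prod (fun z : (Fin m → ρ) × (Fin n → ρ) => φ (Fin.append z.1 z.2))]
  exact (Fintype.expect_equiv (Fin.appendEquiv m n) _ _ (fun z => rfl)).symm

lemma pp_nonneg {ν g : ρ → κ → ℝ} (hν : ∀ s q, 0 ≤ ν s q) (hg : ∀ s q, 0 ≤ g s q) {n : ℕ}
    (a : Fin n → Bool) (u : Fin n → ρ) (q : κ) : 0 ≤ pp ν g a u q := by
  refine prod_nonneg fun i _ => ?_
  unfold pt
  split_ifs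
  · exact hν _ _
  · exact hg _ _

lemma pp_big (ν g : ρ → κ → ℝ) {n : ℕ} (b b' : Bool) (x y : Fin n → Bool) (s t : ρ)
    (u v : Fin n → ρ) (q : κ) :
    pp ν g (Fin.cons b (Fin.cons b' (Fin.append x y)) : Fin (n + n + 1 + 1) → Bool)
      (Fin.cons s (Fin.cons t (Fin.append u v)) : Fin (n + n + 1 + 1) → ρ) q =
      pt ν g b s q * pt ν g b' t q * (pp ν g x u q * pp ν g y v q) := by
  unfold pp
  rw [Fin.prod_univ_succ, Fin.prod_univ_succ, Fin.prod_univ_add]
  simp only [Fin.cons_zero, Fin.cons_succ, Fin.append_left, Fin.append_right]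
  ring

lemma false_big {n : ℕ} : (fun _ => false : Fin (n + n + 1 + 1) → Bool) =
    Fin.cons false (Fin.cons false (Fin.append (fun _ => false) (fun _ => false))) := by
  funext i
  refine Fin.cases rfl (fun i => ?_) i
  refine Fin.cases rfl (fun i => ?_) i
  refine Fin.addCases (fun i => ?_) (fun i => ?_) i
  · rw [Fin.cons_succ, Fin.cons_succ, Fin.append_left]
  · rw [Fin.cons_succ, Fin.cons_succ, Fin.append_right]

lemma PR_big {ν g : ρ → κ → ℝ} {τ : ℝ} {n : ℕ} (h : PR ν g τ (n + n + 1 + 1)) (b b' : Bool)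
    (x y : Fin n → Bool) :
    𝔼 s, 𝔼 t, 𝔼 u, 𝔼 v, |𝔼 q, pt ν g b s q * pt ν g b' t q * (pp ν g x u q * pp ν g y v q) -
      𝔼 q, g s q * g t q * (pp ν g (fun _ => false) u q * pp ν g (fun _ => false) v q)| ≤ τ := by
  have h1 := h (Fin.cons b (Fin.cons b' (Fin.append x y)))
  rw [exp_cons] at h1
  refine le_trans (le_of_eq ?_) h1
  refine expect_congr rfl fun s _ => ?_
  rw [exp_cons]
  refine expect_congr rfl fun t _ => ?_
  rw [exp_append]
  refine expect_congr rfl fun u _ => expect_congr rfl fun v _ => ?_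
  rw [false_big]
  simp only [pp_big, pt_false]

/-- sixteen terms -/
lemma sixteen {ν g : ρ → κ → ℝ} {τ : ℝ} {n : ℕ} (h : PR ν g τ (n + n + 1 + 1)) (a : Fin n → Bool) :
    𝔼 s, 𝔼 t, 𝔼 u, 𝔼 v, |𝔼 q, (ν s q + g s q) * (ν t q + g t q) *
      ((pp ν g a u q - pp ν g (fun _ => false) u q) * (pp ν g a v q - pp ν g (fun _ => false) v q))| ≤
      16 * τ := by
  set z : Fin n → Bool := fun _ => false with hz
  set Z : Bool → Bool → (Fin n → Bool) → (Fin n → Bool) → ρ → ρ → (Fin n → ρ) → (Fin n → ρ) → ℝ :=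
    fun b b' x y s t u v => 𝔼 q, pt ν g b s q * pt ν g b' t q * (pp ν g x u q * pp ν g y v q) -
      𝔼 q, g s q * g t q * (pp ν g z u q * pp ν g z v q) with hZ
  have hb : ∀ b b' x y, 𝔼 s, 𝔼 t, 𝔼 u, 𝔼 v, |Z b b' x y s t u v| ≤ τ := fun b b' x y => PR_big h b b' x y
  have key : ∀ s t u v, |𝔼 q, (ν s q + g s q) * (ν t q + g t q) *
      ((pp ν g a u q - pp ν g z u q) * (pp ν g a v q - pp ν g z v q))| ≤
      ((|Z true true a a s t u v| + |Z true true a z s t u v|) +
        (|Z true true z a s t u v| + |Z true true z z s t u v|)) +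
      ((|Z true false a a s t u v| + |Z true false a z s t u v|) +
        (|Z true false z a s t u v| + |Z true false z z s t u v|)) +
      (((|Z false true a a s t u v| + |Z false true a z s t u v|) +
        (|Z false true z a s t u v| + |Z false true z z s t u v|)) +
      ((|Z false false a a s t u v| + |Z false false a z s t u v|) +
        (|Z false false z a s t u v| + |Z false false z z s t u v|))) := by
    intro s t u v
    have e : 𝔼 q, (ν s q + g s q) * (ν t q + g t q) *
      ((pp ν g a u q - pp ν g z u q) * (pp ν g a v q - pp ν g z v q)) =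
      ((Z true true a a s t u v - Z true true a z s t u v) -
        (Z true true z a s t u v - Z true true z z s t u v)) +
      ((Z true false a a s t u v - Z true false a z s t u v) -
        (Z true false z a s t u v - Z true false z z s t u v)) +
      (((Z false true a a s t u v - Z false true a z s t u v) -
        (Z false true z a s t u v - Z false true z z s t u v)) +
      ((Z false false a a s t u v - Z false false a z s t u v) -
        (Z false false z a s t u v - Z false false z z s t u v))) := by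
      simp only [hZ, pt_true, pt_false]
      have e1 : ∀ q, (ν s q + g s q) * (ν t q + g t q) *
        ((pp ν g a u q - pp ν g z u q) * (pp ν g a v q - pp ν g z v q)) =
        ((ν s q * ν t q * (pp ν g a u q * pp ν g a v q) - ν s q * ν t q * (pp ν g a u q * pp ν g z v q)) -
        (ν s q * ν t q * (pp ν g z u q * pp ν g a v q) - ν s q * ν t q * (pp ν g z u q * pp ν g z v q))) +
        ((ν s q * g t q * (pp ν g a u q * pp ν g a v q) - ν s q * g t q * (pp ν g a u q * pp ν g z v q)) -
        (ν s q * g t q * (pp ν g z u q * pp ν g a v q) - ν s q * g t q * (pp ν g z u q * pp ν g z v q))) +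
        (((g s q * ν t q * (pp ν g a u q * pp ν g a v q) - g s q * ν t q * (pp ν g a u q * pp ν g z v q)) -
        (g s q * ν t q * (pp ν g z u q * pp ν g a v q) - g s q * ν t q * (pp ν g z u q * pp ν g z v q))) +
        ((g s q * g t q * (pp ν g a u q * pp ν g a v q) - g s q * g t q * (pp ν g a u q * pp ν g z v q)) -
        (g s q * g t q * (pp ν g z u q * pp ν g a v q) - g s q * g t q * (pp ν g z u q * pp ν g z v q)))) := by
        intro q; ring
      simp only [e1, expect_add_distrib, expect_sub_distrib]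
      ring
    rw [e]
    refine (abs_add_le _ _).trans (add_le_add ((abs_add_le _ _).trans (add_le_add ?_ ?_))
      ((abs_add_le _ _).trans (add_le_add ?_ ?_)))
    all_goals
      refine (abs_sub _ _).trans (add_le_add ((abs_sub _ _).trans le_rfl) ((abs_sub _ _).trans le_rfl))
  refine (expect_le_expect fun s _ => expect_le_expect fun t _ => expect_le_expect fun u _ =>
    expect_le_expect fun v _ => key s t u v).trans ?_
  simp only [expect_add_distrib]
  have := hb
  linarith [hb true true a a, hb true true a z, hb true true z a, hb true true z z,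
    hb true false a a, hb true false a z, hb true false z a, hb true false z z,
    hb false true a a, hb false true a z, hb false true z a, hb false true z z,
    hb false false a a, hb false false a z, hb false false z a, hb false false z z]

end Pool.Agent.NH16.DL
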