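import Pool.Agent.NH16.DL.A2

set_option autoImplicit false
set_option linter.unusedSectionVars false

/-!
# A counting inequality: the theorem
-/

namespace Pool.Agent.NH16.DL

open Finset
open scoped BigOperators

variable {ρ κ : Type*} [Fintype ρ] [Fintype κ]

lemma MB_two {ν g : ρ → κ → ℝ} {B : ℝ} (h : MB ν g B 2) (b b' : Bool) :
    𝔼 s, 𝔼 t, 𝔼 q, pt ν g b s q * pt ν g b' t q ≤ B := by
  have h1 := h ![b, b']
  rw [exp_cons] at h1
  refine le_trans (le_of_eq ?_) h1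
  refine expect_congr rfl fun s _ => ?_
  rw [exp_cons]
  refine expect_congr rfl fun t _ => ?_
  have e : ∀ u : Fin 0 → ρ, 𝔼 q, pp ν g ![b, b'] (Fin.cons s (Fin.cons t u)) q =
      𝔼 q, pt ν g b s q * pt ν g b' t q := by
    intro u
    refine expect_congr rfl fun q _ => ?_
    unfold pp
    rw [Fin.prod_univ_two]
    rfl
  simp only [e]
  rw [Fintype.expect_const]

lemma exp_four {ν g : ρ → κ → ℝ} {B : ℝ} (h : MB ν g B 2) :
    𝔼 s, 𝔼 t, 𝔼 q, (ν s q + g s q) * (ν t q + g t q) ≤ 4 * B := by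
  have e : ∀ s t q, (ν s q + g s q) * (ν t q + g t q) =
      pt ν g true s q * pt ν g true t q + pt ν g true s q * pt ν g false t q +
      (pt ν g false s q * pt ν g true t q + pt ν g false s q * pt ν g false t q) := by
    intro s t q
    rw [pt_true, pt_false]
    ring
  simp only [e, expect_add_distrib]
  linarith [MB_two h true true, MB_two h true false, MB_two h false true, MB_two h false false]

lemma pp_abs_le {f F ν g : ρ → κ → ℝ} {K : ℝ} (hf : ∀ s q, |f s q| ≤ K * ν s q)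
    (hF : ∀ s q, |F s q| ≤ K * g s q) {n : ℕ} (a : Fin n → Bool) (u : Fin n → ρ) (q : κ) :
    |pp f F a u q| ≤ K ^ n * pp ν g a u q := by
  unfold pp
  rw [abs_prod]
  have e : K ^ n * ∏ i, pt ν g (a i) (u i) q = ∏ i, K * pt ν g (a i) (u i) q := by
    rw [prod_mul_distrib, prod_const, card_univ, Fintype.card_fin]
  rw [e]
  refine prod_le_prod (fun i _ => abs_nonneg _) fun i _ => ?_
  unfold pt
  split_ifs
  · exact hf _ _
  · exact hF _ _

variable [Nonempty ρ] [Nonempty κ]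

/-- one step of the counting inequality -/
theorem one_step {f F ν g : ρ → κ → ℝ} {K A B τ ε : ℝ} {n : ℕ}
    (hK : 0 ≤ K) (hf : ∀ s q, |f s q| ≤ K * ν s q) (hF : ∀ s q, |F s q| ≤ K * g s q)
    (hν : ∀ s q, 0 ≤ ν s q) (hg : ∀ s q, 0 ≤ g s q) (hgA : ∀ s q, g s q ≤ A)
    (hB : 0 ≤ B) (hτ : 0 ≤ τ)
    (hMB : MB ν g B n) (hMB2 : MB ν g B 2) (hPR : PR ν g τ (n + n + 1 + 1))
    (hcut : ∀ b : ρ → ℝ, (∀ s, |b s| ≤ 1) → 𝔼 q, (𝔼 s, b s * (f s q - F s q)) ^ 2 ≤ ε)
    (a : Fin n → Bool) :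
    𝔼 s, 𝔼 u, |𝔼 q, (f s q - F s q) * pp f F a u q| ≤
      K ^ n * Real.sqrt (B * (A ^ n * ε + 8 * K ^ 2 * Real.sqrt (B * τ))) := by
  classical
  set h : ρ → κ → ℝ := fun s q => f s q - F s q with hh
  set X : ρ → (Fin n → ρ) → ℝ := fun s u => 𝔼 q, h s q * pp f F a u q with hX
  set c : (Fin n → ρ) → ρ → ℝ := fun u s => if 0 ≤ X s u then 1 else -1 with hc
  have hc1 : ∀ u s, |c u s| ≤ 1 := by
    intro u s
    simp only [hc]
    split_ifs <;> simp
  have hcX : ∀ u s, |X s u| = c u s * X s u := by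
    intro u s
    simp only [hc]
    split_ifs with h1
    · rw [abs_of_nonneg h1, one_mul]
    · rw [abs_of_neg (not_le.1 h1)]; ring
  have e1 : 𝔼 s, 𝔼 u, |𝔼 q, (f s q - F s q) * pp f F a u q| =
      𝔼 u, 𝔼 q, pp f F a u q * 𝔼 s, c u s * h s q := by
    rw [exp_comm]
    refine expect_congr rfl fun u _ => ?_
    have : ∀ s, |𝔼 q, (f s q - F s q) * pp f F a u q| = 𝔼 q, pp f F a u q * (c u s * h s q) := by
      intro s
      have := hcX u s
      simp only [hX] at this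
      rw [show (fun q => (f s q - F s q) * pp f F a u q) = fun q => h s q * pp f F a u q from rfl,
        this, mul_expect]
      exact expect_congr rfl fun q _ => by ring
    simp only [this]
    rw [exp_comm]
    refine expect_congr rfl fun q _ => ?_
    rw [mul_expect]
  have hLnn : 0 ≤ 𝔼 s, 𝔼 u, |𝔼 q, (f s q - F s q) * pp f F a u q| :=
    expect_nonneg fun s _ => expect_nonneg fun u _ => abs_nonneg _
  have hA : 0 ≤ A := by
    obtain ⟨s⟩ := ‹Nonempty ρ›
    obtain ⟨q⟩ := ‹Nonempty κ›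
    exact (hg s q).trans (hgA s q)
  -- Cauchy-Schwarz
  have h1 : (𝔼 u, 𝔼 q, pp f F a u q * 𝔼 s, c u s * h s q) ^ 2 ≤
      (𝔼 u, 𝔼 q, K ^ n * pp ν g a u q) *
        𝔼 u, 𝔼 q, K ^ n * pp ν g a u q * (𝔼 s, c u s * h s q) ^ 2 :=
    cs_weight2 _ _ _ fun u q => pp_abs_le hf hF a u q
  have h2 : 𝔼 u : Fin n → ρ, 𝔼 q, K ^ n * pp ν g a u q ≤ K ^ n * B := by
    simp only [← mul_expect]
    exact mul_le_mul_of_nonneg_left (hMB a) (pow_nonneg hK n)
  -- the second factor
  have h3 : 𝔼 u : Fin n → ρ, 𝔼 q, pp ν g (fun _ => false) u q * (𝔼 s, c u s * h s q) ^ 2 ≤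
      A ^ n * ε := by
    have k1 : ∀ u : Fin n → ρ, 𝔼 q, pp ν g (fun _ => false) u q * (𝔼 s, c u s * h s q) ^ 2 ≤
        A ^ n * ε := by
      intro u
      calc _ ≤ 𝔼 q, A ^ n * (𝔼 s, c u s * h s q) ^ 2 := by
            refine expect_le_expect fun q _ => mul_le_mul_of_nonneg_right ?_ (sq_nonneg _)
            unfold pp
            calc ∏ i, pt ν g false (u i) q ≤ ∏ _i : Fin n, A :=
                  prod_le_prod (fun i _ => hg _ _) fun i _ => hgA _ _
              _ = A ^ n := by rw [prod_const, card_univ, Fintype.card_fin]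
        _ = A ^ n * 𝔼 q, (𝔼 s, c u s * h s q) ^ 2 := by rw [mul_expect]
        _ ≤ A ^ n * ε := mul_le_mul_of_nonneg_left (hcut (c u) (hc1 u)) (pow_nonneg hA n)
    exact expect_le univ_nonempty fun u _ => k1 u
  have h4 : 𝔼 u : Fin n → ρ, 𝔼 q, (pp ν g a u q - pp ν g (fun _ => false) u q) *
      (𝔼 s, c u s * h s q) ^ 2 ≤ 8 * K ^ 2 * Real.sqrt (B * τ) := by
    have hμ : ∀ s q, |h s q| ≤ K * (ν s q + g s q) := by
      intro s q
      simp only [hh]
      refine (abs_sub _ _).trans ?_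
      rw [mul_add]
      exact add_le_add (hf s q) (hF s q)
    have k1 := replace (fun u q => pp ν g a u q - pp ν g (fun _ => false) u q) c h
      (fun s q => K * (ν s q + g s q)) hc1 hμ
    have k2 : 𝔼 s, 𝔼 t, 𝔼 q, K * (ν s q + g s q) * (K * (ν t q + g t q)) ≤ K ^ 2 * (4 * B) := by
      have e : ∀ s t q, K * (ν s q + g s q) * (K * (ν t q + g t q)) =
          K ^ 2 * ((ν s q + g s q) * (ν t q + g t q)) := by intros; ring
      simp only [e, ← mul_expect]
      exact mul_le_mul_of_nonneg_left (exp_four hMB2) (sq_nonneg K)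
    have k3 : 𝔼 s, 𝔼 t, 𝔼 u, 𝔼 v, |𝔼 q, K * (ν s q + g s q) * (K * (ν t q + g t q)) *
        ((pp ν g a u q - pp ν g (fun _ => false) u q) * (pp ν g a v q - pp ν g (fun _ => false) v q))| ≤
        K ^ 2 * (16 * τ) := by
      have e : ∀ s t u v, |𝔼 q, K * (ν s q + g s q) * (K * (ν t q + g t q)) *
        ((pp ν g a u q - pp ν g (fun _ => false) u q) * (pp ν g a v q - pp ν g (fun _ => false) v q))| =
          K ^ 2 * |𝔼 q, (ν s q + g s q) * (ν t q + g t q) *
        ((pp ν g a u q - pp ν g (fun _ => false) u q) * (pp ν g a v q - pp ν g (fun _ => false) v q))| := by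
        intro s t u v
        rw [show K ^ 2 * |𝔼 q, (ν s q + g s q) * (ν t q + g t q) *
          ((pp ν g a u q - pp ν g (fun _ => false) u q) *
            (pp ν g a v q - pp ν g (fun _ => false) v q))| = |K ^ 2 * 𝔼 q, (ν s q + g s q) *
          (ν t q + g t q) * ((pp ν g a u q - pp ν g (fun _ => false) u q) *
            (pp ν g a v q - pp ν g (fun _ => false) v q))| by
          rw [abs_mul, abs_of_nonneg (sq_nonneg K)], mul_expect]
        congr 1
        exact expect_congr rfl fun q _ => by ring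
      simp only [e, ← mul_expect]
      exact mul_le_mul_of_nonneg_left (sixteen hPR a) (sq_nonneg K)
    have k4 : (𝔼 u : Fin n → ρ, 𝔼 q, (pp ν g a u q - pp ν g (fun _ => false) u q) *
      (𝔼 s, c u s * h s q) ^ 2) ^ 2 ≤ (8 * K ^ 2 * Real.sqrt (B * τ)) ^ 2 := by
      refine k1.trans ?_
      calc _ ≤ (K ^ 2 * (4 * B)) * (K ^ 2 * (16 * τ)) := by
            refine mul_le_mul k2 k3 ?_ (by positivity)
            exact expect_nonneg fun s _ => expect_nonneg fun t _ => expect_nonneg fun u _ =>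
              expect_nonneg fun v _ => abs_nonneg _
        _ = (8 * K ^ 2) ^ 2 * (B * τ) := by ring
        _ = _ := by rw [mul_pow _ (Real.sqrt (B * τ)), Real.sq_sqrt (mul_nonneg hB hτ)]
    exact (abs_le_of_sq_le_sq' k4 (by positivity)).2
  have h5 : 𝔼 u : Fin n → ρ, 𝔼 q, K ^ n * pp ν g a u q * (𝔼 s, c u s * h s q) ^ 2 ≤
      K ^ n * (A ^ n * ε + 8 * K ^ 2 * Real.sqrt (B * τ)) := by
    have e : ∀ (u : Fin n → ρ) q, K ^ n * pp ν g a u q * (𝔼 s, c u s * h s q) ^ 2 =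
        K ^ n * (pp ν g (fun _ => false) u q * (𝔼 s, c u s * h s q) ^ 2 +
          (pp ν g a u q - pp ν g (fun _ => false) u q) * (𝔼 s, c u s * h s q) ^ 2) := by
      intros; ring
    simp only [e, ← mul_expect, expect_add_distrib]
    exact mul_le_mul_of_nonneg_left (add_le_add h3 h4) (pow_nonneg hK n)
  have h6 : 0 ≤ 𝔼 u : Fin n → ρ, 𝔼 q, K ^ n * pp ν g a u q * (𝔼 s, c u s * h s q) ^ 2 :=
    expect_nonneg fun u _ => expect_nonneg fun q _ =>
      mul_nonneg (mul_nonneg (pow_nonneg hK n) (pp_nonneg hν hg a u q)) (sq_nonneg _)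
  have h7 : (𝔼 s, 𝔼 u, |𝔼 q, (f s q - F s q) * pp f F a u q|) ^ 2 ≤
      (K ^ n) ^ 2 * (B * (A ^ n * ε + 8 * K ^ 2 * Real.sqrt (B * τ))) := by
    rw [e1]
    refine h1.trans ?_
    calc _ ≤ (K ^ n * B) * (K ^ n * (A ^ n * ε + 8 * K ^ 2 * Real.sqrt (B * τ))) :=
          mul_le_mul h2 h5 h6 (by positivity)
      _ = _ := by ring
  have h8 := Real.sqrt_le_sqrt h7
  rw [Real.sqrt_sq hLnn, Real.sqrt_mul (sq_nonneg _), Real.sqrt_sq (pow_nonneg hK n)] at h8
  exact h8

end Pool.Agent.NH16.DL
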