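import Pool.Agent.NH16.DL.A4

set_option autoImplicit false
set_option linter.unusedSectionVars false

/-!
# From the averages over tuples of one length to the equidistribution over almost all `q`
-/

namespace Pool.Agent.NH16.DL

open Finset
open scoped BigOperators

lemma pow_taylor (a t : ℝ) (ha : 0 ≤ a) (ht : 0 ≤ t) (n : ℕ) :
    a ^ n * (t - a) ^ 2 ≤ t ^ (n + 2) - a ^ (n + 2) - (n + 2) * a ^ (n + 1) * (t - a) := by
  have h : ∀ n : ℕ, a ^ n * (t - a) ^ 2 ≤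
      t ^ (n + 2) - a ^ (n + 2) - (n + 2) * a ^ (n + 1) * (t - a) := by
    intro n
    induction n with
    | zero => apply le_of_eq; push_cast; ring
    | succ n ih =>
      have h0 : 0 ≤ t ^ (n + 2) - a ^ (n + 2) - (n + 2) * a ^ (n + 1) * (t - a) :=
        le_trans (by positivity) ih
      have e : t ^ (n + 1 + 2) - a ^ (n + 1 + 2) - ((n + 1 : ℕ) + 2) * a ^ (n + 1 + 1) * (t - a) =
          t * (t ^ (n + 2) - a ^ (n + 2) - (n + 2) * a ^ (n + 1) * (t - a)) +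
            (n + 2) * (a ^ (n + 1) * (t - a) ^ 2) := by
        push_cast; ring
      rw [e]
      have h1 : 0 ≤ t * (t ^ (n + 2) - a ^ (n + 2) - (n + 2) * a ^ (n + 1) * (t - a)) :=
        mul_nonneg ht h0
      have h2 : 0 ≤ a ^ (n + 1) * (t - a) ^ 2 := by positivity
      nlinarith [h2, (Nat.cast_nonneg n : (0 : ℝ) ≤ n)]
  exact h n

lemma pow_diff (a b : ℝ) (ha : 0 ≤ a) (hb : 0 ≤ b) (n : ℕ) :
    |a ^ n - b ^ n| * b ^ 2 ≤ n * |b - a| * (b + a) ^ (n + 1) := by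
  rcases n with _ | n
  · simp
  have h1 : |a ^ (n + 1) - b ^ (n + 1)| ≤ (n + 1) * |b - a| * (b + a) ^ n := by
    have key : ∀ n : ℕ, |a ^ (n + 1) - b ^ (n + 1)| ≤ (n + 1) * |b - a| * (b + a) ^ n := by
      intro n
      induction n with
      | zero => simp [abs_sub_comm]
      | succ n ih =>
        have e : a ^ (n + 1 + 1) - b ^ (n + 1 + 1) = a * (a ^ (n + 1) - b ^ (n + 1)) -
          b ^ (n + 1) * (b - a) := by ring
        rw [e]
        refine (abs_sub _ _).trans ?_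
        rw [abs_mul, abs_mul, abs_of_nonneg ha, abs_of_nonneg (pow_nonneg hb _)]
        have k1 : a * |a ^ (n + 1) - b ^ (n + 1)| ≤ (b + a) * ((n + 1) * |b - a| * (b + a) ^ n) :=
          mul_le_mul (by linarith) ih (abs_nonneg _) (by linarith)
        have k2 : b ^ (n + 1) * |b - a| ≤ (b + a) ^ (n + 1) * |b - a| :=
          mul_le_mul_of_nonneg_right (pow_le_pow_left₀ hb (by linarith) _) (abs_nonneg _)
        calc _ ≤ (b + a) * ((n + 1) * |b - a| * (b + a) ^ n) + (b + a) ^ (n + 1) * |b - a| :=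
              add_le_add k1 k2
          _ = _ := by push_cast; ring
    exact key n
  have h2 : b ^ 2 ≤ (b + a) ^ 2 := pow_le_pow_left₀ hb (by linarith) 2
  calc _ ≤ ((n + 1) * |b - a| * (b + a) ^ n) * (b + a) ^ 2 :=
        mul_le_mul h1 h2 (sq_nonneg _) (by positivity)
    _ = _ := by push_cast; ring

variable {ρ κ γ : Type*} [Fintype ρ] [Fintype κ]

lemma exp_pow_tuple (f : ρ → κ → ℝ) (n : ℕ) :
    𝔼 q, (𝔼 s, f s q) ^ n = 𝔼 r : Fin n → ρ, 𝔼 q, ∏ i, f (r i) q := by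
  have : ∀ q, (𝔼 s, f s q) ^ n = 𝔼 r : Fin n → ρ, ∏ i, f (r i) q := by
    intro q
    rw [expect_pow, Fintype.piFinset_univ]
  simp only [this]
  exact exp_comm _

lemma exp_two_tuple (f : ρ → κ → ℝ) (b : ρ → ℝ) (n : ℕ) :
    𝔼 q, (𝔼 s, f s q) ^ n * (𝔼 s, b s * f s q) ^ 2 =
      𝔼 r : Fin (n + 2) → ρ, b (r 0) * b (r 1) * 𝔼 q, ∏ i, f (r i) q := by
  have : ∀ q, (𝔼 s, f s q) ^ n * (𝔼 s, b s * f s q) ^ 2 =
      𝔼 r : Fin (n + 2) → ρ, b (r 0) * b (r 1) * ∏ i, f (r i) q := by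
    intro q
    rw [exp_cons]
    have e1 : ∀ s, 𝔼 u : Fin (n + 1) → ρ, b ((Fin.cons s u : Fin (n + 2) → ρ) 0) *
        b ((Fin.cons s u : Fin (n + 2) → ρ) 1) * ∏ i, f ((Fin.cons s u : Fin (n + 2) → ρ) i) q =
        b s * f s q * ((𝔼 t, b t * f t q) * (𝔼 s, f s q) ^ n) := by
      intro s
      rw [exp_cons]
      have e2 : ∀ t (u : Fin n → ρ), b ((Fin.cons s (Fin.cons t u : Fin (n + 1) → ρ) : Fin (n + 2) → ρ) 0) *
        b ((Fin.cons s (Fin.cons t u : Fin (n + 1) → ρ) : Fin (n + 2) → ρ) 1) *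
          ∏ i, f ((Fin.cons s (Fin.cons t u : Fin (n + 1) → ρ) : Fin (n + 2) → ρ) i) q =
          b s * f s q * (b t * f t q * ∏ i, f (u i) q) := by
        intro t u
        rw [Fin.prod_univ_succ, Fin.prod_univ_succ]
        simp only [Fin.cons_zero, Fin.cons_succ]
        have : ((Fin.cons s (Fin.cons t u : Fin (n + 1) → ρ) : Fin (n + 2) → ρ) 1) = t := rfl
        rw [this]
        ring
      simp only [e2, ← mul_expect]
      congr 1
      rw [expect_pow, Fintype.piFinset_univ, ← expect_mul]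
    simp only [e1]
    rw [← expect_mul]
    ring
  simp only [this]
  rw [exp_comm]
  exact expect_congr rfl fun r _ => by rw [mul_expect]

variable [Nonempty ρ] [Nonempty κ]

/-- the sum over `s` is close to its model -/
theorem mean_square {f : ρ → κ → ℝ} (π : κ → γ) (g' : ρ → γ → ℝ) {A δ ε : ℝ} {n : ℕ}
    (hf : ∀ s q, 0 ≤ f s q) (hg : ∀ s z, 0 ≤ g' s z) (hgA : ∀ s z, g' s z ≤ A) (hA : 0 < A)
    (hG : ∀ q, 1 / 2 ≤ 𝔼 s, g' s (π q))
    (hSW : ∀ ψ : γ → ℝ, (∀ z, |ψ z| ≤ 1) → ∀ b : ρ → ℝ, (∀ s, |b s| ≤ 1) →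
      |𝔼 q, ψ (π q) * 𝔼 s, b s * (f s q - g' s (π q))| ≤ δ)
    (hF : 𝔼 r : Fin (n + 2) → ρ, |𝔼 q, ∏ i, f (r i) q - 𝔼 q, ∏ i, g' (r i) (π q)| ≤ ε) :
    𝔼 q, (𝔼 s, f s q - 𝔼 s, g' s (π q)) ^ 2 ≤ 2 ^ n * (ε + (n + 2) * A ^ (n + 1) * δ) := by
  set S : κ → ℝ := fun q => 𝔼 s, f s q with hS
  set G : κ → ℝ := fun q => 𝔼 s, g' s (π q) with hGd
  have hS0 : ∀ q, 0 ≤ S q := fun q => expect_nonneg fun s _ => hf s q
  have hG0 : ∀ q, 0 ≤ G q := fun q => expect_nonneg fun s _ => hg s _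
  have h1 : ∀ q, (S q - G q) ^ 2 ≤ 2 ^ n * (S q ^ (n + 2) - G q ^ (n + 2) -
      (n + 2) * G q ^ (n + 1) * (S q - G q)) := by
    intro q
    have k1 := pow_taylor (G q) (S q) (hG0 q) (hS0 q) n
    have k2 : 1 ≤ 2 ^ n * G q ^ n := by
      rw [← mul_pow]
      exact one_le_pow₀ (by linarith [hG q])
    calc (S q - G q) ^ 2 ≤ (2 ^ n * G q ^ n) * (S q - G q) ^ 2 := by
          nlinarith [sq_nonneg (S q - G q)]
      _ = 2 ^ n * (G q ^ n * (S q - G q) ^ 2) := by ring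
      _ ≤ _ := mul_le_mul_of_nonneg_left k1 (by positivity)
  have h2 : 𝔼 q, S q ^ (n + 2) - 𝔼 q, G q ^ (n + 2) ≤ ε := by
    simp only [hS, hGd]
    rw [exp_pow_tuple f (n + 2), exp_pow_tuple (fun s q => g' s (π q)) (n + 2),
      ← expect_sub_distrib]
    exact (expect_le_expect fun r _ => le_abs_self _).trans hF
  have h3 : |𝔼 q, G q ^ (n + 1) * (S q - G q)| ≤ A ^ (n + 1) * δ := by
    have k := hSW (fun z => (𝔼 s, g' s z) ^ (n + 1) / A ^ (n + 1)) (fun z => ?_) (fun _ => 1)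
      (fun s => by simp)
    · have e : 𝔼 q, (𝔼 s, g' s (π q)) ^ (n + 1) / A ^ (n + 1) * 𝔼 s, 1 * (f s q - g' s (π q)) =
          (𝔼 q, G q ^ (n + 1) * (S q - G q)) / A ^ (n + 1) := by
        rw [expect_div]
        refine expect_congr rfl fun q _ => ?_
        simp only [one_mul, expect_sub_distrib, hS, hGd]
        ring
      rw [e, abs_div, abs_of_pos (pow_pos hA (n + 1)), div_le_iff₀ (pow_pos hA _)] at k
      linarith
    · have k0 : 0 ≤ 𝔼 s, g' s z := expect_nonneg fun s _ => hg s z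
      have k1 : 𝔼 s, g' s z ≤ A := expect_le univ_nonempty fun s _ => hgA s z
      rw [abs_of_nonneg (by positivity), div_le_one (pow_pos hA _)]
      exact pow_le_pow_left₀ k0 k1 _
  calc 𝔼 q, (S q - G q) ^ 2 ≤ 𝔼 q, 2 ^ n * (S q ^ (n + 2) - G q ^ (n + 2) -
      (n + 2) * G q ^ (n + 1) * (S q - G q)) := expect_le_expect fun q _ => h1 q
    _ = 2 ^ n * (𝔼 q, S q ^ (n + 2) - 𝔼 q, G q ^ (n + 2) -
        (n + 2) * 𝔼 q, G q ^ (n + 1) * (S q - G q)) := by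
        rw [← mul_expect, expect_sub_distrib, expect_sub_distrib, mul_expect]
        congr 2
        exact expect_congr rfl fun q _ => by ring
    _ ≤ _ := by
        refine mul_le_mul_of_nonneg_left ?_ (by positivity)
        have k := neg_abs_le (𝔼 q, G q ^ (n + 1) * (S q - G q))
        have : (0 : ℝ) ≤ n + 2 := by positivity
        nlinarith

/-- all weighted sums over `s` are close to their models -/
theorem power_cut {f : ρ → κ → ℝ} (π : κ → γ) (g' : ρ → γ → ℝ) {A δ ε M : ℝ} {n : ℕ}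
    (hf : ∀ s q, 0 ≤ f s q) (hg : ∀ s z, 0 ≤ g' s z) (hgA : ∀ s z, g' s z ≤ A) (hA : 0 < A)
    (hG : ∀ q, 1 / 2 ≤ 𝔼 s, g' s (π q))
    (hSW : ∀ ψ : γ → ℝ, (∀ z, |ψ z| ≤ 1) → ∀ b : ρ → ℝ, (∀ s, |b s| ≤ 1) →
      |𝔼 q, ψ (π q) * 𝔼 s, b s * (f s q - g' s (π q))| ≤ δ)
    (hF : 𝔼 r : Fin (n + 2) → ρ, |𝔼 q, ∏ i, f (r i) q - 𝔼 q, ∏ i, g' (r i) (π q)| ≤ ε)
    (hM : 𝔼 q, (𝔼 s, f s q + 𝔼 s, g' s (π q)) ^ (2 * n + 2) ≤ M) (hε : 0 ≤ ε) (hδ : 0 ≤ δ)
    (b : ρ → ℝ) (hb : ∀ s, |b s| ≤ 1) :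
    𝔼 q, (𝔼 s, b s * (f s q - g' s (π q))) ^ 2 ≤
      2 ^ n * (ε + 2 * A ^ (n + 1) * δ +
        n * Real.sqrt (2 ^ n * (ε + (n + 2) * A ^ (n + 1) * δ) * M)) := by
  set S : κ → ℝ := fun q => 𝔼 s, f s q with hS
  set G : κ → ℝ := fun q => 𝔼 s, g' s (π q) with hGd
  set Sb : κ → ℝ := fun q => 𝔼 s, b s * f s q with hSb
  set Gb : κ → ℝ := fun q => 𝔼 s, b s * g' s (π q) with hGb
  have hS0 : ∀ q, 0 ≤ S q := fun q => expect_nonneg fun s _ => hf s q
  have hG0 : ∀ q, 0 ≤ G q := fun q => expect_nonneg fun s _ => hg s _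
  have hD : ∀ q, 𝔼 s, b s * (f s q - g' s (π q)) = Sb q - Gb q := by
    intro q
    simp only [mul_sub, expect_sub_distrib, hSb, hGb]
  have hSbS : ∀ q, |Sb q| ≤ S q := by
    intro q
    refine (abs_expect_le _ _).trans (expect_le_expect fun s _ => ?_)
    rw [abs_mul, abs_of_nonneg (hf s q)]
    exact (mul_le_mul_of_nonneg_right (hb s) (hf s q)).trans (le_of_eq (one_mul _))
  -- the pieces
  have h1 : ∀ q, (Sb q - Gb q) ^ 2 ≤ 2 ^ n * (G q ^ n * (Sb q - Gb q) ^ 2) := by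
    intro q
    have k2 : 1 ≤ 2 ^ n * G q ^ n := by
      rw [← mul_pow]
      exact one_le_pow₀ (by linarith [hG q])
    calc (Sb q - Gb q) ^ 2 ≤ (2 ^ n * G q ^ n) * (Sb q - Gb q) ^ 2 := by
          nlinarith [sq_nonneg (Sb q - Gb q)]
      _ = _ := by ring
  have h2 : 𝔼 q, S q ^ n * Sb q ^ 2 - 𝔼 q, G q ^ n * Gb q ^ 2 ≤ ε := by
    simp only [hS, hGd, hSb, hGb]
    rw [exp_two_tuple f b n, exp_two_tuple (fun s q => g' s (π q)) b n, ← expect_sub_distrib]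
    refine (expect_le_expect fun r _ => ?_).trans hF
    rw [← mul_sub]
    refine (le_abs_self _).trans ?_
    rw [abs_mul, abs_mul]
    have k0 : |b (r 0)| * |b (r 1)| ≤ 1 := mul_le_one₀ (hb _) (abs_nonneg _) (hb _)
    exact (mul_le_mul_of_nonneg_right k0 (abs_nonneg _)).trans (le_of_eq (one_mul _))
  have h3 : |𝔼 q, G q ^ n * Gb q * (Sb q - Gb q)| ≤ A ^ (n + 1) * δ := by
    have k := hSW (fun z => (𝔼 s, g' s z) ^ n * (𝔼 s, b s * g' s z) / A ^ (n + 1)) (fun z => ?_) b hb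
    · have e : 𝔼 q, (𝔼 s, g' s (π q)) ^ n * (𝔼 s, b s * g' s (π q)) / A ^ (n + 1) *
          𝔼 s, b s * (f s q - g' s (π q)) =
          (𝔼 q, G q ^ n * Gb q * (Sb q - Gb q)) / A ^ (n + 1) := by
        rw [expect_div]
        refine expect_congr rfl fun q _ => ?_
        rw [hD]
        ring
      rw [e, abs_div, abs_of_pos (pow_pos hA (n + 1)), div_le_iff₀ (pow_pos hA _)] at k
      linarith
    · have k0 : 0 ≤ 𝔼 s, g' s z := expect_nonneg fun s _ => hg s z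
      have k1 : 𝔼 s, g' s z ≤ A := expect_le univ_nonempty fun s _ => hgA s z
      have k2 : |𝔼 s, b s * g' s z| ≤ A := by
        refine (abs_expect_le _ _).trans (expect_le univ_nonempty fun s _ => ?_)
        rw [abs_mul, abs_of_nonneg (hg s z)]
        exact (mul_le_mul (hb s) (hgA s z) (hg s z) zero_le_one).trans (le_of_eq (one_mul _))
      rw [abs_div, abs_of_pos (pow_pos hA (n + 1)), div_le_one (pow_pos hA _), abs_mul,
        abs_of_nonneg (pow_nonneg k0 n), pow_succ]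
      exact mul_le_mul (pow_le_pow_left₀ k0 k1 _) k2 (abs_nonneg _) (pow_nonneg hA.le n)
  have h4 : 𝔼 q, (G q ^ n - S q ^ n) * Sb q ^ 2 ≤
      n * Real.sqrt (2 ^ n * (ε + (n + 2) * A ^ (n + 1) * δ) * M) := by
    have k1 : ∀ q, (G q ^ n - S q ^ n) * Sb q ^ 2 ≤ n * (|S q - G q| * (S q + G q) ^ (n + 1)) := by
      intro q
      have a1 := pow_diff (G q) (S q) (hG0 q) (hS0 q) n
      have a2 : Sb q ^ 2 ≤ S q ^ 2 := by
        rw [← sq_abs (Sb q)]
        exact pow_le_pow_left₀ (abs_nonneg _) (hSbS q) 2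
      calc (G q ^ n - S q ^ n) * Sb q ^ 2 ≤ |G q ^ n - S q ^ n| * S q ^ 2 :=
            (mul_le_mul_of_nonneg_right (le_abs_self _) (sq_nonneg _)).trans
              (mul_le_mul_of_nonneg_left a2 (abs_nonneg _))
        _ ≤ _ := a1.trans (le_of_eq (by ring))
    have k2 : (𝔼 q, |S q - G q| * (S q + G q) ^ (n + 1)) ^ 2 ≤
        2 ^ n * (ε + (n + 2) * A ^ (n + 1) * δ) * M := by
      refine (expect_mul_sq_le_sq_mul_sq _ _ _).trans ?_
      refine mul_le_mul ?_ ?_ (expect_nonneg fun q _ => sq_nonneg _) (by positivity)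
      · simp only [sq_abs]
        exact mean_square π g' hf hg hgA hA hG hSW hF
      · refine le_trans (le_of_eq ?_) hM
        exact expect_congr rfl fun q _ => by rw [← pow_mul]; congr 1; ring
    have k3 : 𝔼 q, |S q - G q| * (S q + G q) ^ (n + 1) ≤
        Real.sqrt (2 ^ n * (ε + (n + 2) * A ^ (n + 1) * δ) * M) := Real.le_sqrt_of_sq_le k2
    calc _ ≤ 𝔼 q, n * (|S q - G q| * (S q + G q) ^ (n + 1)) := expect_le_expect fun q _ => k1 q
      _ = n * 𝔼 q, (|S q - G q| * (S q + G q) ^ (n + 1)) := by rw [mul_expect]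
      _ ≤ _ := mul_le_mul_of_nonneg_left k3 (Nat.cast_nonneg n)
  calc 𝔼 q, (𝔼 s, b s * (f s q - g' s (π q))) ^ 2 = 𝔼 q, (Sb q - Gb q) ^ 2 :=
        expect_congr rfl fun q _ => by rw [hD]
    _ ≤ 𝔼 q, 2 ^ n * (G q ^ n * (Sb q - Gb q) ^ 2) := expect_le_expect fun q _ => h1 q
    _ = 2 ^ n * ((𝔼 q, S q ^ n * Sb q ^ 2 - 𝔼 q, G q ^ n * Gb q ^ 2) -
        2 * 𝔼 q, G q ^ n * Gb q * (Sb q - Gb q) + 𝔼 q, (G q ^ n - S q ^ n) * Sb q ^ 2) := by
        rw [← mul_expect, mul_expect (a := (2:ℝ)), ← expect_sub_distrib, ← expect_sub_distrib,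
          ← expect_add_distrib]
        congr 1
        exact expect_congr rfl fun q _ => by ring
    _ ≤ _ := by
        refine mul_le_mul_of_nonneg_left ?_ (by positivity)
        have k := neg_abs_le (𝔼 q, G q ^ n * Gb q * (Sb q - Gb q))
        linarith

end Pool.Agent.NH16.DL
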