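import Pool.Agent.NH16.DL.A5

set_option autoImplicit false
set_option linter.unusedSectionVars false

/-!
# Averages of products over the prime factors
-/

namespace Pool.Agent.NH16.DL

open Finset
open scoped BigOperators

/-- product of `1 + c / p` over the prime factors `p > w` -/
noncomputable def sg (w : ℕ) (c : ℝ) (n : ℕ) : ℝ := ∏ p ∈ n.primeFactors.filter (fun p => w < p), (1 + c / p)

lemma sg_one_le {w : ℕ} {c : ℝ} (hc : 0 ≤ c) (n : ℕ) : 1 ≤ sg w c n := by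
  unfold sg
  calc (1 : ℝ) = ∏ _p ∈ n.primeFactors.filter (fun p => w < p), (1 : ℝ) := by simp
    _ ≤ _ := prod_le_prod (fun _ _ => zero_le_one) fun p _ => by
        have : 0 ≤ c / (p : ℝ) := by positivity
        linarith

lemma one_add_pow_le {c t : ℝ} (hc : 0 ≤ c) (h0 : 0 ≤ t) (h1 : t ≤ 1) (M : ℕ) :
    (1 + c * t) ^ M ≤ 1 + t * ((1 + c) ^ M - 1) := by
  induction M with
  | zero => simp
  | succ M ih =>
    have hC : 1 ≤ (1 + c) ^ M := one_le_pow₀ (by linarith)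
    calc (1 + c * t) ^ (M + 1) = (1 + c * t) ^ M * (1 + c * t) := pow_succ _ _
      _ ≤ (1 + t * ((1 + c) ^ M - 1)) * (1 + c * t) :=
          mul_le_mul_of_nonneg_right ih (by positivity)
      _ ≤ _ := by
          rw [pow_succ]
          have h2 : t * t ≤ t := by nlinarith
          have h3 : 0 ≤ c * ((1 + c) ^ M - 1) := mul_nonneg hc (by linarith)
          nlinarith [mul_le_mul_of_nonneg_right h2 h3]

lemma sg_pow {w : ℕ} {c : ℝ} (hc : 0 ≤ c) (M n : ℕ) : sg w c n ^ M ≤ sg w ((1 + c) ^ M) n := by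
  unfold sg
  rw [← prod_pow]
  refine prod_le_prod (fun p _ => by positivity) fun p hp => ?_
  have hp1 : (1 : ℝ) ≤ p := by
    exact_mod_cast (Nat.prime_of_mem_primeFactors (mem_filter.1 hp).1).one_lt.le
  have h1 : (1 : ℝ) / p ≤ 1 := by rw [div_le_one (by linarith)]; exact hp1
  have h := one_add_pow_le hc (by positivity : (0 : ℝ) ≤ 1 / p) h1 M
  have e : 1 + c / (p : ℝ) = 1 + c * (1 / p) := by ring
  rw [e]
  refine h.trans ?_
  have : (1 / (p : ℝ)) * ((1 + c) ^ M - 1) ≤ (1 + c) ^ M / p := by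
    rw [div_mul_eq_mul_div, one_mul]
    exact div_le_div_of_nonneg_right (by linarith) (by linarith)
  linarith

lemma sum_sg_set {c : ℝ} (hc : 0 ≤ c) (P : Finset ℕ) (hP : ∀ p ∈ P, p.Prime) (R : ℕ) :
    ∑ n ∈ Icc 1 R, ∏ p ∈ P, (1 + if p ∣ n then c / (p : ℝ) else 0) ≤
      R * ∏ p ∈ P, (1 + c / (p : ℝ) ^ 2) := by
  have e : ∀ n, ∏ p ∈ P, (1 + if p ∣ n then c / (p : ℝ) else 0) =
      ∑ D ∈ P.powerset, if (∏ p ∈ D, p) ∣ n then ∏ p ∈ D, c / (p : ℝ) else 0 := by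
    intro n
    rw [prod_one_add]
    refine sum_congr rfl fun D hD => ?_
    rw [mem_powerset] at hD
    by_cases h : (∏ p ∈ D, p) ∣ n
    · rw [if_pos h]
      refine prod_congr rfl fun p hp => ?_
      rw [if_pos ((dvd_prod_of_mem _ hp).trans h)]
    · rw [if_neg h]
      have : ∃ p ∈ D, ¬ p ∣ n := by
        by_contra hcon
        push Not at hcon
        exact h (Finset.prod_primes_dvd n (fun p hp => (hP p (hD hp)).prime) hcon)
      obtain ⟨p, hp, hpn⟩ := this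
      exact prod_eq_zero hp (by rw [if_neg hpn])
  simp only [e]
  rw [sum_comm, prod_one_add, mul_sum]
  refine sum_le_sum fun D hD => ?_
  rw [mem_powerset] at hD
  rw [← sum_filter, sum_const, nsmul_eq_mul]
  have h1 : (((Icc 1 R).filter (fun n => (∏ p ∈ D, p) ∣ n)).card : ℝ) ≤ R / ((∏ p ∈ D, p : ℕ) : ℝ) := by
    have : ((Icc 1 R).filter (fun n => (∏ p ∈ D, p) ∣ n)).card = R / (∏ p ∈ D, p) := by
      have h := Nat.Ioc_filter_dvd_card_eq_div R (∏ p ∈ D, p)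
      rw [← h]
      rfl
    rw [this]
    exact Nat.cast_div_le
  have h2 : 0 ≤ ∏ p ∈ D, c / (p : ℝ) := prod_nonneg fun p _ => by positivity
  calc _ ≤ R / ((∏ p ∈ D, p : ℕ) : ℝ) * ∏ p ∈ D, c / (p : ℝ) := mul_le_mul_of_nonneg_right h1 h2
    _ = R * ∏ p ∈ D, (c / (p : ℝ) ^ 2) := by
        push_cast
        rw [div_mul_eq_mul_div, mul_div_assoc, ← prod_div_distrib]
        congr 1
        refine prod_congr rfl fun p hp => ?_
        rw [div_div, sq]
    _ ≤ _ := le_of_eq (by norm_num)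

lemma tele (w N : ℕ) (hw : 1 ≤ w) : ∑ n ∈ Ioc w N, (1 : ℝ) / (n : ℝ) ^ 2 ≤ 1 / w := by
  rcases le_or_gt N w with h | h
  · rw [Ioc_eq_empty (by omega), sum_empty]; positivity
  have h1 : ∀ N : ℕ, w ≤ N → ∑ n ∈ Ioc w N, (1 : ℝ) / (n : ℝ) ^ 2 ≤ 1 / w - 1 / N := by
    intro N hN
    induction N, hN using Nat.le_induction with
    | base => simp
    | succ N hN ih =>
      rw [Finset.sum_Ioc_succ_top hN]
      have hN0 : (0 : ℝ) < N := by exact_mod_cast (by omega : 0 < N)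
      have k : (1 : ℝ) / ((N + 1 : ℕ) : ℝ) ^ 2 ≤ 1 / N - 1 / ((N + 1 : ℕ) : ℝ) := by
        push_cast
        rw [div_sub_div _ _ hN0.ne' (by positivity), div_le_div_iff₀ (by positivity) (by positivity)]
        nlinarith
      linarith
  have := h1 N h.le
  have h2 : (0 : ℝ) ≤ 1 / N := by positivity
  linarith

lemma prod_exp {w : ℕ} (hw : 1 ≤ w) {c : ℝ} (hc : 0 ≤ c) (N : ℕ) :
    ∏ p ∈ (Ioc w N).filter Nat.Prime, (1 + c / (p : ℝ) ^ 2) ≤ Real.exp (c / w) := by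
  calc _ ≤ ∏ p ∈ (Ioc w N).filter Nat.Prime, Real.exp (c / (p : ℝ) ^ 2) :=
        prod_le_prod (fun p _ => by positivity) fun p _ => by
          rw [add_comm]; exact Real.add_one_le_exp _
    _ = Real.exp (∑ p ∈ (Ioc w N).filter Nat.Prime, c / (p : ℝ) ^ 2) := (Real.exp_sum _ _).symm
    _ ≤ _ := by
        rw [Real.exp_le_exp]
        calc _ ≤ ∑ p ∈ Ioc w N, c / (p : ℝ) ^ 2 :=
              sum_le_sum_of_subset_of_nonneg (filter_subset _ _) fun p _ _ => by positivity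
          _ = c * ∑ p ∈ Ioc w N, 1 / (p : ℝ) ^ 2 := by
              rw [mul_sum]; exact sum_congr rfl fun p _ => by ring
          _ ≤ c * (1 / w) := mul_le_mul_of_nonneg_left (tele w N hw) hc
          _ = c / w := by ring

/-- the mean value of `sg` -/
lemma sum_sg {w : ℕ} (hw : 1 ≤ w) {c : ℝ} (hc : 0 ≤ c) (R : ℕ) :
    ∑ n ∈ Icc 1 R, sg w c n ≤ R * Real.exp (c / w) := by
  have h1 : ∀ n ∈ Icc 1 R, sg w c n =
      ∏ p ∈ (Ioc w R).filter Nat.Prime, (1 + if p ∣ n then c / (p : ℝ) else 0) := by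
    intro n hn
    rw [mem_Icc] at hn
    have e : ∏ p ∈ (Ioc w R).filter Nat.Prime, (1 + if p ∣ n then c / (p : ℝ) else 0) =
        ∏ p ∈ ((Ioc w R).filter Nat.Prime).filter (fun p => p ∣ n), (1 + c / (p : ℝ)) := by
      rw [prod_filter (s := (Ioc w R).filter Nat.Prime)]
      refine prod_congr rfl fun p _ => ?_
      split_ifs <;> simp
    rw [e]
    unfold sg
    refine prod_congr ?_ fun _ _ => rfl
    ext p
    simp only [mem_filter, Nat.mem_primeFactors, mem_Ioc]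
    constructor
    · rintro ⟨⟨h1, h2, h3⟩, h4⟩
      exact ⟨⟨⟨h4, (Nat.le_of_dvd (by omega) h2).trans hn.2⟩, h1⟩, h2⟩
    · rintro ⟨⟨⟨h1, h2⟩, h3⟩, h4⟩
      exact ⟨⟨h3, h4, by omega⟩, h1⟩
  rw [sum_congr rfl h1]
  refine (sum_sg_set hc _ (fun p hp => (mem_filter.1 hp).2) R).trans ?_
  exact mul_le_mul_of_nonneg_left (prod_exp hw hc R) (Nat.cast_nonneg R)

/-- a product of numbers at least `1` -/
lemma prod_le_sum_pow {ι : Type*} (J : Finset ι) (a : ι → ℝ) (ha : ∀ j ∈ J, 1 ≤ a j) (M : ℕ)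
    (hM : J.card ≤ M) : ∏ j ∈ J, a j ≤ 1 + ∑ j ∈ J, (a j ^ M - 1) := by
  rcases J.eq_empty_or_nonempty with rfl | hJ
  · simp
  obtain ⟨m, hm, hmax⟩ := exists_max_image J a hJ
  have h1 : ∏ j ∈ J, a j ≤ a m ^ M := by
    calc _ ≤ ∏ _j ∈ J, a m := prod_le_prod (fun j hj => zero_le_one.trans (ha j hj)) hmax
      _ = a m ^ J.card := by rw [prod_const]
      _ ≤ _ := pow_le_pow_right₀ (ha m hm) hM
  have h2 : a m ^ M - 1 ≤ ∑ j ∈ J, (a j ^ M - 1) :=
    single_le_sum (f := fun j => a j ^ M - 1)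
      (fun j hj => sub_nonneg.2 (one_le_pow₀ (ha j hj))) hm
  linarith

end Pool.Agent.NH16.DL
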