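import Pool.Agent.NH16.DL.B1

set_option autoImplicit false
set_option linter.unusedSectionVars false

/-!
# Averages over tuples of the products over the primes dividing the discriminant
-/

namespace Pool.Agent.NH16.DL

open Finset
open scoped BigOperators

/-- the difference of two values, or `1` -/
def ed (a b : ℕ) : ℕ := if a = b then 1 else Nat.dist a b

lemma ed_ne (a b : ℕ) : ed a b ≠ 0 := by
  unfold ed
  split_ifs with h
  · exact one_ne_zero
  · intro h0
    exact h (Nat.eq_of_dist_eq_zero h0)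

/-- product of the values and of their differences -/
def disc {m : ℕ} (r : Fin m → ℕ) : ℕ := (∏ i, r i) * ∏ i, ∏ j, ed (r i) (r j)

lemma disc_ne {m : ℕ} {r : Fin m → ℕ} (h : ∀ i, r i ≠ 0) : disc r ≠ 0 := by
  unfold disc
  refine mul_ne_zero (prod_ne_zero_iff.2 fun i _ => h i) (prod_ne_zero_iff.2 fun i _ => ?_)
  exact prod_ne_zero_iff.2 fun j _ => ed_ne _ _

lemma sg_mul_le {w : ℕ} {c : ℝ} (hc : 0 ≤ c) {a b : ℕ} (ha : a ≠ 0) (hb : b ≠ 0) :
    sg w c (a * b) ≤ sg w c a * sg w c b := by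
  classical
  unfold sg
  rw [Nat.primeFactors_mul ha hb, filter_union]
  set A := a.primeFactors.filter (fun p => w < p)
  set B := b.primeFactors.filter (fun p => w < p)
  have h1 : ∀ s : Finset ℕ, 1 ≤ ∏ p ∈ s, (1 + c / (p : ℝ)) := fun s => by
    calc (1 : ℝ) = ∏ _p ∈ s, (1 : ℝ) := by simp
      _ ≤ _ := prod_le_prod (fun _ _ => zero_le_one) fun p _ => by
        have : 0 ≤ c / (p : ℝ) := by positivity
        linarith
  rw [← prod_union_inter]
  have := h1 (A ∩ B)
  have h2 := h1 (A ∪ B)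
  nlinarith

lemma sg_one (w : ℕ) (c : ℝ) : sg w c 1 = 1 := by simp [sg]

lemma sg_prod_le {ι : Type*} {w : ℕ} {c : ℝ} (hc : 0 ≤ c) (J : Finset ι) (a : ι → ℕ)
    (ha : ∀ j ∈ J, a j ≠ 0) : sg w c (∏ j ∈ J, a j) ≤ ∏ j ∈ J, sg w c (a j) := by
  classical
  induction J using Finset.induction_on with
  | empty => simp [sg_one]
  | insert i J hi ih =>
    rw [prod_insert hi, prod_insert hi]
    refine (sg_mul_le hc (ha i (mem_insert_self _ _))
      (prod_ne_zero_iff.2 fun j hj => ha j (mem_insert_of_mem hj))).trans ?_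
    exact mul_le_mul_of_nonneg_left (ih fun j hj => ha j (mem_insert_of_mem hj))
      (zero_le_one.trans (sg_one_le hc _))

lemma sg_disc_le {w : ℕ} {c : ℝ} (hc : 0 ≤ c) {m M : ℕ} (hM : m + m * m ≤ M) {r : Fin m → ℕ}
    (h : ∀ i, r i ≠ 0) :
    sg w c (disc r) - 1 ≤ ∑ i, (sg w ((1 + c) ^ M) (r i) - 1) +
      ∑ i, ∑ j, (sg w ((1 + c) ^ M) (ed (r i) (r j)) - 1) := by
  have h1 : sg w c (disc r) ≤ ∏ z : Fin m ⊕ (Fin m × Fin m),
      Sum.elim (fun i => sg w c (r i)) (fun p => sg w c (ed (r p.1) (r p.2))) z := by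
    rw [Fintype.prod_sum_type, Fintype.prod_prod_type]
    simp only [Sum.elim_inl, Sum.elim_inr]
    unfold disc
    refine (sg_mul_le hc (prod_ne_zero_iff.2 fun i _ => h i)
      (prod_ne_zero_iff.2 fun i _ => prod_ne_zero_iff.2 fun j _ => ed_ne _ _)).trans ?_
    refine mul_le_mul (sg_prod_le hc _ _ fun i _ => h i) ?_
      (zero_le_one.trans (sg_one_le hc _)) (prod_nonneg fun i _ => zero_le_one.trans (sg_one_le hc _))
    refine (sg_prod_le hc _ _ fun i _ => prod_ne_zero_iff.2 fun j _ => ed_ne _ _).trans ?_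
    exact prod_le_prod (fun i _ => zero_le_one.trans (sg_one_le hc _))
      fun i _ => sg_prod_le hc _ _ fun j _ => ed_ne _ _
  have h2 := prod_le_sum_pow (univ : Finset (Fin m ⊕ (Fin m × Fin m)))
    (Sum.elim (fun i => sg w c (r i)) (fun p => sg w c (ed (r p.1) (r p.2)))) (fun z _ => by
      rcases z with i | p
      · exact sg_one_le hc _
      · exact sg_one_le hc _) M (by
      rw [card_univ, Fintype.card_sum, Fintype.card_prod, Fintype.card_fin]; exact hM)
  rw [Fintype.sum_sum_type, Fintype.sum_prod_type] at h2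
  simp only [Sum.elim_inl, Sum.elim_inr] at h2
  have h3 : ∀ n : ℕ, sg w c n ^ M - 1 ≤ sg w ((1 + c) ^ M) n - 1 := fun n =>
    sub_le_sub_right (sg_pow hc M n) 1
  have h4 : ∑ i, (sg w c (r i) ^ M - 1) ≤ ∑ i, (sg w ((1 + c) ^ M) (r i) - 1) :=
    sum_le_sum fun i _ => h3 _
  have h5 : ∑ i, ∑ j, (sg w c (ed (r i) (r j)) ^ M - 1) ≤
      ∑ i, ∑ j, (sg w ((1 + c) ^ M) (ed (r i) (r j)) - 1) :=
    sum_le_sum fun i _ => sum_le_sum fun j _ => h3 _
  linarith

/-! ### averages over `Fin R` -/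

/-- the value of an index -/
def vl {R : ℕ} (s : Fin R) : ℕ := s.val + 1

lemma vl_inj {R : ℕ} : Function.Injective (vl : Fin R → ℕ) := fun a b h => by
  unfold vl at h
  exact Fin.ext (by omega)

lemma vl_pos {R : ℕ} (s : Fin R) : 1 ≤ vl s := Nat.succ_le_succ (Nat.zero_le _)

lemma vl_le {R : ℕ} (s : Fin R) : vl s ≤ R := s.2

lemma sum_vl {R : ℕ} (φ : ℕ → ℝ) : ∑ s : Fin R, φ (vl s) = ∑ n ∈ Icc 1 R, φ n := by
  unfold vl
  rw [Fin.sum_univ_eq_sum_range (fun i => φ (i + 1)) R]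
  refine sum_nbij' (fun i => i + 1) (fun i => i - 1) ?_ ?_ ?_ ?_ ?_
  · intro i hi
    rw [mem_range] at hi
    rw [mem_Icc]
    omega
  · intro i hi
    rw [mem_Icc] at hi
    rw [mem_range]
    omega
  · intro i _
    simp
  · intro i hi
    rw [mem_Icc] at hi
    omega
  · intro i _
    rfl

lemma exp_vl {R : ℕ} (φ : ℕ → ℝ) : 𝔼 s : Fin R, φ (vl s) = (∑ n ∈ Icc 1 R, φ n) / R := by
  rw [Fintype.expect_eq_sum_div_card, sum_vl, Fintype.card_fin]

lemma sum_ed_le {R : ℕ} (ψ : ℕ → ℝ) (h0 : ∀ n, 0 ≤ ψ n) (h1 : ψ 1 = 0) (v : ℕ) (hv : v ≤ R) :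
    ∑ t ∈ Icc 1 R, ψ (ed v t) ≤ 2 * ∑ n ∈ Icc 1 R, ψ n := by
  classical
  have e : ∀ t ∈ Icc 1 R, ψ (ed v t) = (if t < v then ψ (v - t) else 0) +
      (if v < t then ψ (t - v) else 0) := by
    intro t _
    unfold ed
    rcases lt_trichotomy t v with h | h | h
    · rw [if_neg h.ne', if_pos h, if_neg (by omega), add_zero, Nat.dist_eq_sub_of_le_right h.le]
    · rw [if_pos h.symm, if_neg (by omega), if_neg (by omega), h1, add_zero]
    · rw [if_neg h.ne, if_neg (by omega), if_pos h, zero_add, Nat.dist_eq_sub_of_le h.le]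
  rw [sum_congr rfl e, sum_add_distrib, two_mul]
  refine add_le_add ?_ ?_
  · rw [← sum_filter]
    have : ∑ t ∈ (Icc 1 R).filter (fun t => t < v), ψ (v - t) =
        ∑ n ∈ ((Icc 1 R).filter (fun t => t < v)).image (fun t => v - t), ψ n := by
      rw [sum_image]
      intro a ha b hb hab
      rw [coe_filter, Set.mem_ofPred_eq, mem_Icc] at ha hb
      simp only at hab
      omega
    rw [this]
    refine sum_le_sum_of_subset_of_nonneg ?_ fun n _ _ => h0 n
    intro n hn
    rw [mem_image] at hn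
    obtain ⟨t, ht, rfl⟩ := hn
    rw [mem_filter, mem_Icc] at ht
    rw [mem_Icc]
    omega
  · rw [← sum_filter]
    have : ∑ t ∈ (Icc 1 R).filter (fun t => v < t), ψ (t - v) =
        ∑ n ∈ ((Icc 1 R).filter (fun t => v < t)).image (fun t => t - v), ψ n := by
      rw [sum_image]
      intro a ha b hb hab
      rw [coe_filter, Set.mem_ofPred_eq, mem_Icc] at ha hb
      simp only at hab
      omega
    rw [this]
    refine sum_le_sum_of_subset_of_nonneg ?_ fun n _ _ => h0 n
    intro n hn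
    rw [mem_image] at hn
    obtain ⟨t, ht, rfl⟩ := hn
    rw [mem_filter, mem_Icc] at ht
    rw [mem_Icc]
    omega

/-- marginals -/
lemma exp_one {ρ : Type*} [Fintype ρ] [Nonempty ρ] {n : ℕ} (i : Fin (n + 1)) (φ : ρ → ℝ) :
    𝔼 r : Fin (n + 1) → ρ, φ (r i) = 𝔼 s, φ s := by
  rw [exp_insertNth i]
  simp only [Fin.insertNth_apply_same]
  exact expect_congr rfl fun s _ => Fintype.expect_const _

lemma exp_two {ρ : Type*} [Fintype ρ] [Nonempty ρ] {n : ℕ} (i j : Fin (n + 1)) (h : i ≠ j)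
    (φ : ρ → ρ → ℝ) : 𝔼 r : Fin (n + 1) → ρ, φ (r i) (r j) = 𝔼 s, 𝔼 t, φ s t := by
  obtain ⟨k, rfl⟩ := Fin.exists_succAbove_eq h.symm
  rw [exp_insertNth i]
  simp only [Fin.insertNth_apply_same, Fin.insertNth_apply_succAbove]
  refine expect_congr rfl fun s _ => ?_
  have : n ≠ 0 := fun h0 => by subst h0; exact k.elim0
  obtain ⟨m, rfl⟩ := Nat.exists_eq_succ_of_ne_zero this
  exact exp_one k (φ s)

theorem avg_disc {R m M w : ℕ} (hR : 1 ≤ R) (hM : m + m * m ≤ M) (hw : 1 ≤ w) {c : ℝ} (hc : 0 ≤ c) :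
    𝔼 r : Fin m → Fin R, (sg w c (disc (fun i => vl (r i))) - 1) ≤
      (m + 2 * m * m) * (Real.exp ((1 + c) ^ M / w) - 1) := by
  have hne : Nonempty (Fin R) := ⟨⟨0, hR⟩⟩
  have hRp : (0 : ℝ) < R := by exact_mod_cast hR
  set C := (1 + c) ^ M with hC
  have hC0 : 0 ≤ C := by positivity
  set E := Real.exp (C / w) - 1 with hE
  have hE0 : 0 ≤ E := by
    have : 1 ≤ Real.exp (C / w) := Real.one_le_exp (by positivity)
    linarith
  rcases m with _ | n
  · have : ∀ r : Fin 0 → Fin R, sg w c (disc (fun i => vl (r i))) - 1 = 0 := by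
      intro r
      have : disc (fun i : Fin 0 => vl (r i)) = 1 := by simp [disc]
      rw [this, sg_one, sub_self]
    simp only [this]
    rw [expect_const_zero]
    push_cast
    nlinarith
  have h1 : 𝔼 s : Fin R, (sg w C (vl s) - 1) ≤ E := by
    rw [exp_vl (fun n => sg w C n - 1), sum_sub_distrib]
    have := sum_sg hw hC0 R
    rw [div_le_iff₀ hRp, sum_const, Nat.card_Icc, nsmul_eq_mul]
    rw [Nat.add_sub_cancel, hE]
    nlinarith
  have h2 : 𝔼 s : Fin R, 𝔼 t : Fin R, (sg w C (ed (vl s) (vl t)) - 1) ≤ 2 * E := by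
    refine expect_le univ_nonempty fun s _ => ?_
    rw [exp_vl (fun n => sg w C (ed (vl s) n) - 1), div_le_iff₀ hRp]
    refine (sum_ed_le (fun n => sg w C n - 1) (fun n => sub_nonneg.2 (sg_one_le hC0 n))
      (by simp [sg_one]) (vl s) (vl_le s)).trans ?_
    rw [sum_sub_distrib]
    have := sum_sg hw hC0 R
    rw [sum_const, Nat.card_Icc, nsmul_eq_mul]
    rw [Nat.add_sub_cancel, hE]
    nlinarith
  calc _ ≤ 𝔼 r : Fin (n + 1) → Fin R, (∑ i, (sg w C (vl (r i)) - 1) +
        ∑ i, ∑ j, (sg w C (ed (vl (r i)) (vl (r j))) - 1)) :=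
        expect_le_expect fun r _ => sg_disc_le hc hM fun i => Nat.one_le_iff_ne_zero.1 (vl_pos (r i))
    _ = ∑ i, 𝔼 r : Fin (n + 1) → Fin R, (sg w C (vl (r i)) - 1) +
        ∑ i, ∑ j, 𝔼 r : Fin (n + 1) → Fin R, (sg w C (ed (vl (r i)) (vl (r j))) - 1) := by
        rw [expect_add_distrib, expect_sum_comm, expect_sum_comm]
        congr 1
        exact sum_congr rfl fun i _ => expect_sum_comm _ _ _
    _ ≤ ∑ _i : Fin (n + 1), E + ∑ _i : Fin (n + 1), ∑ _j : Fin (n + 1), 2 * E := by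
        refine add_le_add (sum_le_sum fun i _ => ?_) (sum_le_sum fun i _ => sum_le_sum fun j _ => ?_)
        · rw [exp_one i (fun s : Fin R => sg w C (vl s) - 1)]
          exact h1
        · by_cases hij : i = j
          · subst hij
            have : ∀ r : Fin (n + 1) → Fin R, sg w C (ed (vl (r i)) (vl (r i))) - 1 = 0 := by
              intro r
              unfold ed
              rw [if_pos rfl, sg_one, sub_self]
            simp only [this]
            rw [expect_const_zero]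
            linarith
          · rw [exp_two i j hij (fun s t : Fin R => sg w C (ed (vl s) (vl t)) - 1)]
            exact h2
    _ = _ := by
        simp only [sum_const, card_univ, Fintype.card_fin, nsmul_eq_mul]
        push_cast
        ring

end Pool.Agent.NH16.DL
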