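import Pool.Agent.NH16.DL.B2
import Pool.Agent.TH892.SW.S2
import Pool.Agent.W218.MU.Loc

set_option autoImplicit false
set_option linter.unusedSectionVars false
set_option linter.unusedVariables false

/-!
# The fundamental lemma for products of normalised indicator functions of rough values
-/

namespace Pool.Agent.NH16.DL

open Finset
open scoped BigOperators

/-- the primes up to `v` -/
def PP (v : ℕ) : Finset ℕ := (Icc 1 v).filter Nat.Prime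

lemma mem_PP {v p : ℕ} : p ∈ PP v ↔ p.Prime ∧ p ≤ v := by
  unfold PP
  rw [mem_filter, mem_Icc]
  exact ⟨fun h => ⟨h.2, h.1.2⟩, fun h => ⟨⟨h.1.one_lt.le, h.2⟩, h.1⟩⟩

/-- `∏_{p ≤ v} (1 - 1/p)` -/
noncomputable def Vv (v : ℕ) : ℝ := ∏ p ∈ PP v, (1 - 1 / (p : ℝ))

lemma fac_pos {p : ℕ} (hp : p.Prime) : 0 < 1 - 1 / (p : ℝ) := by
  have h : (1 : ℝ) < p := by exact_mod_cast hp.one_lt
  rw [sub_pos, div_lt_one (by linarith)]
  exact h

lemma fac_le {p : ℕ} (_hp : p.Prime) : 1 - 1 / (p : ℝ) ≤ 1 := by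
  have h : (0 : ℝ) ≤ 1 / p := by positivity
  linarith

lemma Vv_pos (v : ℕ) : 0 < Vv v := prod_pos fun p hp => fac_pos (mem_PP.1 hp).1

lemma Vv_le_one (v : ℕ) : Vv v ≤ 1 :=
  prod_le_one (fun p hp => (fac_pos (mem_PP.1 hp).1).le) fun p hp => fac_le (mem_PP.1 hp).1

lemma Vv_anti {v v' : ℕ} (h : v ≤ v') : Vv v' ≤ Vv v := by
  unfold Vv
  refine prod_le_prod_of_subset_of_le_one ?_ (fun p hp => (fac_pos (mem_PP.1 hp).1).le)
    (fun p hp _ => fac_le (mem_PP.1 hp).1)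
  intro p hp
  rw [mem_PP] at hp ⊢
  exact ⟨hp.1, hp.2.trans h⟩

open Classical in
/-- normalised indicator function of `q r + 1` having no prime factor up to `v` -/
noncomputable def Gf (v r q : ℕ) : ℝ := if ∀ p ∈ PP v, ¬ p ∣ q * r + 1 then (Vv v)⁻¹ else 0

lemma Gf_nonneg (v r q : ℕ) : 0 ≤ Gf v r q := by
  unfold Gf
  split_ifs
  · exact (inv_pos.2 (Vv_pos v)).le
  · exact le_rfl

lemma Gf_le (v r q : ℕ) : Gf v r q ≤ (Vv v)⁻¹ := by
  unfold Gf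
  split_ifs
  · exact le_rfl
  · exact (inv_pos.2 (Vv_pos v)).le

/-- level of a bit -/
def lv (w y : ℕ) (b : Bool) : ℕ := if b then y else w

/-- `t` is hit modulo `p` -/
def Rl {m : ℕ} (w y : ℕ) (a : Fin m → Bool) (r : Fin m → ℕ) (p t : ℕ) : Prop :=
  ∃ i, p ≤ lv w y (a i) ∧ p ∣ t * r i + 1

lemma Rl_mod {m : ℕ} (w y : ℕ) (a : Fin m → Bool) (r : Fin m → ℕ) (p t : ℕ) :
    Rl w y a r p (t % p) ↔ Rl w y a r p t := by
  unfold Rl
  refine exists_congr fun i => and_congr_right fun _ => ?_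
  rw [← Nat.modEq_zero_iff_dvd, ← Nat.modEq_zero_iff_dvd]
  have h : t % p * r i + 1 ≡ t * r i + 1 [MOD p] := ((Nat.mod_modEq t p).mul_right _).add_right _
  exact ⟨fun h1 => h.symm.trans h1, fun h1 => h.trans h1⟩

open Classical in
/-- number of classes hit -/
noncomputable def zz {m : ℕ} (w y : ℕ) (a : Fin m → Bool) (r : Fin m → ℕ) (p : ℕ) : ℕ :=
  ((range p).filter (fun t => Rl w y a r p t)).card

/-- number of forms of level at least `p` -/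
def kk {m : ℕ} (w y : ℕ) (a : Fin m → Bool) (p : ℕ) : ℕ := (univ.filter (fun i => p ≤ lv w y (a i))).card

lemma kk_le {m : ℕ} (w y : ℕ) (a : Fin m → Bool) (p : ℕ) : kk w y a p ≤ m := by
  unfold kk
  exact (card_filter_le _ _).trans (by rw [card_univ, Fintype.card_fin])

lemma root_le (r : ℕ) {p : ℕ} (hp : p.Prime) : ((range p).filter (fun t => p ∣ t * r + 1)).card ≤ 1 := by
  have h := Pool.Agent.W218.MU.one_root (L := (r, 1)) (Nat.coprime_one_right r) hp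
  simp only at h
  refine le_trans (le_of_eq ?_) h
  congr 1
  ext t
  rw [mem_filter, mem_filter, mul_comm]

lemma zz_le {m : ℕ} (w y : ℕ) (a : Fin m → Bool) (r : Fin m → ℕ) {p : ℕ} (hp : p.Prime) :
    zz w y a r p ≤ kk w y a p := by
  classical
  unfold zz kk
  have h1 : (range p).filter (fun t => Rl w y a r p t) ⊆
      (univ.filter (fun i => p ≤ lv w y (a i))).biUnion
        (fun i => (range p).filter (fun t => p ∣ t * r i + 1)) := by
    intro t ht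
    rw [mem_filter] at ht
    obtain ⟨h1, i, h2, h3⟩ := ht
    rw [mem_biUnion]
    exact ⟨i, by rw [mem_filter]; exact ⟨mem_univ _, h2⟩, by rw [mem_filter]; exact ⟨h1, h3⟩⟩
  refine (card_le_card h1).trans (card_biUnion_le.trans ?_)
  calc _ ≤ ∑ _i ∈ univ.filter (fun i => p ≤ lv w y (a i)), 1 := sum_le_sum fun i _ => root_le _ hp
    _ = _ := by simp

/-- the local product -/
noncomputable def Lc {m : ℕ} (w y : ℕ) (a : Fin m → Bool) (r : Fin m → ℕ) : ℝ :=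
  (∏ i, (Vv (lv w y (a i)))⁻¹) * ∏ p ∈ PP y, (1 - (zz w y a r p : ℝ) / p)

lemma prod_Gf {m : ℕ} {w y : ℕ} (hwy : w ≤ y) (a : Fin m → Bool) (r : Fin m → ℕ) (q : ℕ) :
    ∏ i, Gf (lv w y (a i)) (r i) q =
      (∏ i, (Vv (lv w y (a i)))⁻¹) * (open Classical in if ∀ p ∈ PP y, ¬ Rl w y a r p (q % p) then 1 else 0) := by
  classical
  by_cases h : ∀ p ∈ PP y, ¬ Rl w y a r p (q % p)
  · rw [if_pos h, mul_one]
    refine prod_congr rfl fun i _ => ?_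
    unfold Gf
    rw [if_pos]
    intro p hp hd
    rw [mem_PP] at hp
    have hpy : p ≤ y := hp.2.trans (by unfold lv; split_ifs; exacts [le_rfl, hwy])
    exact h p (mem_PP.2 ⟨hp.1, hpy⟩) ((Rl_mod _ _ _ _ _ _).2 ⟨i, hp.2, hd⟩)
  · rw [if_neg h, mul_zero]
    push Not at h
    obtain ⟨p, hp, hR⟩ := h
    obtain ⟨i, h1, h2⟩ := (Rl_mod _ _ _ _ _ _).1 hR
    refine prod_eq_zero (mem_univ i) ?_
    unfold Gf
    rw [if_neg]
    intro hcon
    exact hcon p (mem_PP.2 ⟨(mem_PP.1 hp).1, h1⟩) h2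


/-- the error term of the fundamental lemma -/
noncomputable def Er (C0 K0 b y : ℕ) : ℝ :=
  ((Pool.Agent.W41.JJ y : ℝ) + 2) * ((y : ℝ) ^ (2 * (C0 * b)) * (K0 * (y : ℝ) ^ (2 * (C0 * b))))

lemma Er_nonneg (C0 K0 b y : ℕ) : 0 ≤ Er C0 K0 b y := by unfold Er; positivity

lemma fac_zz_nonneg {m : ℕ} (w y : ℕ) (a : Fin m → Bool) (r : Fin m → ℕ) (p : ℕ) :
    0 ≤ 1 - (zz w y a r p : ℝ) / p := by
  classical
  rw [sub_nonneg]
  refine div_le_one_of_le₀ ?_ (Nat.cast_nonneg _)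
  have : zz w y a r p ≤ p := (card_filter_le _ _).trans (card_range p).le
  exact_mod_cast this

lemma Vprod_nonneg {m : ℕ} (w y : ℕ) (a : Fin m → Bool) : 0 ≤ ∏ i, (Vv (lv w y (a i)))⁻¹ :=
  prod_nonneg fun i _ => (inv_pos.2 (Vv_pos _)).le

lemma Vprod_le {m : ℕ} {w y : ℕ} (hwy : w ≤ y) (a : Fin m → Bool) :
    ∏ i, (Vv (lv w y (a i)))⁻¹ ≤ (Vv y)⁻¹ ^ m := by
  calc _ ≤ ∏ _i : Fin m, (Vv y)⁻¹ := by
        refine prod_le_prod (fun i _ => (inv_pos.2 (Vv_pos _)).le) fun i _ => ?_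
        refine inv_anti₀ (Vv_pos y) (Vv_anti ?_)
        unfold lv
        split_ifs
        exacts [le_rfl, hwy]
    _ = _ := by rw [prod_const, card_univ, Fintype.card_fin]

lemma Lc_nonneg {m : ℕ} (w y : ℕ) (a : Fin m → Bool) (r : Fin m → ℕ) : 0 ≤ Lc w y a r :=
  mul_nonneg (Vprod_nonneg w y a) (prod_nonneg fun p _ => fac_zz_nonneg w y a r p)

lemma sum_shift (x : ℕ) (hx : 1 ≤ x) (φ : ℕ → ℝ) :
    ∑ i : Fin x, φ (x + i) = ∑ n ∈ Icc 1 (2 * x - 1), φ n - ∑ n ∈ Icc 1 (x - 1), φ n := by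
  rw [Fin.sum_univ_eq_sum_range (fun i => φ (x + i)) x]
  have h1 : ∑ i ∈ range x, φ (x + i) = ∑ n ∈ Ico x (2 * x), φ n := by
    rw [Finset.sum_Ico_eq_sum_range]
    congr 2
    omega
  rw [h1, eq_sub_iff_add_eq, add_comm]
  have h2 : Icc 1 (x - 1) = Ico 1 x := by ext n; rw [mem_Icc, mem_Ico]; omega
  have h3 : Icc 1 (2 * x - 1) = Ico 1 (2 * x) := by ext n; rw [mem_Icc, mem_Ico]; omega
  rw [h2, h3]
  exact Finset.sum_Ico_consecutive φ hx (by omega)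

/-- the fundamental lemma for our products -/
theorem fl_prod (m : ℕ) : ∃ C0 K0 : ℕ, 1 ≤ C0 ∧ 1 ≤ K0 ∧ ∀ b : ℕ, C0 ≤ b → ∀ y : ℕ, 2 ≤ y → ∀ w : ℕ, w ≤ y →
    ∀ (a : Fin m → Bool) (r : Fin m → ℕ) (x : ℕ), 1 ≤ x →
    |𝔼 i : Fin x, ∏ j, Gf (lv w y (a j)) (r j) (x + i) - Lc w y a r| ≤
      3 * (1 / 2 : ℝ) ^ b * Lc w y a r + 2 * ((Vv y)⁻¹ ^ m * Er C0 K0 b y / x) := by
  classical
  obtain ⟨C0, K0, hC0, hK0, h⟩ := Pool.Agent.TH892.SW.fl_set m
  refine ⟨C0, K0, hC0, hK0, fun b hb y hy w hwy a r x hx => ?_⟩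
  have hxp : (0 : ℝ) < x := by exact_mod_cast hx
  set Λ : ℝ := ∏ i, (Vv (lv w y (a i)))⁻¹ with hΛ
  set Pr : ℝ := ∏ p ∈ PP y, (1 - (zz w y a r p : ℝ) / p) with hPd
  have hΛ0 : 0 ≤ Λ := Vprod_nonneg w y a
  have hP0 : 0 ≤ Pr := prod_nonneg fun p _ => fac_zz_nonneg w y a r p
  have key : ∀ X : ℕ, |(∑ n ∈ Icc 1 X, (if ∀ p ∈ PP y, ¬ Rl w y a r p (n % p) then (1 : ℝ) else 0)) - X * Pr| ≤
      (1 / 2 : ℝ) ^ b * (X * Pr) + Er C0 K0 b y := by
    intro X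
    have h1 := h b hb y hy X (PP y) (fun p t => Rl w y a r p t) (fun p hp => by
      rw [mem_PP] at hp
      refine ⟨hp.1, hp.2, ?_⟩
      have := (zz_le w y a r hp.1).trans (kk_le w y a p)
      unfold zz at this
      convert this)
    have e1 : (∑ n ∈ Icc 1 X, (if ∀ p ∈ PP y, ¬ Rl w y a r p (n % p) then (1 : ℝ) else 0)) =
        (((Icc 1 X).filter (fun n => ∀ p ∈ PP y, ¬ Rl w y a r p (n % p))).card : ℝ) := by
      rw [← sum_filter, sum_const, nsmul_eq_mul, mul_one]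
    have e2 : Pr = ∏ p ∈ PP y, (1 - (((range p).filter (fun t => Rl w y a r p t)).card : ℝ) / p) := by
      rw [hPd]
      refine prod_congr rfl fun p _ => ?_
      unfold zz
      congr!
    rw [e1, e2]
    unfold Er
    convert h1
  have e0 : 𝔼 i : Fin x, ∏ j, Gf (lv w y (a j)) (r j) (x + i) =
      Λ * ((∑ n ∈ Icc 1 (2 * x - 1), (if ∀ p ∈ PP y, ¬ Rl w y a r p (n % p) then (1 : ℝ) else 0)) -
        ∑ n ∈ Icc 1 (x - 1), (if ∀ p ∈ PP y, ¬ Rl w y a r p (n % p) then (1 : ℝ) else 0)) / x := by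
    rw [Fintype.expect_eq_sum_div_card, Fintype.card_fin]
    congr 1
    rw [← sum_shift x hx (fun n => if ∀ p ∈ PP y, ¬ Rl w y a r p (n % p) then (1 : ℝ) else 0), mul_sum]
    refine sum_congr rfl fun i _ => ?_
    rw [prod_Gf hwy]
  have k1 := key (2 * x - 1)
  have k2 := key (x - 1)
  have c1 : ((2 * x - 1 : ℕ) : ℝ) = 2 * x - 1 := by
    rw [Nat.cast_sub (by omega)]; push_cast; ring
  have c2 : ((x - 1 : ℕ) : ℝ) = x - 1 := by
    rw [Nat.cast_sub hx]; push_cast; ring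
  rw [c1] at k1
  rw [c2] at k2
  set s1 := ∑ n ∈ Icc 1 (2 * x - 1), (if ∀ p ∈ PP y, ¬ Rl w y a r p (n % p) then (1 : ℝ) else 0)
  set s2 := ∑ n ∈ Icc 1 (x - 1), (if ∀ p ∈ PP y, ¬ Rl w y a r p (n % p) then (1 : ℝ) else 0)
  have k3 : |(s1 - s2) - x * Pr| ≤ 3 * (1 / 2 : ℝ) ^ b * (x * Pr) + 2 * Er C0 K0 b y := by
    have e : (s1 - s2) - x * Pr = (s1 - (2 * x - 1) * Pr) - (s2 - (x - 1) * Pr) := by ring
    rw [e]
    refine (abs_sub _ _).trans ((add_le_add k1 k2).trans ?_)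
    have hb0 : 0 ≤ (1 / 2 : ℝ) ^ b * Pr := by positivity
    nlinarith
  have e3 : 𝔼 i : Fin x, ∏ j, Gf (lv w y (a j)) (r j) (x + i) - Lc w y a r =
      Λ / x * ((s1 - s2) - x * Pr) := by
    rw [e0]
    unfold Lc
    rw [← hΛ, ← hPd]
    field_simp
  rw [e3, abs_mul, abs_of_nonneg (by positivity : 0 ≤ Λ / x)]
  calc Λ / x * |(s1 - s2) - x * Pr| ≤ Λ / x * (3 * (1 / 2 : ℝ) ^ b * (x * Pr) + 2 * Er C0 K0 b y) :=
        mul_le_mul_of_nonneg_left k3 (by positivity)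
    _ = 3 * (1 / 2 : ℝ) ^ b * (Λ * Pr) + 2 * (Λ * Er C0 K0 b y / x) := by
        field_simp
    _ ≤ _ := by
        have h4 : Λ * Er C0 K0 b y / x ≤ (Vv y)⁻¹ ^ m * Er C0 K0 b y / x :=
          div_le_div_of_nonneg_right (mul_le_mul_of_nonneg_right (Vprod_le hwy a) (Er_nonneg _ _ _ _)) hxp.le
        have h5 : Lc w y a r = Λ * Pr := rfl
        rw [h5]
        linarith

end Pool.Agent.NH16.DL
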