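import Pool.Agent.NH16.DL.B3

set_option autoImplicit false
set_option linter.unusedSectionVars false
set_option linter.unusedVariables false

/-!
# Bounds for the local products
-/

namespace Pool.Agent.NH16.DL

open Finset
open scoped BigOperators

/-- the local factor -/
noncomputable def lf {m : ℕ} (w y : ℕ) (a : Fin m → Bool) (r : Fin m → ℕ) (p : ℕ) : ℝ :=
  (1 - (zz w y a r p : ℝ) / p) * ((1 - 1 / (p : ℝ)) ^ kk w y a p)⁻¹

lemma Vprod_eq {m : ℕ} {w y : ℕ} (hwy : w ≤ y) (a : Fin m → Bool) :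
    ∏ i, (Vv (lv w y (a i)))⁻¹ = ∏ p ∈ PP y, ((1 - 1 / (p : ℝ)) ^ kk w y a p)⁻¹ := by
  rw [prod_inv_distrib, prod_inv_distrib]
  congr 1
  have e1 : ∀ i : Fin m, Vv (lv w y (a i)) =
      ∏ p ∈ PP y, if p ≤ lv w y (a i) then (1 - 1 / (p : ℝ)) else 1 := by
    intro i
    unfold Vv
    rw [← prod_filter]
    refine prod_congr ?_ fun _ _ => rfl
    ext p
    rw [mem_filter, mem_PP, mem_PP]
    constructor
    · rintro ⟨h1, h2⟩
      refine ⟨⟨h1, h2.trans ?_⟩, h2⟩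
      unfold lv
      split_ifs
      exacts [le_rfl, hwy]
    · rintro ⟨⟨h1, _⟩, h2⟩
      exact ⟨h1, h2⟩
  simp only [e1]
  rw [prod_comm]
  refine prod_congr rfl fun p _ => ?_
  rw [← prod_filter, prod_const]
  rfl

lemma Lc_eq {m : ℕ} {w y : ℕ} (hwy : w ≤ y) (a : Fin m → Bool) (r : Fin m → ℕ) :
    Lc w y a r = ∏ p ∈ PP y, lf w y a r p := by
  unfold Lc lf
  rw [Vprod_eq hwy, prod_mul_distrib, mul_comm]

lemma lf_nonneg {m : ℕ} (w y : ℕ) (a : Fin m → Bool) (r : Fin m → ℕ) {p : ℕ} (hp : p.Prime) :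
    0 ≤ lf w y a r p :=
  mul_nonneg (fac_zz_nonneg w y a r p) (inv_nonneg.2 (pow_nonneg (fac_pos hp).le _))

lemma lf_le_one {m : ℕ} (w y : ℕ) (a : Fin m → Bool) (r : Fin m → ℕ) {p : ℕ} (hp : p.Prime)
    (h : zz w y a r p = kk w y a p) : lf w y a r p ≤ 1 := by
  unfold lf
  rw [h, ← div_eq_mul_inv, div_le_one (pow_pos (fac_pos hp) _)]
  have hp1 : (1 : ℝ) < p := by exact_mod_cast hp.one_lt
  have h1 : (1 : ℝ) / p ≤ 1 := by rw [div_le_one (by linarith)]; exact hp1.le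
  have := one_add_mul_le_pow (a := -(1 / (p : ℝ))) (by linarith) (kk w y a p)
  have e : (1 : ℝ) + (kk w y a p : ℝ) * -(1 / (p : ℝ)) = 1 - (kk w y a p : ℝ) / p := by ring
  rw [e] at this
  have e2 : (1 : ℝ) + -(1 / (p : ℝ)) = 1 - 1 / p := by ring
  rw [e2] at this
  exact this

lemma lf_le {m : ℕ} (w y : ℕ) (a : Fin m → Bool) (r : Fin m → ℕ) {p : ℕ} (hp : p.Prime) :
    lf w y a r p ≤ 1 + 3 ^ m / p := by
  have hp2 : (2 : ℝ) ≤ p := by exact_mod_cast hp.two_le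
  have hpp : (0 : ℝ) < p := by linarith
  have h1 : (1 : ℝ) / p ≤ 1 := by rw [div_le_one hpp]; linarith
  have h0 : (0 : ℝ) ≤ 1 / p := by positivity
  have h2 : (1 - 1 / (p : ℝ))⁻¹ ≤ 1 + 2 * (1 / p) := by
    rw [inv_le_comm₀ (fac_pos hp) (by positivity), inv_le_iff_one_le_mul₀ (by positivity)]
    have : (1 : ℝ) / p ≤ 1 / 2 := by
      apply one_div_le_one_div_of_le <;> linarith
    nlinarith
  have h3 : lf w y a r p ≤ (1 + 2 * (1 / (p : ℝ))) ^ m := by
    unfold lf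
    calc _ ≤ 1 * ((1 - 1 / (p : ℝ)) ^ kk w y a p)⁻¹ := by
          refine mul_le_mul_of_nonneg_right ?_ (inv_nonneg.2 (pow_nonneg (fac_pos hp).le _))
          have : (0 : ℝ) ≤ (zz w y a r p : ℝ) / p := by positivity
          linarith
      _ = ((1 - 1 / (p : ℝ))⁻¹) ^ kk w y a p := by rw [one_mul, inv_pow]
      _ ≤ (1 + 2 * (1 / (p : ℝ))) ^ kk w y a p :=
          pow_le_pow_left₀ (inv_nonneg.2 (fac_pos hp).le) h2 _
      _ ≤ _ := pow_le_pow_right₀ (by linarith) (kk_le w y a p)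
  refine h3.trans ((one_add_pow_le zero_le_two h0 h1 m).trans ?_)
  have : (1 + 2 : ℝ) = 3 := by norm_num
  rw [this, div_mul_eq_mul_div, one_mul]
  have : ((3 : ℝ) ^ m - 1) / p ≤ 3 ^ m / p := div_le_div_of_nonneg_right (by linarith) hpp.le
  linarith

lemma lf_ge {m : ℕ} (w y : ℕ) (a : Fin m → Bool) (r : Fin m → ℕ) {p : ℕ} (hp : p.Prime) (hm : m ≤ p) :
    1 - (m : ℝ) ^ 2 * (1 / (p : ℝ) ^ 2) ≤ lf w y a r p := by
  have hk := kk_le w y a p
  have h1 := Pool.Agent.W218.MU.abs_generic (kk w y a p) hp (hk.trans hm)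
  have h2 : (1 - (kk w y a p : ℝ) / p) / (1 - 1 / (p : ℝ)) ^ kk w y a p ≤ lf w y a r p := by
    unfold lf
    rw [div_eq_mul_inv]
    refine mul_le_mul_of_nonneg_right ?_ (inv_nonneg.2 (pow_nonneg (fac_pos hp).le _))
    have : (zz w y a r p : ℝ) / p ≤ (kk w y a p : ℝ) / p :=
      div_le_div_of_nonneg_right (by exact_mod_cast zz_le w y a r hp) (Nat.cast_nonneg _)
    linarith
  have h3 : ((kk w y a p : ℕ) : ℝ) ^ 2 * (1 / (p : ℝ) ^ 2) ≤ (m : ℝ) ^ 2 * (1 / (p : ℝ) ^ 2) := by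
    refine mul_le_mul_of_nonneg_right ?_ (by positivity)
    exact pow_le_pow_left₀ (Nat.cast_nonneg _) (by exact_mod_cast hk) 2
  have := (abs_le.1 h1).1
  linarith

/-- there are `kk` classes if `p` does not divide the discriminant -/
lemma zz_eq {m : ℕ} (w y : ℕ) (a : Fin m → Bool) {r : Fin m → ℕ} (hr : Function.Injective r)
    {p : ℕ} (hp : p.Prime) (hd : ¬ p ∣ disc r) : zz w y a r p = kk w y a p := by
  classical
  refine le_antisymm (zz_le w y a r hp) ?_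
  have hne : NeZero p := ⟨hp.ne_zero⟩
  have hfact : Fact p.Prime := ⟨hp⟩
  have hri : ∀ i, ¬ p ∣ r i := fun i h => hd ((h.trans (dvd_prod_of_mem _ (mem_univ i))).mul_right _)
  have hed : ∀ i j, ¬ p ∣ ed (r i) (r j) := fun i j h => hd (Dvd.dvd.mul_left
    ((h.trans (dvd_prod_of_mem (fun j => ed (r i) (r j)) (mem_univ j))).trans
      (dvd_prod_of_mem (fun i => ∏ j, ed (r i) (r j)) (mem_univ i))) _)
  have hroot : ∀ i, ∃ t, t < p ∧ p ∣ t * r i + 1 := by
    intro i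
    refine ⟨(-((r i : ZMod p))⁻¹).val, ZMod.val_lt _, ?_⟩
    rw [← ZMod.natCast_eq_zero_iff]
    push_cast
    rw [ZMod.natCast_zmod_val]
    have : (r i : ZMod p) ≠ 0 := by
      rw [Ne, ZMod.natCast_eq_zero_iff]
      exact hri i
    rw [neg_mul, inv_mul_cancel₀ this]
    ring
  choose t ht1 ht2 using hroot
  unfold zz kk
  refine card_le_card_of_injOn t ?_ ?_
  · intro i hi
    rw [coe_filter, Set.mem_ofPred_eq] at hi
    rw [coe_filter, Set.mem_ofPred_eq, mem_range]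
    exact ⟨ht1 i, i, hi.2, ht2 i⟩
  · intro i _ j _ hij
    by_contra hne'
    have h1 := ht2 i
    have h2 := ht2 j
    rw [← hij] at h2
    have hrne : r i ≠ r j := fun h => hne' (hr h)
    have h3 : p ∣ t i * Nat.dist (r i) (r j) := by
      rcases le_total (r i) (r j) with hle | hle
      · rw [Nat.dist_eq_sub_of_le hle, Nat.mul_sub]
        have := Nat.dvd_sub h2 h1
        have e : t i * r j + 1 - (t i * r i + 1) = t i * r j - t i * r i := by omega
        rwa [e] at this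
      · rw [Nat.dist_eq_sub_of_le_right hle, Nat.mul_sub]
        have := Nat.dvd_sub h1 h2
        have e : t i * r i + 1 - (t i * r j + 1) = t i * r i - t i * r j := by omega
        rwa [e] at this
    rcases hp.dvd_mul.1 h3 with h4 | h4
    · have : p ∣ 1 := (Nat.dvd_add_right (h4.mul_right (r i))).1 h1
      exact hp.one_lt.ne' (Nat.dvd_one.1 this)
    · apply hed i j
      unfold ed
      rw [if_neg hrne]
      exact h4

/-- pointwise upper bound for a set of primes -/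
lemma prod_lf_le {m : ℕ} (w y : ℕ) (a : Fin m → Bool) {r : Fin m → ℕ} (hr : Function.Injective r)
    (h0 : ∀ i, r i ≠ 0) (v : ℕ) (S : Finset ℕ) (hS : ∀ p ∈ S, p.Prime ∧ v < p) :
    ∏ p ∈ S, lf w y a r p ≤ sg v (3 ^ m) (disc r) := by
  classical
  calc ∏ p ∈ S, lf w y a r p ≤ ∏ p ∈ S, (if p ∣ disc r then (1 + (3 : ℝ) ^ m / p) else 1) := by
        refine prod_le_prod (fun p hp => lf_nonneg w y a r (hS p hp).1) fun p hp => ?_
        split_ifs with h
        · exact lf_le w y a r (hS p hp).1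
        · exact lf_le_one w y a r (hS p hp).1 (zz_eq w y a hr (hS p hp).1 h)
    _ = ∏ p ∈ S.filter (fun p => p ∣ disc r), (1 + (3 : ℝ) ^ m / p) := by rw [prod_filter]
    _ ≤ _ := by
        unfold sg
        refine prod_le_prod_of_subset_of_one_le ?_ (fun p _ => by positivity) fun p _ _ => ?_
        · intro p hp
          rw [mem_filter] at hp
          rw [mem_filter, Nat.mem_primeFactors]
          exact ⟨⟨(hS p hp.1).1, hp.2, disc_ne h0⟩, (hS p hp.1).2⟩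
        · have : (0 : ℝ) ≤ 3 ^ m / p := by positivity
          linarith

lemma one_sub_sum_le' (S : Finset ℕ) (f : ℕ → ℝ) (h0 : ∀ p ∈ S, 0 ≤ f p) (h1 : ∀ p ∈ S, f p ≤ 1) :
    1 - ∑ p ∈ S, f p ≤ ∏ p ∈ S, (1 - f p) := by
  classical
  induction S using Finset.induction_on with
  | empty => simp
  | insert p S hp ih =>
    rw [sum_insert hp, prod_insert hp]
    have k0 := h0 p (mem_insert_self _ _)
    have k1 := h1 p (mem_insert_self _ _)
    have ih' := ih (fun q hq => h0 q (mem_insert_of_mem hq)) (fun q hq => h1 q (mem_insert_of_mem hq))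
    have k2 : ∏ q ∈ S, (1 - f q) ≤ 1 := prod_le_one
      (fun q hq => by linarith [h1 q (mem_insert_of_mem hq)])
      (fun q hq => by linarith [h0 q (mem_insert_of_mem hq)])
    nlinarith

/-- pointwise lower bound for a set of large primes -/
lemma prod_lf_ge {m : ℕ} (w y : ℕ) (a : Fin m → Bool) (r : Fin m → ℕ) {v : ℕ} (hv : 1 ≤ v) (hm : m ≤ v)
    (N : ℕ) (S : Finset ℕ) (hS : ∀ p ∈ S, p.Prime ∧ v < p ∧ p ≤ N) :
    1 - (m : ℝ) ^ 2 / v ≤ ∏ p ∈ S, lf w y a r p := by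
  have h1 : ∀ p ∈ S, (m : ℝ) ^ 2 * (1 / (p : ℝ) ^ 2) ≤ 1 := by
    intro p hp
    have hp0 : (0 : ℝ) < p := by exact_mod_cast (hS p hp).1.pos
    rw [mul_one_div, div_le_one (by positivity)]
    exact pow_le_pow_left₀ (Nat.cast_nonneg _) (by exact_mod_cast (hm.trans (hS p hp).2.1.le)) 2
  calc 1 - (m : ℝ) ^ 2 / v ≤ 1 - ∑ p ∈ S, (m : ℝ) ^ 2 * (1 / (p : ℝ) ^ 2) := by
        rw [← mul_sum]
        have h2 : ∑ p ∈ S, (1 : ℝ) / (p : ℝ) ^ 2 ≤ 1 / v := by
          refine (sum_le_sum_of_subset_of_nonneg ?_ fun p _ _ => by positivity).trans (tele v N hv)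
          intro p hp
          rw [mem_Ioc]
          exact (hS p hp).2
        have h3 := mul_le_mul_of_nonneg_left h2 (sq_nonneg (m : ℝ))
        have e : (m : ℝ) ^ 2 / v = (m : ℝ) ^ 2 * (1 / v) := by ring
        rw [e]
        linarith
    _ ≤ ∏ p ∈ S, (1 - (m : ℝ) ^ 2 * (1 / (p : ℝ) ^ 2)) :=
        one_sub_sum_le' S _ (fun p _ => by positivity) h1
    _ ≤ _ := prod_le_prod (fun p hp => by linarith [h1 p hp]) fun p hp =>
        lf_ge w y a r (hS p hp).1 (hm.trans (hS p hp).2.1.le)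

lemma Lc_le {m : ℕ} {w y : ℕ} (hwy : w ≤ y) (a : Fin m → Bool) {r : Fin m → ℕ}
    (hr : Function.Injective r) (h0 : ∀ i, r i ≠ 0) : Lc w y a r ≤ sg 1 (3 ^ m) (disc r) := by
  rw [Lc_eq hwy]
  exact prod_lf_le w y a hr h0 1 _ fun p hp => ⟨(mem_PP.1 hp).1, (mem_PP.1 hp).1.one_lt⟩

/-- the pattern without `true` -/
abbrev ff (m : ℕ) : Fin m → Bool := fun _ => false

lemma lf_small {m : ℕ} {w y y' : ℕ} (hwy : w ≤ y) (hwy' : w ≤ y') (a a' : Fin m → Bool) (r : Fin m → ℕ) {p : ℕ}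
    (hp : p ≤ w) : lf w y a r p = lf w y' a' r p := by
  classical
  have h1 : ∀ (a : Fin m → Bool) (y : ℕ) (i : Fin m), w ≤ y → p ≤ lv w y (a i) := by
    intro a y i hwy
    unfold lv
    split_ifs
    exacts [hp.trans hwy, hp]
  unfold lf zz kk Rl
  have e1 : ∀ t, (∃ i, p ≤ lv w y (a i) ∧ p ∣ t * r i + 1) ↔ (∃ i, p ≤ lv w y' (a' i) ∧ p ∣ t * r i + 1) := by
    intro t
    exact exists_congr fun i => and_congr_left fun _ => iff_of_true (h1 a y i hwy) (h1 a' y' i hwy')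
  have e2 : (univ.filter (fun i => p ≤ lv w y (a i))) = (univ.filter (fun i => p ≤ lv w y' (a' i))) := by
    ext i
    rw [mem_filter, mem_filter]
    exact and_congr_right fun _ => iff_of_true (h1 a y i hwy) (h1 a' y' i hwy')
  rw [e2]
  simp only [e1]
  congr!

lemma lf_false {m : ℕ} (w y : ℕ) (r : Fin m → ℕ) {p : ℕ} (hp : w < p) : lf w y (ff m) r p = 1 := by
  classical
  unfold lf
  have h1 : zz w y (ff m) r p = 0 := by
    unfold zz
    rw [card_eq_zero, filter_eq_empty_iff]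
    rintro t _ ⟨i, h, _⟩
    have : lv w y (ff m i) = w := rfl
    omega
  have h2 : kk w y (ff m) p = 0 := by
    unfold kk
    rw [card_eq_zero, filter_eq_empty_iff]
    intro i _ h
    have : lv w y (ff m i) = w := rfl
    omega
  rw [h1, h2]
  simp

lemma Lc_false_le {m : ℕ} {w y : ℕ} (r : Fin m → ℕ) : Lc w y (ff m) r ≤ (Vv w)⁻¹ ^ m := by
  unfold Lc
  have e : ∏ i, (Vv (lv w y (ff m i)))⁻¹ = (Vv w)⁻¹ ^ m := by
    have : ∀ i, (Vv (lv w y (ff m i)))⁻¹ = (Vv w)⁻¹ := fun i => rfl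
    rw [prod_congr rfl fun i _ => this i, prod_const, card_univ, Fintype.card_fin]
  rw [e]
  have h : ∏ p ∈ PP y, (1 - (zz w y (ff m) r p : ℝ) / p) ≤ 1 :=
    prod_le_one (fun p _ => fac_zz_nonneg _ _ _ _ _) fun p _ => by
      have : (0 : ℝ) ≤ (zz w y (ff m) r p : ℝ) / p := by positivity
      linarith
  calc _ ≤ (Vv w)⁻¹ ^ m * 1 := mul_le_mul_of_nonneg_left h (pow_nonneg (inv_nonneg.2 (Vv_pos w).le) _)
    _ = _ := mul_one _

/-- the local products differ little -/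
theorem Lc_diff {m : ℕ} {w y y' : ℕ} (hwy : w ≤ y) (hwy' : w ≤ y') (hw : 1 ≤ w) (hm : m ≤ w)
    (a : Fin m → Bool) {r : Fin m → ℕ}
    (hr : Function.Injective r) (h0 : ∀ i, r i ≠ 0) :
    |Lc w y a r - Lc w y' (ff m) r| ≤
      (Vv w)⁻¹ ^ m * ((sg w (3 ^ m) (disc r) - 1) + (m : ℝ) ^ 2 / w) := by
  classical
  have hsplit : ∀ y : ℕ, w ≤ y → PP y = PP w ∪ (PP y).filter (fun p => w < p) := by
    intro y hwy
    ext p
    rw [mem_union, mem_filter, mem_PP, mem_PP]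
    constructor
    · rintro ⟨h1, h2⟩
      by_cases h : p ≤ w
      · exact Or.inl ⟨h1, h⟩
      · exact Or.inr ⟨⟨h1, h2⟩, by omega⟩
    · rintro (⟨h1, h2⟩ | ⟨h1, _⟩)
      · exact ⟨h1, h2.trans hwy⟩
      · exact h1
  have hdisj : ∀ y : ℕ, Disjoint (PP w) ((PP y).filter (fun p => w < p)) := by
    intro y
    rw [disjoint_left]
    intro p hp hp'
    rw [mem_PP] at hp
    rw [mem_filter] at hp'
    omega
  have e1 : Lc w y' (ff m) r = ∏ p ∈ PP w, lf w y' (ff m) r p := by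
    rw [Lc_eq hwy', hsplit y' hwy', prod_union (hdisj y')]
    have : ∏ p ∈ (PP y').filter (fun p => w < p), lf w y' (ff m) r p = 1 :=
      prod_eq_one fun p hp => lf_false w y' r (mem_filter.1 hp).2
    rw [this, mul_one]
  have e2 : Lc w y a r = Lc w y' (ff m) r * ∏ p ∈ (PP y).filter (fun p => w < p), lf w y a r p := by
    rw [Lc_eq hwy, hsplit y hwy, prod_union (hdisj y), e1]
    congr 1
    · exact prod_congr rfl fun p hp => lf_small hwy hwy' _ _ _ (mem_PP.1 hp).2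
    · rw [← hsplit y hwy]
  set T := ∏ p ∈ (PP y).filter (fun p => w < p), lf w y a r p with hT
  have hT1 : T ≤ sg w (3 ^ m) (disc r) := prod_lf_le w y a hr h0 w _ fun p hp =>
    ⟨(mem_PP.1 (mem_filter.1 hp).1).1, (mem_filter.1 hp).2⟩
  have hT2 : 1 - (m : ℝ) ^ 2 / w ≤ T := prod_lf_ge w y a r hw hm y _ fun p hp =>
    ⟨(mem_PP.1 (mem_filter.1 hp).1).1, (mem_filter.1 hp).2, (mem_PP.1 (mem_filter.1 hp).1).2⟩
  have hs1 : 1 ≤ sg w (3 ^ m) (disc r) := sg_one_le (by positivity) _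
  have hw0 : (0 : ℝ) ≤ (m : ℝ) ^ 2 / w := by positivity
  have e3 : Lc w y a r - Lc w y' (ff m) r = Lc w y' (ff m) r * (T - 1) := by rw [e2]; ring
  rw [e3, abs_mul, abs_of_nonneg (Lc_nonneg _ _ _ _)]
  refine mul_le_mul (Lc_false_le r) ?_ (abs_nonneg _) (pow_nonneg (inv_nonneg.2 (Vv_pos w).le) _)
  rw [abs_le]
  constructor <;> linarith

end Pool.Agent.NH16.DL
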