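import Pool.Agent.NH16.DL.B4

set_option autoImplicit false
set_option linter.unusedSectionVars false
set_option linter.unusedVariables false

/-!
# Moments and pseudorandomness of the normalised indicator functions
-/

namespace Pool.Agent.NH16.DL

open Finset
open scoped BigOperators

/-- the normalised indicator function of level `v`, in terms of indices -/
noncomputable def gx (R x v : ℕ) (s : Fin R) (q : Fin x) : ℝ := Gf v (vl s) (x + q)

lemma gx_nonneg (R x v : ℕ) (s : Fin R) (q : Fin x) : 0 ≤ gx R x v s q := Gf_nonneg _ _ _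

lemma gx_le (R x v : ℕ) (s : Fin R) (q : Fin x) : gx R x v s q ≤ (Vv v)⁻¹ := Gf_le _ _ _

lemma pt_gx (R x w y : ℕ) (b : Bool) (s : Fin R) (q : Fin x) :
    pt (gx R x y) (gx R x w) b s q = Gf (lv w y b) (vl s) (x + q) := by
  cases b <;> rfl

lemma pp_gx (R x w y : ℕ) {m : ℕ} (a : Fin m → Bool) (u : Fin m → Fin R) (q : Fin x) :
    pp (gx R x y) (gx R x w) a u q = ∏ i, Gf (lv w y (a i)) (vl (u i)) (x + q) :=
  prod_congr rfl fun i _ => pt_gx R x w y (a i) (u i) q

lemma pt_gx_le {R x w y : ℕ} (hwy : w ≤ y) (b : Bool) (s : Fin R) (q : Fin x) :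
    pt (gx R x y) (gx R x w) b s q ≤ (Vv y)⁻¹ := by
  rw [pt_gx]
  refine (Gf_le _ _ _).trans (inv_anti₀ (Vv_pos y) (Vv_anti ?_))
  unfold lv
  split_ifs
  exacts [le_rfl, hwy]

/-- the fundamental lemma as a hypothesis -/
def FL (w y x : ℕ) (θ η : ℝ) (m : ℕ) : Prop :=
  ∀ (a : Fin m → Bool) (r : Fin m → ℕ),
    |𝔼 i : Fin x, ∏ j, Gf (lv w y (a j)) (r j) (x + i) - Lc w y a r| ≤ θ * Lc w y a r + η

lemma pp_nn (R x w y : ℕ) {m : ℕ} (a : Fin m → Bool) (u : Fin m → Fin R) (q : Fin x) :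
    0 ≤ pp (gx R x y) (gx R x w) a u q :=
  pp_nonneg (gx_nonneg R x y) (gx_nonneg R x w) a u q

/-- coincidences -/
lemma coinc {R x w y : ℕ} (hR : 1 ≤ R) (hwy : w ≤ y) {m : ℕ} (a : Fin (m + 1) → Bool) (i : Fin (m + 1))
    (k : Fin m) {B : ℝ} (hB : MB (gx R x y) (gx R x w) B m) :
    𝔼 r : Fin (m + 1) → Fin R, (if r i = r (i.succAbove k) then
      𝔼 q, pp (gx R x y) (gx R x w) a r q else 0) ≤ (Vv y)⁻¹ / R * B := by
  have hne : Nonempty (Fin R) := ⟨⟨0, hR⟩⟩
  have hRp : (0 : ℝ) < R := by exact_mod_cast hR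
  have hV : 0 < (Vv y)⁻¹ := inv_pos.2 (Vv_pos y)
  set a' : Fin m → Bool := fun k => a (i.succAbove k) with ha'
  rw [exp_insertNth i, exp_comm]
  have h1 : ∀ u : Fin m → Fin R, 𝔼 s, (if (i.insertNth s u : Fin (m + 1) → Fin R) i =
      (i.insertNth s u : Fin (m + 1) → Fin R) (i.succAbove k) then
      𝔼 q, pp (gx R x y) (gx R x w) a (i.insertNth s u : Fin (m + 1) → Fin R) q else 0) ≤
      (Vv y)⁻¹ / R * 𝔼 q, pp (gx R x y) (gx R x w) a' u q := by
    intro u
    simp only [Fin.insertNth_apply_same, Fin.insertNth_apply_succAbove]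
    have h2 : ∀ s, (if s = u k then 𝔼 q, pp (gx R x y) (gx R x w) a
        (i.insertNth s u : Fin (m + 1) → Fin R) q else 0) ≤
        if s = u k then (Vv y)⁻¹ * 𝔼 q, pp (gx R x y) (gx R x w) a' u q else 0 := by
      intro s
      split_ifs with h
      · rw [mul_expect]
        refine expect_le_expect fun q _ => ?_
        rw [pp_insert]
        exact mul_le_mul_of_nonneg_right (pt_gx_le hwy _ _ _) (pp_nn R x w y _ _ _)
      · exact le_rfl
    refine (expect_le_expect fun s _ => h2 s).trans (le_of_eq ?_)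
    rw [Fintype.expect_eq_sum_div_card, sum_ite_eq', if_pos (mem_univ _), Fintype.card_fin]
    ring
  refine (expect_le_expect fun u _ => h1 u).trans ?_
  rw [← mul_expect]
  exact mul_le_mul_of_nonneg_left (hB a') (by positivity)

/-- a tuple that is not injective has a coincidence -/
lemma le_coinc {R m : ℕ} (r : Fin (m + 1) → Fin R) {X Y : ℝ} (hY : 0 ≤ Y) (hX0 : 0 ≤ X)
    (hX : Function.Injective r → Y ≤ X) :
    Y ≤ X + ∑ i, ∑ k : Fin m, (if r i = r (i.succAbove k) then Y else 0) := by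
  by_cases h : Function.Injective r
  · have : 0 ≤ ∑ i, ∑ k : Fin m, (if r i = r (i.succAbove k) then Y else 0) :=
      sum_nonneg fun i _ => sum_nonneg fun k _ => by split_ifs; exacts [hY, le_rfl]
    linarith [hX h]
  · unfold Function.Injective at h
    push Not at h
    obtain ⟨i, j, hij, hne⟩ := h
    obtain ⟨k, rfl⟩ := Fin.exists_succAbove_eq (Ne.symm hne)
    have h1 : Y ≤ ∑ k' : Fin m, (if r i = r (i.succAbove k') then Y else 0) := by
      refine le_trans (le_of_eq ?_) (single_le_sum (f := fun k' : Fin m => if r i = r (i.succAbove k') then Y else 0)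
        (fun k' _ => by split_ifs; exacts [hY, le_rfl]) (mem_univ k))
      rw [if_pos hij]
    have h2 : ∑ k' : Fin m, (if r i = r (i.succAbove k') then Y else 0) ≤
        ∑ i, ∑ k' : Fin m, (if r i = r (i.succAbove k') then Y else 0) :=
      single_le_sum (f := fun i => ∑ k' : Fin m, (if r i = r (i.succAbove k') then Y else 0))
        (fun i' _ => sum_nonneg fun k' _ => by split_ifs; exacts [hY, le_rfl]) (mem_univ i)
    linarith

/-- the mean value of `sg 1` -/
noncomputable def c1 (m : ℕ) : ℝ :=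
  1 + (m + 2 * m * m) * (Real.exp ((1 + 3 ^ m) ^ (m + m * m) / (1 : ℕ)) - 1)

/-- the moments -/
noncomputable def BB : ℕ → ℝ
  | 0 => 1
  | m + 1 => 2 * c1 (m + 1) + 1 + (m + 1) * m * BB m

lemma one_le_c1 (m : ℕ) : 1 ≤ c1 m := by
  unfold c1
  have : 1 ≤ Real.exp ((1 + 3 ^ m) ^ (m + m * m) / (1 : ℕ)) := Real.one_le_exp (by positivity)
  have h : 0 ≤ ((m : ℝ) + 2 * m * m) * (Real.exp ((1 + 3 ^ m) ^ (m + m * m) / (1 : ℕ)) - 1) :=
    mul_nonneg (by positivity) (by linarith)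
  linarith

lemma one_le_BB (m : ℕ) : 1 ≤ BB m := by
  induction m with
  | zero => simp [BB]
  | succ m ih =>
    rw [BB]
    have := one_le_c1 (m + 1)
    have h : (0 : ℝ) ≤ ((m : ℝ) + 1) * m * BB m := by positivity
    linarith

lemma exp_sg {R m : ℕ} (hR : 1 ≤ R) :
    𝔼 r : Fin m → Fin R, sg 1 (3 ^ m) (disc (fun i => vl (r i))) ≤ c1 m := by
  have hne : Nonempty (Fin R) := ⟨⟨0, hR⟩⟩
  have h := avg_disc (R := R) (m := m) (M := m + m * m) (w := 1) hR le_rfl le_rfl
    (c := 3 ^ m) (by positivity)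
  rw [expect_sub_distrib, Fintype.expect_const] at h
  unfold c1
  linarith

lemma inj_vl {R m : ℕ} {r : Fin m → Fin R} (h : Function.Injective r) :
    Function.Injective (fun i => vl (r i)) := vl_inj.comp h

lemma vl_ne {R m : ℕ} (r : Fin m → Fin R) (i : Fin m) : vl (r i) ≠ 0 :=
  Nat.one_le_iff_ne_zero.1 (vl_pos _)

theorem MB_of_FL {R x w y : ℕ} (hR : 1 ≤ R) (hx : 1 ≤ x) (hwy : w ≤ y) {θ η : ℝ} (hθ : θ ≤ 1) (hη : η ≤ 1)
    (hη0 : 0 ≤ η) (hV : (Vv y)⁻¹ ≤ R) {M : ℕ} (hFL : ∀ m ≤ M, FL w y x θ η m) :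
    ∀ m ≤ M, MB (gx R x y) (gx R x w) (BB m) m := by
  have hne : Nonempty (Fin R) := ⟨⟨0, hR⟩⟩
  have hnx : Nonempty (Fin x) := ⟨⟨0, hx⟩⟩
  have hRp : (0 : ℝ) < R := by exact_mod_cast hR
  intro m
  induction m with
  | zero =>
    intro _ a
    have : ∀ (r : Fin 0 → Fin R) (q : Fin x), pp (gx R x y) (gx R x w) a r q = 1 := by
      intro r q
      simp [pp]
    simp only [this]
    rw [Fintype.expect_const, Fintype.expect_const, BB]
  | succ m ih =>
    intro hm a
    have ihm := ih (by omega)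
    have hB0 : 0 ≤ BB m := zero_le_one.trans (one_le_BB m)
    have h1 : ∀ r : Fin (m + 1) → Fin R, 𝔼 q, pp (gx R x y) (gx R x w) a r q ≤
        (2 * sg 1 (3 ^ (m + 1)) (disc (fun i => vl (r i))) + 1) +
        ∑ i, ∑ k : Fin m, (if r i = r (i.succAbove k) then
          𝔼 q, pp (gx R x y) (gx R x w) a r q else 0) := by
      intro r
      have hsg := sg_one_le (w := 1) (c := 3 ^ (m + 1)) (by positivity) (disc (fun i => vl (r i)))
      refine le_coinc r (expect_nonneg fun q _ => pp_nn R x w y a r q) (by linarith) fun hinj => ?_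
      have h2 := hFL (m + 1) hm a (fun i => vl (r i))
      have h3 := Lc_le hwy a (inj_vl hinj) (vl_ne r)
      have h4 := Lc_nonneg w y a (fun i => vl (r i))
      have h5 : 𝔼 q, pp (gx R x y) (gx R x w) a r q =
          𝔼 i : Fin x, ∏ j, Gf (lv w y (a j)) (vl (r j)) (x + i) :=
        expect_congr rfl fun q _ => pp_gx R x w y a r q
      rw [h5]
      have h6 := (abs_le.1 h2).2
      nlinarith
    refine (expect_le_expect fun r _ => h1 r).trans ?_
    rw [expect_add_distrib, expect_add_distrib, expect_sum_comm, ← mul_expect, Fintype.expect_const, BB]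
    refine add_le_add (add_le_add (mul_le_mul_of_nonneg_left (exp_sg hR) zero_le_two) le_rfl) ?_
    calc _ ≤ ∑ _i : Fin (m + 1), ∑ _k : Fin m, BB m := by
          refine sum_le_sum fun i _ => ?_
          rw [expect_sum_comm]
          refine sum_le_sum fun k _ => (coinc hR hwy a i k ihm).trans ?_
          have : (Vv y)⁻¹ / R ≤ 1 := by rw [div_le_one hRp]; exact hV
          nlinarith
      _ = _ := by
          simp only [sum_const, card_univ, Fintype.card_fin, nsmul_eq_mul]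
          push_cast
          ring

/-- the pseudorandomness error -/
noncomputable def tau (m w : ℕ) (θ η lam : ℝ) : ℝ :=
  2 * θ * c1 m + 2 * η + (Vv w)⁻¹ ^ m * ((m + 2 * m * m) * (Real.exp ((1 + 3 ^ m) ^ (m + m * m) / w) - 1) +
    (m : ℝ) ^ 2 / w) + 2 * (m * m * (lam * BB (m - 1)))

theorem PR_of_FL {R x w y : ℕ} (hR : 1 ≤ R) (hx : 1 ≤ x) (hwy : w ≤ y) {θ η lam : ℝ} (hθ0 : 0 ≤ θ)
    (hθ : θ ≤ 1) (hη : η ≤ 1)
    (hη0 : 0 ≤ η) (hV : (Vv y)⁻¹ ≤ R) (hlam : (Vv y)⁻¹ / R ≤ lam) {m : ℕ} (hm1 : 1 ≤ m) (hw : 1 ≤ w) (hmw : m ≤ w)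
    (hFL : ∀ m' ≤ m, FL w y x θ η m') :
    PR (gx R x y) (gx R x w) (tau m w θ η lam) m := by
  have hne : Nonempty (Fin R) := ⟨⟨0, hR⟩⟩
  have hnx : Nonempty (Fin x) := ⟨⟨0, hx⟩⟩
  have hRp : (0 : ℝ) < R := by exact_mod_cast hR
  obtain ⟨m, rfl⟩ : ∃ n, m = n + 1 := ⟨m - 1, by omega⟩
  intro a
  have hMB := MB_of_FL hR hx hwy hθ hη hη0 hV hFL m (by omega)
  have hB0 : 0 ≤ BB m := zero_le_one.trans (one_le_BB m)
  have hVw : 0 ≤ (Vv w)⁻¹ ^ (m + 1) := pow_nonneg (inv_nonneg.2 (Vv_pos w).le) _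
  set z := ff (m + 1) with hz
  have h1 : ∀ r : Fin (m + 1) → Fin R, |𝔼 q, pp (gx R x y) (gx R x w) a r q -
        𝔼 q, pp (gx R x y) (gx R x w) z r q| ≤
        (2 * θ * sg 1 (3 ^ (m + 1)) (disc (fun i => vl (r i))) + 2 * η +
          (Vv w)⁻¹ ^ (m + 1) * ((sg w (3 ^ (m + 1)) (disc (fun i => vl (r i))) - 1) +
            ((m + 1 : ℕ) : ℝ) ^ 2 / w)) +
        (∑ i, ∑ k : Fin m, (if r i = r (i.succAbove k) then
          𝔼 q, pp (gx R x y) (gx R x w) a r q else 0) +
        ∑ i, ∑ k : Fin m, (if r i = r (i.succAbove k) then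
          𝔼 q, pp (gx R x y) (gx R x w) z r q else 0)) := by
    intro r
    have ha0 : 0 ≤ 𝔼 q, pp (gx R x y) (gx R x w) a r q := expect_nonneg fun q _ => pp_nn R x w y a r q
    have hz0 : 0 ≤ 𝔼 q, pp (gx R x y) (gx R x w) z r q := expect_nonneg fun q _ => pp_nn R x w y z r q
    have hsg := sg_one_le (w := 1) (c := 3 ^ (m + 1)) (by positivity) (disc (fun i => vl (r i)))
    have hsgw := sg_one_le (w := w) (c := 3 ^ (m + 1)) (by positivity) (disc (fun i => vl (r i)))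
    have hmw0 : (0 : ℝ) ≤ ((m + 1 : ℕ) : ℝ) ^ 2 / w := by positivity
    have hX0 : 0 ≤ 2 * θ * sg 1 (3 ^ (m + 1)) (disc (fun i => vl (r i))) + 2 * η +
          (Vv w)⁻¹ ^ (m + 1) * ((sg w (3 ^ (m + 1)) (disc (fun i => vl (r i))) - 1) +
            ((m + 1 : ℕ) : ℝ) ^ 2 / w) := by
      have k1 : 0 ≤ (Vv w)⁻¹ ^ (m + 1) * ((sg w (3 ^ (m + 1)) (disc (fun i => vl (r i))) - 1) +
            ((m + 1 : ℕ) : ℝ) ^ 2 / w) := mul_nonneg hVw (by linarith)
      have k2 : 0 ≤ 2 * θ * sg 1 (3 ^ (m + 1)) (disc (fun i => vl (r i))) := by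
        have : 0 ≤ sg 1 (3 ^ (m + 1)) (disc (fun i => vl (r i))) := by linarith
        positivity
      linarith
    by_cases hinj : Function.Injective r
    · have e : ∀ b : Fin (m + 1) → Bool, 𝔼 q, pp (gx R x y) (gx R x w) b r q =
          𝔼 i : Fin x, ∏ j, Gf (lv w y (b j)) (vl (r j)) (x + i) := fun b =>
        expect_congr rfl fun q _ => pp_gx R x w y b r q
      have f1 := hFL (m + 1) le_rfl a (fun i => vl (r i))
      have f2 := hFL (m + 1) le_rfl z (fun i => vl (r i))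
      have g1 := Lc_le hwy a (inj_vl hinj) (vl_ne r)
      have g2 := Lc_le hwy z (inj_vl hinj) (vl_ne r)
      have g3 := Lc_diff hwy hwy hw hmw a (inj_vl hinj) (vl_ne r)
      have hs : 0 ≤ ∑ i, ∑ k : Fin m, (if r i = r (i.succAbove k) then
          𝔼 q, pp (gx R x y) (gx R x w) a r q else 0) +
        ∑ i, ∑ k : Fin m, (if r i = r (i.succAbove k) then
          𝔼 q, pp (gx R x y) (gx R x w) z r q else 0) :=
        add_nonneg (sum_nonneg fun i _ => sum_nonneg fun k _ => by split_ifs; exacts [ha0, le_rfl])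
          (sum_nonneg fun i _ => sum_nonneg fun k _ => by split_ifs; exacts [hz0, le_rfl])
      rw [e a, e z] at *
      have t1 : |𝔼 i : Fin x, ∏ j, Gf (lv w y (a j)) (vl (r j)) (x + i) -
          𝔼 i : Fin x, ∏ j, Gf (lv w y (z j)) (vl (r j)) (x + i)| ≤
          (θ * Lc w y a (fun i => vl (r i)) + η) +
          |Lc w y a (fun i => vl (r i)) - Lc w y z (fun i => vl (r i))| +
          (θ * Lc w y z (fun i => vl (r i)) + η) := by
        have e3 : 𝔼 i : Fin x, ∏ j, Gf (lv w y (a j)) (vl (r j)) (x + i) -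
          𝔼 i : Fin x, ∏ j, Gf (lv w y (z j)) (vl (r j)) (x + i) =
          (𝔼 i : Fin x, ∏ j, Gf (lv w y (a j)) (vl (r j)) (x + i) - Lc w y a (fun i => vl (r i))) +
          (Lc w y a (fun i => vl (r i)) - Lc w y z (fun i => vl (r i))) -
          (𝔼 i : Fin x, ∏ j, Gf (lv w y (z j)) (vl (r j)) (x + i) - Lc w y z (fun i => vl (r i))) := by
          ring
        rw [e3]
        refine (abs_sub _ _).trans (add_le_add ((abs_add_le _ _).trans (add_le_add f1 le_rfl)) f2)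
      nlinarith [mul_le_mul_of_nonneg_left g1 hθ0, mul_le_mul_of_nonneg_left g2 hθ0]
    · have hf : ¬ (Function.Injective r) := hinj
      have k1 := le_coinc r ha0 le_rfl (fun h => absurd h hf)
      have k2 := le_coinc r hz0 le_rfl (fun h => absurd h hf)
      refine (abs_sub _ _).trans ?_
      rw [abs_of_nonneg ha0, abs_of_nonneg hz0]
      linarith
  refine (expect_le_expect fun r _ => h1 r).trans ?_
  have hc : ∀ b : Fin (m + 1) → Bool, 𝔼 r : Fin (m + 1) → Fin R, ∑ i, ∑ k : Fin m,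
      (if r i = r (i.succAbove k) then 𝔼 q, pp (gx R x y) (gx R x w) b r q else 0) ≤
      ((m + 1 : ℕ) : ℝ) * ((m + 1 : ℕ) : ℝ) * (lam * BB m) := by
    intro b
    rw [expect_sum_comm]
    calc _ ≤ ∑ _i : Fin (m + 1), ∑ _k : Fin m, lam * BB m := by
          refine sum_le_sum fun i _ => ?_
          rw [expect_sum_comm]
          refine sum_le_sum fun k _ => (coinc hR hwy b i k hMB).trans ?_
          exact mul_le_mul_of_nonneg_right hlam hB0
      _ = (m + 1) * (m * (lam * BB m)) := by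
          simp only [sum_const, card_univ, Fintype.card_fin, nsmul_eq_mul]
          push_cast
          ring
      _ ≤ _ := by
          have hl : 0 ≤ lam := le_trans (div_nonneg (inv_nonneg.2 (Vv_pos y).le) hRp.le) hlam
          have : 0 ≤ lam * BB m := mul_nonneg hl hB0
          push_cast
          nlinarith [(Nat.cast_nonneg m : (0 : ℝ) ≤ m)]
  have hd := avg_disc (R := R) (m := m + 1) (M := (m + 1) + (m + 1) * (m + 1)) (w := w) hR le_rfl hw
    (c := 3 ^ (m + 1)) (by positivity)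
  have he := exp_sg (R := R) (m := m + 1) hR
  simp only [expect_add_distrib, ← mul_expect, Fintype.expect_const]
  unfold tau
  rw [Nat.add_sub_cancel]
  have k1 := hc a
  have k2 := hc z
  have k3 : 2 * θ * 𝔼 r : Fin (m + 1) → Fin R, sg 1 (3 ^ (m + 1)) (disc (fun i => vl (r i))) ≤
      2 * θ * c1 (m + 1) := mul_le_mul_of_nonneg_left he (by linarith)
  have k4 : (Vv w)⁻¹ ^ (m + 1) * (𝔼 r : Fin (m + 1) → Fin R,
      (sg w (3 ^ (m + 1)) (disc (fun i => vl (r i))) - 1) + ((m + 1 : ℕ) : ℝ) ^ 2 / w) ≤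
      (Vv w)⁻¹ ^ (m + 1) * ((((m + 1 : ℕ) : ℝ) + 2 * ((m + 1 : ℕ) : ℝ) * ((m + 1 : ℕ) : ℝ)) *
        (Real.exp ((1 + 3 ^ (m + 1)) ^ ((m + 1) + (m + 1) * (m + 1)) / w) - 1) +
        ((m + 1 : ℕ) : ℝ) ^ 2 / w) :=
    mul_le_mul_of_nonneg_left (by linarith) hVw
  linarith

end Pool.Agent.NH16.DL
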