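import Pool.Agent.NH16.DL.B6
import Pool.Agent.W218.MU.Class

set_option autoImplicit false
set_option linter.unusedSectionVars false
set_option linter.unusedVariables false

/-!
# Primes `q r + 1` in the classes of `q`
-/

namespace Pool.Agent.NH16.DL

open Finset Filter Topology
open scoped BigOperators

/-- the product of the primes up to `w` -/
def Wn (w : ℕ) : ℕ := ∏ p ∈ PP w, p

lemma Wn_pos (w : ℕ) : 0 < Wn w := prod_pos fun p hp => (mem_PP.1 hp).1.pos

lemma dvd_Wn {w p : ℕ} (hp : p.Prime) : p ∣ Wn w ↔ p ≤ w := by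
  unfold Wn
  rw [Prime.dvd_finset_prod_iff hp.prime]
  constructor
  · rintro ⟨q, hq, hpq⟩
    rw [(Nat.prime_dvd_prime_iff_eq hp (mem_PP.1 hq).1).1 hpq]
    exact (mem_PP.1 hq).2
  · intro h
    exact ⟨p, mem_PP.2 ⟨hp, h⟩, dvd_rfl⟩

lemma cop_iff {w n : ℕ} : (∀ p ∈ PP w, ¬ p ∣ n) ↔ Nat.Coprime n (Wn w) := by
  constructor
  · intro h
    refine Nat.Coprime.symm (Nat.coprime_of_dvd' fun p hp h1 h2 => ?_)
    exact absurd h2 (h p (mem_PP.2 ⟨hp, (dvd_Wn hp).1 h1⟩))
  · intro h p hp hd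
    rw [mem_PP] at hp
    have := Nat.dvd_gcd hd ((dvd_Wn hp.1).2 hp.2)
    rw [h] at this
    exact hp.1.one_lt.ne' (Nat.dvd_one.1 this)

lemma Gf_mod (w r q : ℕ) : Gf w r (q % Wn w) = Gf w r q := by
  unfold Gf
  have : (∀ p ∈ PP w, ¬ p ∣ q % Wn w * r + 1) ↔ (∀ p ∈ PP w, ¬ p ∣ q * r + 1) := by
    refine forall₂_congr fun p hp => not_congr ?_
    rw [← Nat.modEq_zero_iff_dvd, ← Nat.modEq_zero_iff_dvd]
    rw [mem_PP] at hp
    have h : q % Wn w * r + 1 ≡ q * r + 1 [MOD p] :=
      (((Nat.mod_modEq q (Wn w)).of_dvd ((dvd_Wn hp.1).2 hp.2)).mul_right _).add_right _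
    exact ⟨fun h1 => h.symm.trans h1, fun h1 => h.trans h1⟩
  simp only [this]

lemma primeFactors_Wn (w : ℕ) : (Wn w).primeFactors = PP w := by
  ext p
  rw [Nat.mem_primeFactors, mem_PP]
  constructor
  · rintro ⟨h1, h2, _⟩
    exact ⟨h1, (dvd_Wn h1).1 h2⟩
  · rintro ⟨h1, h2⟩
    exact ⟨h1, (dvd_Wn h1).2 h2, (Wn_pos w).ne'⟩

/-- the local density of the class -/
lemma phi_eq {r w : ℕ} (hr : 1 ≤ r) : (Wn w : ℝ) * r / Nat.totient (r * Wn w) =
    (Vv w)⁻¹ * ∏ p ∈ r.primeFactors.filter (fun p => w < p), (1 - 1 / (p : ℝ))⁻¹ := by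
  classical
  have key : ∀ n : ℕ, (Nat.totient n : ℝ) = n * ∏ p ∈ n.primeFactors, (1 - (p : ℝ)⁻¹) := by
    intro n
    have := congrArg (fun x : ℚ => (x : ℝ)) (Nat.totient_eq_mul_prod_factors n)
    push_cast at this
    exact this
  rw [key, Nat.primeFactors_mul (by omega) (Wn_pos w).ne', primeFactors_Wn]
  have e : r.primeFactors ∪ PP w = PP w ∪ r.primeFactors.filter (fun p => w < p) := by
    ext p
    rw [mem_union, mem_union, mem_filter, mem_PP]
    constructor
    · rintro (h | h)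
      · by_cases hpw : p ≤ w
        · exact Or.inl ⟨Nat.prime_of_mem_primeFactors h, hpw⟩
        · exact Or.inr ⟨h, by omega⟩
      · exact Or.inl h
    · rintro (h | h)
      · exact Or.inr h
      · exact Or.inl h.1
  have hd : Disjoint (PP w) (r.primeFactors.filter (fun p => w < p)) := by
    rw [disjoint_left]
    intro p hp hp'
    rw [mem_PP] at hp
    rw [mem_filter] at hp'
    omega
  rw [e, prod_union hd]
  have e2 : ∏ p ∈ PP w, (1 - (p : ℝ)⁻¹) = Vv w := by
    unfold Vv
    exact prod_congr rfl fun p _ => by rw [one_div]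
  have e3 : ∏ p ∈ r.primeFactors.filter (fun p => w < p), (1 - (p : ℝ)⁻¹) =
      (∏ p ∈ r.primeFactors.filter (fun p => w < p), (1 - 1 / (p : ℝ))⁻¹)⁻¹ := by
    rw [prod_inv_distrib, inv_inv]
    exact prod_congr rfl fun p _ => by rw [one_div]
  rw [e2, e3]
  have h1 : (0 : ℝ) < Wn w := by exact_mod_cast Wn_pos w
  have h2 : (0 : ℝ) < r := by exact_mod_cast hr
  have h3 := Vv_pos w
  have h4 : 0 < ∏ p ∈ r.primeFactors.filter (fun p => w < p), (1 - 1 / (p : ℝ))⁻¹ :=
    prod_pos fun p hp => inv_pos.2 (fac_pos (Nat.prime_of_mem_primeFactors (mem_filter.1 hp).1))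
  push_cast
  field_simp

lemma kap_bounds (w r : ℕ) : 1 ≤ ∏ p ∈ r.primeFactors.filter (fun p => w < p), (1 - 1 / (p : ℝ))⁻¹ ∧
    ∏ p ∈ r.primeFactors.filter (fun p => w < p), (1 - 1 / (p : ℝ))⁻¹ ≤ sg w 3 r := by
  constructor
  · calc (1 : ℝ) = ∏ _p ∈ r.primeFactors.filter (fun p => w < p), (1 : ℝ) := by simp
      _ ≤ _ := prod_le_prod (fun _ _ => zero_le_one) fun p hp => by
        have hpp := Nat.prime_of_mem_primeFactors (mem_filter.1 hp).1
        exact (one_le_inv₀ (fac_pos hpp)).2 (fac_le hpp)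
  · unfold sg
    refine prod_le_prod (fun p hp => ?_) fun p hp => ?_
    · exact inv_nonneg.2 (fac_pos (Nat.prime_of_mem_primeFactors (mem_filter.1 hp).1)).le
    · have hpp := Nat.prime_of_mem_primeFactors (mem_filter.1 hp).1
      have hp2 : (2 : ℝ) ≤ p := by exact_mod_cast hpp.two_le
      have h0 : (0 : ℝ) < 1 / p := by positivity
      rw [inv_le_comm₀ (fac_pos hpp) (by positivity), inv_le_iff_one_le_mul₀ (by positivity)]
      have h1 : (1 : ℝ) / p ≤ 1 / 2 := by apply one_div_le_one_div_of_le <;> linarith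
      have e : 3 / (p : ℝ) = 3 * (1 / p) := by ring
      rw [e]
      nlinarith

open H343E in
/-- counting through the primes -/
lemma cnt_class {r W x z : ℕ} (hr : 1 ≤ r) (hW : 0 < W) (hx : 1 ≤ x) (hz : z < W) :
    (((Ico x (2 * x)).filter (fun q => q % W = z ∧ (q * r + 1).Prime)).card : ℝ) =
      piAP ((2 * x - 1) * r + 1) (r * W) ((z * r + 1) % (r * W)) -
        piAP (x * r) (r * W) ((z * r + 1) % (r * W)) := by
  classical
  rw [eq_sub_iff_add_eq]
  unfold piAP
  rw [← Nat.cast_add, add_comm, Nat.cast_inj]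
  set P : ℕ → Prop := fun p => p.Prime ∧ p ≡ (z * r + 1) % (r * W) [MOD r * W] with hP
  have hrW : 0 < r * W := Nat.mul_pos hr hW
  have e : (Icc 1 ((2 * x - 1) * r + 1)).filter P = (Icc 1 (x * r)).filter P ∪
      ((Ico x (2 * x)).filter (fun q => q % W = z ∧ (q * r + 1).Prime)).image (fun q => q * r + 1) := by
    ext p
    simp only [mem_union, mem_filter, mem_Icc, mem_image, mem_Ico, hP]
    constructor
    · rintro ⟨⟨h1, h2⟩, h3, h4⟩
      by_cases hle : p ≤ x * r
      · exact Or.inl ⟨⟨h1, hle⟩, h3, h4⟩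
      · right
        push Not at hle
        have h5 : p ≡ z * r + 1 [MOD r * W] := h4.trans (Nat.mod_modEq _ _)
        have h6 : p ≡ 1 [MOD r] := by
          have := (h5.of_mul_right W)
          refine this.trans ?_
          have : z * r + 1 ≡ 0 + 1 [MOD r] := Nat.ModEq.add_right 1 ((Nat.modEq_zero_iff_dvd).2 (Dvd.intro_left z rfl))
          simpa using this
        have h7 : r ∣ p - 1 := (Nat.modEq_iff_dvd' h1).1 h6.symm
        obtain ⟨q, hq⟩ := h7
        have hp : p = q * r + 1 := by rw [mul_comm] at hq; omega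
        subst hp
        refine ⟨q, ⟨⟨?_, ?_⟩, ?_, h3⟩, rfl⟩
        · by_contra hlt
          push Not at hlt
          have : (q + 1) * r ≤ x * r := Nat.mul_le_mul_right r hlt
          rw [Nat.add_mul, one_mul] at this
          omega
        · by_contra hge
          push Not at hge
          have : (2 * x) * r ≤ q * r := Nat.mul_le_mul_right r hge
          have h8 : q * r ≤ (2 * x - 1) * r := by omega
          have h9 := Nat.le_of_mul_le_mul_right h8 hr
          omega
        · have h8 : q * r ≡ z * r [MOD r * W] := Nat.ModEq.add_right_cancel' 1 h5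
          rw [mul_comm q r, mul_comm z r] at h8
          have h9 := Nat.ModEq.mul_left_cancel' (by omega) h8
          have : q % W = z % W := h9
          rw [this, Nat.mod_eq_of_lt hz]
    · rintro (⟨⟨h1, h2⟩, h3, h4⟩ | ⟨q, ⟨⟨h1, h2⟩, h3, h4⟩, rfl⟩)
      · refine ⟨⟨h1, h2.trans ?_⟩, h3, h4⟩
        calc x * r ≤ (2 * x - 1) * r := Nat.mul_le_mul_right r (by omega)
          _ ≤ _ := Nat.le_succ _
      · refine ⟨⟨by omega, Nat.succ_le_succ (Nat.mul_le_mul_right r (by omega))⟩, h4, ?_⟩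
        refine Nat.ModEq.trans ?_ (Nat.mod_modEq _ _).symm
        refine Nat.ModEq.add_right 1 ?_
        rw [mul_comm q r, mul_comm z r]
        refine Nat.ModEq.mul_left' r ?_
        have : q % W = z % W := by rw [h3, Nat.mod_eq_of_lt hz]
        exact this
  have hd : Disjoint ((Icc 1 (x * r)).filter P)
      (((Ico x (2 * x)).filter (fun q => q % W = z ∧ (q * r + 1).Prime)).image (fun q => q * r + 1)) := by
    rw [disjoint_left]
    intro p hp hp'
    rw [mem_filter, mem_Icc] at hp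
    rw [mem_image] at hp'
    obtain ⟨q, hq, rfl⟩ := hp'
    rw [mem_filter, mem_Ico] at hq
    have : x * r ≤ q * r := Nat.mul_le_mul_right r hq.1.1
    omega
  have e2 := congrArg card e
  rw [card_union_of_disjoint hd, card_image_of_injective _ (fun a b h => by
    have h' : a * r = b * r := Nat.succ_injective h
    exact Nat.eq_of_mul_eq_mul_right hr h')] at e2
  exact e2.symm

end Pool.Agent.NH16.DL
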