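import Pool.Agent.NH16.DL.B10

set_option autoImplicit false
set_option linter.unusedSectionVars false
set_option linter.unusedVariables false

/-!
# Sets and tuples
-/

namespace Pool.Agent.NH16.DL

open Finset Filter Topology
open scoped BigOperators
open Pool.Agent.W218.MU (wD SD ND SD_hasProd)

/-- the image of a tuple of indices -/
def im {R m : ℕ} (r : Fin m → Fin R) : Finset ℕ := univ.image (fun i => vl (r i))

lemma im_mem {R m : ℕ} {r : Fin m → Fin R} (h : Function.Injective r) : im r ∈ (Icc 1 R).powersetCard m := by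
  rw [mem_powersetCard]
  refine ⟨fun t ht => ?_, card_image_inj (inj_vl h)⟩
  unfold im at ht
  rw [mem_image] at ht
  obtain ⟨i, _, rfl⟩ := ht
  exact mem_Icc.2 ⟨vl_pos _, vl_le _⟩

lemma exists_im {R m : ℕ} {T : Finset ℕ} (hT : T ∈ (Icc 1 R).powersetCard m) :
    ∃ r : Fin m → Fin R, Function.Injective r ∧ im r = T := by
  rw [mem_powersetCard] at hT
  obtain ⟨h1, h2⟩ := hT
  have e : Fin m ≃ T := (finCongr h2.symm).trans (T.equivFin).symm
  have hb : ∀ i, 1 ≤ (e i : ℕ) ∧ (e i : ℕ) ≤ R := fun i => mem_Icc.1 (h1 (e i).2)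
  refine ⟨fun i => ⟨(e i : ℕ) - 1, by have := hb i; omega⟩, ?_, ?_⟩
  · intro i j hij
    have h3 : (e i : ℕ) - 1 = (e j : ℕ) - 1 := congrArg Fin.val hij
    have h4 := hb i
    have h5 := hb j
    exact e.injective (Subtype.ext (by omega))
  · unfold im
    ext t
    rw [mem_image]
    constructor
    · rintro ⟨i, _, rfl⟩
      unfold vl
      have := hb i
      simp only
      rw [Nat.sub_add_cancel this.1]
      exact (e i).2
    · intro ht
      refine ⟨e.symm ⟨t, ht⟩, mem_univ _, ?_⟩
      unfold vl
      simp only [Equiv.apply_symm_apply]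
      have := (mem_Icc.1 (h1 ht)).1
      omega

open Classical in
/-- sums over sets are bounded by sums over injective tuples -/
lemma sum_sets_le {R m : ℕ} (φ : Finset ℕ → ℝ) (h0 : ∀ T, 0 ≤ φ T) :
    ∑ T ∈ (Icc 1 R).powersetCard m, φ T ≤
      ∑ r : Fin m → Fin R, (if Function.Injective r then φ (im r) else 0) := by
  have h1 : ∀ T ∈ (Icc 1 R).powersetCard m, φ T ≤
      ∑ r ∈ univ.filter (fun r : Fin m → Fin R => im r = T), (if Function.Injective r then φ (im r) else 0) := by
    intro T hT
    obtain ⟨r, hr1, hr2⟩ := exists_im hT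
    have h2 : r ∈ univ.filter (fun r : Fin m → Fin R => im r = T) := by
      rw [mem_filter]; exact ⟨mem_univ _, hr2⟩
    refine le_trans (le_of_eq ?_) (single_le_sum (f := fun r : Fin m → Fin R =>
      if Function.Injective r then φ (im r) else 0) (fun r _ => by split_ifs; exacts [h0 _, le_rfl]) h2)
    rw [if_pos hr1, hr2]
  refine (sum_le_sum h1).trans ?_
  refine sum_fiberwise_le_sum_of_sum_fiber_nonneg fun T _ => sum_nonneg fun r _ => ?_
  split_ifs
  exacts [h0 _, le_rfl]

lemma fiber_card {R m : ℕ} {T : Finset ℕ} (hT : T.card = m) :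
    (univ.filter (fun r : Fin m → Fin R => im r = T)).card ≤ m ^ m := by
  classical
  set T' : Finset (Fin R) := univ.filter (fun s => vl s ∈ T) with hT'
  have h1 : univ.filter (fun r : Fin m → Fin R => im r = T) ⊆ Fintype.piFinset (fun _ : Fin m => T') := by
    intro r hr
    rw [mem_filter] at hr
    rw [Fintype.mem_piFinset]
    intro i
    rw [hT', mem_filter]
    refine ⟨mem_univ _, ?_⟩
    rw [← hr.2]
    exact mem_image_of_mem _ (mem_univ i)
  have h2 : T'.card ≤ m := by
    rw [← hT]
    refine card_le_card_of_injOn vl (fun s hs => ?_) (vl_inj.injOn)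
    rw [hT', coe_filter, Set.mem_ofPred_eq] at hs
    exact hs.2
  refine (card_le_card h1).trans ?_
  rw [Fintype.card_piFinset_const]
  exact Nat.pow_le_pow_left h2 m

open Classical in
/-- sums over injective tuples are bounded by sums over sets -/
lemma sum_inj_le {R m : ℕ} (φ : Finset ℕ → ℝ) (h0 : ∀ T, 0 ≤ φ T) :
    ∑ r : Fin m → Fin R, (if Function.Injective r then φ (im r) else 0) ≤
      (m : ℝ) ^ m * ∑ T ∈ (Icc 1 R).powersetCard m, φ T := by
  rw [← sum_filter, ← sum_fiberwise_of_maps_to (t := (Icc 1 R).powersetCard m) (g := im)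
    (fun r hr => im_mem (mem_filter.1 hr).2), mul_sum]
  refine sum_le_sum fun T hT => ?_
  calc _ = ∑ r ∈ (univ.filter (fun r : Fin m → Fin R => Function.Injective r)).filter (fun r => im r = T), φ T :=
        sum_congr rfl fun r hr => by rw [(mem_filter.1 hr).2]
    _ = (((univ.filter (fun r : Fin m → Fin R => Function.Injective r)).filter
          (fun r => im r = T)).card : ℝ) * φ T := by rw [sum_const, nsmul_eq_mul]
    _ ≤ _ := by
        refine mul_le_mul_of_nonneg_right ?_ (h0 T)
        have h1 : ((univ.filter (fun r : Fin m → Fin R => Function.Injective r)).filter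
          (fun r => im r = T)).card ≤ m ^ m := by
          refine (card_le_card ?_).trans (fiber_card (R := R) (mem_powersetCard.1 hT).2)
          exact filter_subset_filter _ (subset_univ _)
        exact_mod_cast h1

/-- the average over `q` of a product is the count -/
lemma exp_fx {R x m : ℕ} (r : Fin m → Fin R) :
    𝔼 q, ∏ i, fx R x (r i) q = Real.log x ^ m * ND x (im r) / x := by
  classical
  have h1 : ∀ q : Fin x, ∏ i, fx R x (r i) q =
      (if ∀ t ∈ im r, ((x + q) * t + 1).Prime then Real.log x ^ m else 0) := by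
    intro q
    by_cases h : ∀ t ∈ im r, ((x + q) * t + 1).Prime
    · rw [if_pos h]
      have : ∀ i, fx R x (r i) q = Real.log x := by
        intro i
        unfold fx
        rw [if_pos (h _ (mem_image_of_mem _ (mem_univ i)))]
      rw [prod_congr rfl fun i _ => this i, prod_const, card_univ, Fintype.card_fin]
    · rw [if_neg h]
      push Not at h
      obtain ⟨t, ht, hp⟩ := h
      unfold im at ht
      rw [mem_image] at ht
      obtain ⟨i, _, rfl⟩ := ht
      refine prod_eq_zero (mem_univ i) ?_
      unfold fx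
      rw [if_neg hp]
  rw [Fintype.expect_eq_sum_div_card, Fintype.card_fin]
  congr 1
  rw [sum_congr rfl fun q _ => h1 q,
    sum_shift' x (fun n => if ∀ t ∈ im r, (n * t + 1).Prime then Real.log x ^ m else 0),
    ← sum_filter, sum_const, nsmul_eq_mul, mul_comm]
  rfl

/-- the mean error over the sets of `m` elements -/
noncomputable def DD (m x R : ℕ) : ℝ :=
  (1 / (R : ℝ) ^ m) * ∑ T ∈ (Icc 1 R).powersetCard m, |(ND x T : ℝ) / (x / Real.log x ^ m) - SD T|

open Classical in
/-- the mean error over the injective tuples -/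
noncomputable def DI (m x R : ℕ) : ℝ :=
  𝔼 r : Fin m → Fin R, if Function.Injective r then |𝔼 q, ∏ i, fx R x (r i) q - SD (im r)| else 0

lemma err_eq {R x m : ℕ} (hx : 0 < Real.log x) (r : Fin m → Fin R) :
    |𝔼 q, ∏ i, fx R x (r i) q - SD (im r)| = |(ND x (im r) : ℝ) / (x / Real.log x ^ m) - SD (im r)| := by
  rw [exp_fx]
  congr 2
  field_simp

lemma DD_le_DI {m x R : ℕ} (hx : 0 < Real.log x) : DD m x R ≤ DI m x R := by
  classical
  have h := sum_sets_le (R := R) (m := m) (fun T => |(ND x T : ℝ) / (x / Real.log x ^ m) - SD T|)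
    (fun T => abs_nonneg _)
  have e : DI m x R = (1 / (R : ℝ) ^ m) * ∑ r : Fin m → Fin R, (if Function.Injective r then
      |(ND x (im r) : ℝ) / (x / Real.log x ^ m) - SD (im r)| else 0) := by
    unfold DI
    rw [Fintype.expect_eq_sum_div_card, Fintype.card_fun, Fintype.card_fin, Fintype.card_fin]
    push_cast
    rw [div_eq_mul_one_div, mul_comm]
    congr 1
    refine sum_congr rfl fun r _ => ?_
    rw [err_eq hx]
  rw [e]
  exact mul_le_mul_of_nonneg_left h (by positivity)

lemma DI_le_DD {m x R : ℕ} (hx : 0 < Real.log x) : DI m x R ≤ (m : ℝ) ^ m * DD m x R := by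
  classical
  have h := sum_inj_le (R := R) (m := m) (fun T => |(ND x T : ℝ) / (x / Real.log x ^ m) - SD T|)
    (fun T => abs_nonneg _)
  have e : DI m x R = (1 / (R : ℝ) ^ m) * ∑ r : Fin m → Fin R, (if Function.Injective r then
      |(ND x (im r) : ℝ) / (x / Real.log x ^ m) - SD (im r)| else 0) := by
    unfold DI
    rw [Fintype.expect_eq_sum_div_card, Fintype.card_fun, Fintype.card_fin, Fintype.card_fin]
    push_cast
    rw [div_eq_mul_one_div, mul_comm]
    congr 1
    refine sum_congr rfl fun r _ => ?_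
    rw [err_eq hx]
  rw [e]
  calc _ ≤ (1 / (R : ℝ) ^ m) * ((m : ℝ) ^ m * ∑ T ∈ (Icc 1 R).powersetCard m,
        |(ND x T : ℝ) / (x / Real.log x ^ m) - SD T|) := mul_le_mul_of_nonneg_left h (by positivity)
    _ = _ := by unfold DD; ring

end Pool.Agent.NH16.DL
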