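import Pool.Agent.NH16.DL.C1

set_option autoImplicit false
set_option linter.unusedSectionVars false
set_option linter.unusedVariables false

/-!
# Choice of the parameters, and the counting theorem for the primes `q r + 1`
-/

namespace Pool.Agent.NH16.DL

open Finset Filter Topology
open scoped BigOperators
open Pool.Agent.W218.MU (wD SD ND SD_hasProd)

lemma vpow_div (j : ℕ) : Tendsto (fun w : ℕ => (Vv w)⁻¹ ^ j / w) atTop (𝓝 0) := by
  have h1 : Tendsto (fun x : ℝ => Real.log x ^ (j : ℝ) / x ^ (1 : ℝ)) atTop (𝓝 0) :=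
    (isLittleO_log_rpow_rpow_atTop (j : ℝ) (by norm_num)).tendsto_div_nhds_zero
  have h2 := (h1.comp tendsto_natCast_atTop_atTop).const_mul (4 ^ j : ℝ)
  rw [mul_zero] at h2
  refine squeeze_zero' (Eventually.of_forall fun w => by
    have := Vv_pos w
    positivity) ?_ h2
  filter_upwards [Vv_bounds, eventually_ge_atTop 1] with w hw hw1
  have hwp : (0 : ℝ) < w := by exact_mod_cast hw1
  simp only [Function.comp]
  rw [Real.rpow_natCast, Real.rpow_one, mul_div_assoc']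
  refine div_le_div_of_nonneg_right ?_ hwp.le
  rw [← mul_pow]
  exact pow_le_pow_left₀ (inv_nonneg.2 (Vv_pos w).le) hw.2 j

lemma exp_sub_one_le {t : ℝ} (h0 : 0 ≤ t) (h1 : t ≤ 1) : Real.exp t - 1 ≤ 2 * t := by
  have := Real.abs_exp_sub_one_sub_id_le (x := t) (by rw [abs_of_nonneg h0]; exact h1)
  have h2 := (abs_le.1 this).2
  nlinarith

lemma vpow_exp (j : ℕ) {c : ℝ} (hc : 0 ≤ c) :
    Tendsto (fun w : ℕ => (Vv w)⁻¹ ^ j * (Real.exp (c / w) - 1)) atTop (𝓝 0) := by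
  have h2 := (vpow_div j).const_mul (2 * c)
  rw [mul_zero] at h2
  refine squeeze_zero' (Eventually.of_forall fun w => ?_) ?_ h2
  · have := Vv_pos w
    have h3 : 1 ≤ Real.exp (c / w) := Real.one_le_exp (by positivity)
    have h4 : 0 ≤ Real.exp (c / w) - 1 := by linarith
    positivity
  · filter_upwards [(tendsto_natCast_atTop_atTop (R := ℝ)).eventually_ge_atTop c, eventually_ge_atTop 1] with w hw hw1
    have hwp : (0 : ℝ) < w := by exact_mod_cast hw1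
    have h3 := exp_sub_one_le (t := c / w) (by positivity) (by rw [div_le_one hwp]; exact hw)
    calc _ ≤ (Vv w)⁻¹ ^ j * (2 * (c / w)) :=
          mul_le_mul_of_nonneg_left h3 (pow_nonneg (inv_nonneg.2 (Vv_pos w).le) j)
      _ = _ := by ring

/-- the error from the primes above `w` -/
noncomputable def XX (m w : ℕ) : ℝ := (Vv w)⁻¹ ^ m * ((m + 2 * m * m) *
  (Real.exp ((1 + 3 ^ m) ^ (m + m * m) / w) - 1) + (m : ℝ) ^ 2 / w)

lemma XX_nonneg (m w : ℕ) : 0 ≤ XX m w := by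
  unfold XX
  have h1 : 1 ≤ Real.exp ((1 + 3 ^ m) ^ (m + m * m) / w) := Real.one_le_exp (by positivity)
  have h2 : 0 ≤ Real.exp ((1 + 3 ^ m) ^ (m + m * m) / w) - 1 := by linarith
  have := Vv_pos w
  positivity

lemma XX_tendsto (m j : ℕ) : Tendsto (fun w : ℕ => (Vv w)⁻¹ ^ j * XX m w) atTop (𝓝 0) := by
  have h1 := (vpow_exp (j + m) (c := (1 + 3 ^ m) ^ (m + m * m)) (by positivity)).const_mul
    ((m : ℝ) + 2 * m * m)
  have h2 := (vpow_div (j + m)).const_mul ((m : ℝ) ^ 2)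
  have h3 := h1.add h2
  rw [mul_zero, mul_zero, add_zero] at h3
  refine h3.congr fun w => ?_
  unfold XX
  rw [pow_add]
  ring

lemma Kpow (C j : ℕ) (hC : 1 ≤ C) : Tendsto (fun b : ℕ => (2 / ke C b) ^ j * (1 / 2 : ℝ) ^ b) atTop (𝓝 0) := by
  have h1 := (tendsto_pow_const_mul_const_pow_of_abs_lt_one j (r := (1 / 2 : ℝ))
    (by rw [abs_of_pos] <;> norm_num)).const_mul ((20 * (C : ℝ)) ^ j)
  rw [mul_zero] at h1
  refine squeeze_zero' (Eventually.of_forall fun b => by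
    have := ke_pos C b
    positivity) ?_ h1
  filter_upwards [eventually_ge_atTop 1] with b hb
  rw [← mul_assoc, ← mul_pow]
  refine mul_le_mul_of_nonneg_right (pow_le_pow_left₀ (by have := ke_pos C b; positivity) ?_ j) (by positivity)
  unfold ke
  have hC1 : (1 : ℝ) ≤ C := by exact_mod_cast hC
  have hb1 : (1 : ℝ) ≤ b := by exact_mod_cast hb
  have : (1 : ℝ) ≤ C * b := by nlinarith
  rw [div_div_eq_mul_div, div_one]
  nlinarith

/-- the standing conditions -/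
structure GD (M w y x R : ℕ) (K θ η lam : ℝ) : Prop where
  hR : 1 ≤ R
  hx : 1 ≤ x
  hwy : w ≤ y
  hFL : ∀ m ≤ M, FL w y x θ η m
  hV : (Vv y)⁻¹ ≤ R
  hlam : (Vv y)⁻¹ / R ≤ lam
  hf : ∀ (s : Fin R) (q : Fin x), fx R x s q ≤ K * gx R x y s q
  hlog : 1 ≤ Real.log x

theorem GD_ev (M : ℕ) : ∃ C : ℕ, 1 ≤ C ∧ ∀ b : ℕ, C ≤ b → ∀ η : ℝ, 0 < η → ∀ lam : ℝ, 0 < lam →
    ∃ b0 : ℝ, 1 ≤ b0 ∧ ∀ w : ℕ, ∀ᶠ x : ℕ in atTop, ∀ R : ℕ, b0 * Real.log x ≤ R →
      GD M w (yx C b x) x R (2 / ke C b) (3 * (1 / 2 : ℝ) ^ b) η lam := by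
  obtain ⟨C, hC, h⟩ := FL_ev M
  refine ⟨C, hC, fun b hb η hη lam hlam => ⟨4 / min lam 1 , ?_, fun w => ?_⟩⟩
  · rw [le_div_iff₀ (by positivity)]
    have := min_le_right lam 1
    linarith
  have hlog : Tendsto (fun x : ℕ => Real.log (x : ℝ)) atTop atTop :=
    Real.tendsto_log_atTop.comp tendsto_natCast_atTop_atTop
  have hm0 : 0 < min lam 1 := lt_min hlam one_pos
  filter_upwards [h b hb η hη, fx_le C b, (yx_tendsto C b).eventually_ge_atTop w,
    (yx_tendsto C b).eventually Vv_bounds, yx_log C b, hlog.eventually_ge_atTop 1, eventually_ge_atTop 1]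
    with x h1 h2 h3 h4 h5 h6 h7 R hR
  have hke1 : ke C b ≤ 1 := by
    unfold ke
    rw [div_le_one (by positivity)]
    have : (0 : ℝ) ≤ 4 * (C : ℝ) * b := by positivity
    linarith
  have hL : (Vv (yx C b x))⁻¹ ≤ 4 * Real.log x := by
    have : Real.log (yx C b x) ≤ Real.log x := h5.2.trans (by nlinarith)
    linarith [h4.2]
  rw [div_mul_eq_mul_div, div_le_iff₀ hm0] at hR
  have hR0 : (0 : ℝ) < R := by
    by_contra hcon
    have : (R : ℝ) * min lam 1 ≤ 0 := mul_nonpos_of_nonpos_of_nonneg (not_lt.1 hcon) hm0.le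
    linarith
  have hR1 : 1 ≤ R := by exact_mod_cast (Nat.cast_pos.1 hR0)
  refine ⟨hR1, h7, h3, fun m hm => h1 m hm w h3, ?_, ?_, fun s q => h2 R s q, h6⟩
  · have : (R : ℝ) * min lam 1 ≤ R * 1 := mul_le_mul_of_nonneg_left (min_le_right _ _) hR0.le
    linarith
  · rw [div_le_iff₀ hR0]
    have : (R : ℝ) * min lam 1 ≤ R * lam := mul_le_mul_of_nonneg_left (min_le_left _ _) hR0.le
    linarith

/-- the mean square condition -/
def Cut (w x R : ℕ) (ε : ℝ) : Prop := ∀ b : Fin R → ℝ, (∀ s, |b s| ≤ 1) →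
  𝔼 q : Fin x, (𝔼 s, b s * (fx R x s q - gx R x w s q)) ^ 2 ≤ ε

lemma MB_mono {R x : ℕ} {ν g : Fin R → Fin x → ℝ} {B B' : ℝ} {m : ℕ} (h : MB ν g B m) (hB : B ≤ B') :
    MB ν g B' m := fun a => (h a).trans hB

/-- **counting theorem for the primes `q r + 1`** -/
theorem count_GD {n M w y x R : ℕ} {K θ η lam ε : ℝ} (h : GD M w y x R K θ η lam) (hM : 2 * n + 2 ≤ M)
    (hw : 2 * n + 2 ≤ w) (hK : 1 ≤ K) (hθ0 : 0 ≤ θ) (hθ : θ ≤ 1) (hη0 : 0 ≤ η) (hη : η ≤ 1)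
    (hcut : Cut w x R ε) :
    𝔼 r : Fin (n + 1) → Fin R, |𝔼 q, ∏ i, fx R x (r i) q - 𝔼 q, ∏ i, gx R x w (r i) q| ≤
      (n + 1) * (K ^ n * Real.sqrt ((BB n + BB 2) * ((Vv w)⁻¹ ^ n * ε + 8 * K ^ 2 *
        Real.sqrt ((BB n + BB 2) * tau (2 * n + 2) w θ η lam)))) := by
  have hne : Nonempty (Fin R) := ⟨⟨0, h.hR⟩⟩
  have hnx : Nonempty (Fin x) := ⟨⟨0, h.hx⟩⟩
  have hMB := MB_of_FL h.hR h.hx h.hwy hθ hη hη0 h.hV h.hFL
  have hPR := PR_of_FL (m := 2 * n + 2) h.hR h.hx h.hwy hθ0 hθ hη hη0 h.hV h.hlam (by omega) (by omega) hw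
    (fun m' hm' => h.hFL m' (hm'.trans hM))
  have hb1 := one_le_BB n
  have hb2 := one_le_BB 2
  have e : n + n + 1 + 1 = 2 * n + 2 := by ring
  refine counting (ν := gx R x y) (g := gx R x w) (by linarith) (fun s q => ?_) (fun s q => ?_)
    (gx_nonneg R x y) (gx_nonneg R x w) (gx_le R x w) (by linarith) ?_
    (MB_mono (hMB n (by omega)) (by linarith)) (MB_mono (hMB 2 (by omega)) (by linarith)) ?_ hcut
  · rw [abs_of_nonneg (fx_nonneg R x s q)]
    exact h.hf s q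
  · rw [abs_of_nonneg (gx_nonneg R x w s q)]
    have := gx_nonneg R x w s q
    nlinarith
  · unfold tau
    have h1 : 1 ≤ Real.exp ((1 + 3 ^ (2 * n + 2)) ^ ((2 * n + 2) + (2 * n + 2) * (2 * n + 2)) / w) :=
      Real.one_le_exp (by positivity)
    have h2 : 0 ≤ (Vv w)⁻¹ ^ (2 * n + 2) * ((((2 * n + 2 : ℕ) : ℝ) + 2 * ((2 * n + 2 : ℕ) : ℝ) * ((2 * n + 2 : ℕ) : ℝ)) *
        (Real.exp ((1 + 3 ^ (2 * n + 2)) ^ ((2 * n + 2) + (2 * n + 2) * (2 * n + 2)) / w) - 1) +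
        ((2 * n + 2 : ℕ) : ℝ) ^ 2 / w) := XX_nonneg (2 * n + 2) w
    have h3 : 0 ≤ lam := le_trans (div_nonneg (inv_nonneg.2 (Vv_pos y).le) (Nat.cast_nonneg R)) h.hlam
    have h4 := one_le_BB (2 * n + 2 - 1)
    have h5 := one_le_c1 (2 * n + 2)
    have h6 : 0 ≤ 2 * θ * c1 (2 * n + 2) := by positivity
    have h7 : 0 ≤ 2 * (((2 * n + 2 : ℕ) : ℝ) * ((2 * n + 2 : ℕ) : ℝ) * (lam * BB (2 * n + 2 - 1))) := by
      have : 0 ≤ BB (2 * n + 2 - 1) := by linarith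
      positivity
    linarith
  · rw [e]
    exact hPR

/-- the choice of the parameters of the counting theorem -/
lemma choose_bound {n : ℕ} {K B A τ ε δ : ℝ} (hK : 0 < K) (hB : 0 < B) (hδ : 0 < δ) (hτ : 0 ≤ τ)
    (h1 : A ^ n * ε ≤ (δ / (n + 1)) ^ 2 / (2 * B * K ^ (2 * n)))
    (h2 : τ ≤ (δ / (n + 1)) ^ 4 / (256 * B ^ 3 * K ^ (4 * n + 4))) :
    (n + 1) * (K ^ n * Real.sqrt (B * (A ^ n * ε + 8 * K ^ 2 * Real.sqrt (B * τ)))) ≤ δ := by
  set d := δ / (n + 1) with hd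
  have hn : (0 : ℝ) < n + 1 := by positivity
  have hd0 : 0 < d := by positivity
  have hBτ : Real.sqrt (B * τ) ≤ d ^ 2 / (16 * B * K ^ (2 * n + 2)) := by
    rw [← Real.sqrt_sq (by positivity : 0 ≤ d ^ 2 / (16 * B * K ^ (2 * n + 2)))]
    refine Real.sqrt_le_sqrt ?_
    calc B * τ ≤ B * (d ^ 4 / (256 * B ^ 3 * K ^ (4 * n + 4))) := mul_le_mul_of_nonneg_left h2 hB.le
      _ = (d ^ 2 / (16 * B * K ^ (2 * n + 2))) ^ 2 := by
          rw [show 4 * n + 4 = (2 * n + 2) * 2 by ring, pow_mul]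
          field_simp
          norm_num
  have h3 : A ^ n * ε + 8 * K ^ 2 * Real.sqrt (B * τ) ≤ d ^ 2 / (B * K ^ (2 * n)) := by
    calc _ ≤ d ^ 2 / (2 * B * K ^ (2 * n)) + 8 * K ^ 2 * (d ^ 2 / (16 * B * K ^ (2 * n + 2))) :=
          add_le_add h1 (mul_le_mul_of_nonneg_left hBτ (by positivity))
      _ = _ := by
          rw [pow_add K (2 * n) 2]
          field_simp
          norm_num
  have h4 : Real.sqrt (B * (A ^ n * ε + 8 * K ^ 2 * Real.sqrt (B * τ))) ≤ d / K ^ n := by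
    rw [← Real.sqrt_sq (by positivity : 0 ≤ d / K ^ n)]
    refine Real.sqrt_le_sqrt ?_
    calc _ ≤ B * (d ^ 2 / (B * K ^ (2 * n))) := mul_le_mul_of_nonneg_left h3 hB.le
      _ = _ := by
          rw [mul_comm 2 n, pow_mul]
          field_simp
  calc _ ≤ (n + 1) * (K ^ n * (d / K ^ n)) :=
        mul_le_mul_of_nonneg_left (mul_le_mul_of_nonneg_left h4 (by positivity)) hn.le
    _ = δ := by
        rw [hd]
        field_simp

end Pool.Agent.NH16.DL
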