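import Pool.Agent.NH16.DL.C2

set_option autoImplicit false
set_option linter.unusedSectionVars false
set_option linter.unusedVariables false

/-!
# From the mean error over the sets to the mean square condition
-/

namespace Pool.Agent.NH16.DL

open Finset Filter Topology
open scoped BigOperators
open Pool.Agent.W218.MU (wD SD ND SD_hasProd)

lemma pp_f_le {R x y : ℕ} {K : ℝ} (hf : ∀ (s : Fin R) (q : Fin x), fx R x s q ≤ K * gx R x y s q) (w : ℕ)
    {m : ℕ} (r : Fin m → Fin R) (q : Fin x) :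
    ∏ i, fx R x (r i) q ≤ K ^ m * pp (gx R x y) (gx R x w) (tt m) r q := by
  unfold pp
  have e : K ^ m * ∏ i, pt (gx R x y) (gx R x w) (tt m i) (r i) q = ∏ i, K * gx R x y (r i) q := by
    rw [prod_mul_distrib, prod_const, card_univ, Fintype.card_fin]
    rfl
  rw [e]
  exact prod_le_prod (fun i _ => fx_nonneg _ _ _ _) fun i _ => hf _ _

lemma pp_ff {R x : ℕ} (y w : ℕ) {m : ℕ} (r : Fin m → Fin R) (q : Fin x) :
    pp (gx R x y) (gx R x w) (ff m) r q = ∏ i, gx R x w (r i) q := rfl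

/-- from the injective tuples to all tuples -/
theorem all_tuples {m M M' w y y' x R : ℕ} {K K' θ θ' η η' lam lam' : ℝ} (h : GD M w y x R K θ η lam)
    (h' : GD M' w y' x R K' θ' η' lam') (hm : m + 1 ≤ M) (hm' : m + 1 ≤ M') (hw : m + 1 ≤ w) (hK : 0 ≤ K)
    (hθ : θ ≤ 1) (hη0 : 0 ≤ η) (hη : η ≤ 1) (hθ0' : 0 ≤ θ') (hη0' : 0 ≤ η') :
    𝔼 r : Fin (m + 1) → Fin R, |𝔼 q, ∏ i, fx R x (r i) q - 𝔼 q, ∏ i, gx R x w (r i) q| ≤
      DI (m + 1) x R + (θ' * c1 (m + 1) + η' + XX (m + 1) w) +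
        ((m + 1) * m * (lam * BB m)) * (K ^ (m + 1) + 1) := by
  classical
  have hne : Nonempty (Fin R) := ⟨⟨0, h.hR⟩⟩
  have hnx : Nonempty (Fin x) := ⟨⟨0, h.hx⟩⟩
  have hMB := MB_of_FL h.hR h.hx h.hwy hθ hη hη0 h.hV h.hFL
  have hav := avg_SD (x := x) h.hR h'.hwy hθ0' hη0' (m := m + 1) (by omega) hw (h'.hFL (m + 1) hm')
  set X : (Fin (m + 1) → Fin R) → ℝ := fun r => 𝔼 q, ∏ i, fx R x (r i) q with hX
  set Z : (Fin (m + 1) → Fin R) → ℝ := fun r => 𝔼 q, ∏ i, gx R x w (r i) q with hZ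
  set Yt : (Fin (m + 1) → Fin R) → ℝ := fun r => 𝔼 q, pp (gx R x y) (gx R x w) (tt (m + 1)) r q with hYt
  have hX0 : ∀ r, 0 ≤ X r := fun r => expect_nonneg fun q _ => prod_nonneg fun i _ => fx_nonneg _ _ _ _
  have hZ0 : ∀ r, 0 ≤ Z r := fun r => expect_nonneg fun q _ => prod_nonneg fun i _ => gx_nonneg _ _ _ _ _
  have hXY : ∀ r, X r ≤ K ^ (m + 1) * Yt r := by
    intro r
    simp only [hX, hYt]
    rw [mul_expect]
    exact expect_le_expect fun q _ => pp_f_le h.hf w r q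
  have hY0 : ∀ r, 0 ≤ Yt r := fun r => expect_nonneg fun q _ => pp_nn R x w y _ r q
  -- pointwise bound
  have h1 : ∀ r : Fin (m + 1) → Fin R, |X r - Z r| ≤
      ((if Function.Injective r then |X r - SD (im r)| else 0) +
        (if Function.Injective r then |Z r - SD (im r)| else 0)) +
      (∑ i, ∑ k : Fin m, (if r i = r (i.succAbove k) then K ^ (m + 1) * Yt r else 0) +
        ∑ i, ∑ k : Fin m, (if r i = r (i.succAbove k) then Z r else 0)) := by
    intro r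
    have hs1 : 0 ≤ ∑ i, ∑ k : Fin m, (if r i = r (i.succAbove k) then K ^ (m + 1) * Yt r else 0) :=
      sum_nonneg fun i _ => sum_nonneg fun k _ => by
        split_ifs
        exacts [mul_nonneg (pow_nonneg hK _) (hY0 r), le_rfl]
    have hs2 : 0 ≤ ∑ i, ∑ k : Fin m, (if r i = r (i.succAbove k) then Z r else 0) :=
      sum_nonneg fun i _ => sum_nonneg fun k _ => by split_ifs; exacts [hZ0 r, le_rfl]
    by_cases hinj : Function.Injective r
    · rw [if_pos hinj, if_pos hinj]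
      have := abs_sub_le (X r) (SD (im r)) (Z r)
      rw [abs_sub_comm (SD (im r)) (Z r)] at this
      linarith
    · rw [if_neg hinj, if_neg hinj]
      have k1 := le_coinc r (mul_nonneg (pow_nonneg hK (m + 1)) (hY0 r)) le_rfl (fun h => absurd h hinj)
      have k2 := le_coinc r (hZ0 r) le_rfl (fun h => absurd h hinj)
      refine (abs_sub _ _).trans ?_
      rw [abs_of_nonneg (hX0 r), abs_of_nonneg (hZ0 r)]
      linarith [hXY r]
  refine (expect_le_expect fun r _ => h1 r).trans ?_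
  have hc : ∀ (c : ℝ), 0 ≤ c → ∀ (a : Fin (m + 1) → Bool), 𝔼 r : Fin (m + 1) → Fin R, ∑ i, ∑ k : Fin m,
      (if r i = r (i.succAbove k) then c * 𝔼 q, pp (gx R x y) (gx R x w) a r q else 0) ≤
      ((m + 1) * m * (lam * BB m)) * c := by
    intro c hc a
    rw [expect_sum_comm]
    have hB0 : 0 ≤ BB m := zero_le_one.trans (one_le_BB m)
    calc _ ≤ ∑ _i : Fin (m + 1), ∑ _k : Fin m, c * (lam * BB m) := by
          refine sum_le_sum fun i _ => ?_
          rw [expect_sum_comm]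
          refine sum_le_sum fun k _ => ?_
          have e : ∀ r : Fin (m + 1) → Fin R, (if r i = r (i.succAbove k) then
              c * 𝔼 q, pp (gx R x y) (gx R x w) a r q else 0) =
              c * (if r i = r (i.succAbove k) then 𝔼 q, pp (gx R x y) (gx R x w) a r q else 0) := by
            intro r; split_ifs
            · rfl
            · rw [mul_zero]
          simp only [e, ← mul_expect]
          refine mul_le_mul_of_nonneg_left ?_ hc
          refine (coinc h.hR h.hwy a i k (hMB m (by omega))).trans ?_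
          exact mul_le_mul_of_nonneg_right h.hlam hB0
      _ = _ := by
          simp only [sum_const, card_univ, Fintype.card_fin, nsmul_eq_mul]
          push_cast
          ring
  have hc1 := hc (K ^ (m + 1)) (pow_nonneg hK _) (tt (m + 1))
  have hc2 := hc 1 zero_le_one (ff (m + 1))
  simp only [one_mul, pp_ff] at hc2
  simp only [expect_add_distrib]
  have hav' : 𝔼 r : Fin (m + 1) → Fin R, (if Function.Injective r then |Z r - SD (im r)| else 0) ≤
      θ' * c1 (m + 1) + η' + XX (m + 1) w := hav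
  have hDI : 𝔼 r : Fin (m + 1) → Fin R, (if Function.Injective r then |X r - SD (im r)| else 0) =
      DI (m + 1) x R := rfl
  have hc1' : 𝔼 r : Fin (m + 1) → Fin R, ∑ i, ∑ k : Fin m,
      (if r i = r (i.succAbove k) then K ^ (m + 1) * Yt r else 0) ≤
      ((m + 1) * m * (lam * BB m)) * K ^ (m + 1) := hc1
  have hc2' : 𝔼 r : Fin (m + 1) → Fin R, ∑ i, ∑ k : Fin m,
      (if r i = r (i.succAbove k) then Z r else 0) ≤
      ((m + 1) * m * (lam * BB m)) * 1 := hc2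
  linarith

lemma add_pow_le' (a b : ℝ) (ha : 0 ≤ a) (hb : 0 ≤ b) (j : ℕ) : (a + b) ^ j ≤ 2 ^ j * (a ^ j + b ^ j) := by
  rcases le_total a b with h | h
  · calc (a + b) ^ j ≤ (2 * b) ^ j := pow_le_pow_left₀ (by linarith) (by linarith) j
      _ = 2 ^ j * b ^ j := mul_pow _ _ _
      _ ≤ _ := mul_le_mul_of_nonneg_left (by have := pow_nonneg ha j; linarith) (by positivity)
  · calc (a + b) ^ j ≤ (2 * a) ^ j := pow_le_pow_left₀ (by linarith) (by linarith) j
      _ = 2 ^ j * a ^ j := mul_pow _ _ _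
      _ ≤ _ := mul_le_mul_of_nonneg_left (by have := pow_nonneg hb j; linarith) (by positivity)

/-- moments -/
theorem moments {j M w y x R : ℕ} {K θ η lam : ℝ} (h : GD M w y x R K θ η lam) (hj : j ≤ M) (hK : 0 ≤ K)
    (hθ : θ ≤ 1) (hη0 : 0 ≤ η) (hη : η ≤ 1) :
    𝔼 q : Fin x, (𝔼 s, fx R x s q + 𝔼 s, gx R x w s q) ^ j ≤ 2 ^ j * ((K ^ j + 1) * BB j) := by
  have hne : Nonempty (Fin R) := ⟨⟨0, h.hR⟩⟩
  have hnx : Nonempty (Fin x) := ⟨⟨0, h.hx⟩⟩
  have hMB := MB_of_FL h.hR h.hx h.hwy hθ hη hη0 h.hV h.hFL j hj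
  have h1 : 𝔼 q : Fin x, (𝔼 s, fx R x s q) ^ j ≤ K ^ j * BB j := by
    rw [exp_pow_tuple]
    calc _ ≤ 𝔼 r : Fin j → Fin R, 𝔼 q, K ^ j * pp (gx R x y) (gx R x w) (tt j) r q :=
          expect_le_expect fun r _ => expect_le_expect fun q _ => pp_f_le h.hf w r q
      _ = K ^ j * 𝔼 r : Fin j → Fin R, 𝔼 q, pp (gx R x y) (gx R x w) (tt j) r q := by
          simp only [mul_expect]
      _ ≤ _ := mul_le_mul_of_nonneg_left (hMB (tt j)) (pow_nonneg hK j)
  have h2 : 𝔼 q : Fin x, (𝔼 s, gx R x w s q) ^ j ≤ BB j := by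
    rw [exp_pow_tuple]
    exact hMB (ff j)
  calc _ ≤ 𝔼 q : Fin x, 2 ^ j * ((𝔼 s, fx R x s q) ^ j + (𝔼 s, gx R x w s q) ^ j) :=
        expect_le_expect fun q _ => add_pow_le' _ _ (expect_nonneg fun s _ => fx_nonneg _ _ _ _)
          (expect_nonneg fun s _ => gx_nonneg _ _ _ _ _) j
    _ = 2 ^ j * (𝔼 q : Fin x, (𝔼 s, fx R x s q) ^ j + 𝔼 q : Fin x, (𝔼 s, gx R x w s q) ^ j) := by
        rw [← mul_expect, expect_add_distrib]
    _ ≤ _ := by
        refine mul_le_mul_of_nonneg_left ?_ (by positivity)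
        rw [add_mul, one_mul]
        exact add_le_add h1 h2

/-- the model has large sums over `s` -/
theorem G_ge (w : ℕ) : ∃ R0 : ℕ, ∀ R : ℕ, R0 ≤ R → ∀ (x : ℕ) (q : Fin x), 1 / 2 ≤ 𝔼 s, gx R x w s q := by
  classical
  obtain ⟨C0, K0, hC0, hK0, hfl⟩ := Pool.Agent.TH892.SW.fl_set 1
  set b := max C0 2 with hb
  set y := max w 2 with hy
  set E : ℝ := ((Pool.Agent.W41.JJ y : ℝ) + 2) * ((y : ℝ) ^ (2 * (C0 * b)) * (K0 * (y : ℝ) ^ (2 * (C0 * b)))) with hE
  have hE0 : 0 ≤ E := by positivity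
  obtain ⟨R0, hR0⟩ := exists_nat_ge (4 * E * (Vv w)⁻¹ + 1)
  refine ⟨R0, fun R hR x q => ?_⟩
  have hVp := Vv_pos w
  have hRr : 4 * E * (Vv w)⁻¹ + 1 ≤ (R : ℝ) := hR0.trans (by exact_mod_cast hR)
  have hRp : (0 : ℝ) < R := by
    have : 0 ≤ 4 * E * (Vv w)⁻¹ := by positivity
    linarith
  set Pr : ℝ := ∏ p ∈ PP w, (1 - (((range p).filter (fun a => p ∣ (x + q) * a + 1)).card : ℝ) / p) with hPr
  have h : |(((Icc 1 R).filter (fun n => ∀ p ∈ PP w, ¬ p ∣ (x + q) * (n % p) + 1)).card : ℝ) - R * Pr| ≤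
      (1 / 2 : ℝ) ^ b * (R * Pr) + E := by
    have h0 := hfl b (le_max_left _ _) y (le_max_right _ _) R (PP w) (fun p a => p ∣ (x + q) * a + 1) (fun p hp => by
      rw [mem_PP] at hp
      refine ⟨hp.1, hp.2.trans (le_max_left _ _), ?_⟩
      have root' : ((range p).filter (fun a => p ∣ (x + q) * a + 1)).card ≤ 1 := by
        refine le_trans (card_le_card (fun t ht => ?_)) (root_le ((x : ℕ) + q) hp.1)
        exact mem_filter.2 ⟨(mem_filter.1 ht).1, by rw [mul_comm]; exact (mem_filter.1 ht).2⟩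
      convert root')
    convert h0
  have hPr1 : Vv w ≤ Pr := by
    rw [hPr]
    unfold Vv
    refine prod_le_prod (fun p hp => (fac_pos (mem_PP.1 hp).1).le) fun p hp => ?_
    have hp' := (mem_PP.1 hp).1
    have hpp : (0 : ℝ) < p := by exact_mod_cast hp'.pos
    have : (((range p).filter (fun a => p ∣ (x + q) * a + 1)).card : ℝ) ≤ 1 := by
      have := root_le ((x : ℕ) + q) hp'
      have e : (range p).filter (fun a => p ∣ (x + q) * a + 1) = (range p).filter (fun t => p ∣ t * (x + q) + 1) := by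
        ext t
        rw [mem_filter, mem_filter, mul_comm]
      rw [e]
      exact_mod_cast this
    have := div_le_div_of_nonneg_right this hpp.le
    linarith
  have e1 : 𝔼 s, gx R x w s q = (Vv w)⁻¹ *
      (((Icc 1 R).filter (fun n => ∀ p ∈ PP w, ¬ p ∣ (x + q) * (n % p) + 1)).card : ℝ) / R := by
    rw [Fintype.expect_eq_sum_div_card, Fintype.card_fin]
    congr 1
    have : ∀ s : Fin R, gx R x w s q = (fun n => if ∀ p ∈ PP w, ¬ p ∣ (x + q) * (n % p) + 1 then (Vv w)⁻¹ else 0) (vl s) := by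
      intro s
      unfold gx Gf
      have : (∀ p ∈ PP w, ¬ p ∣ ((x : ℕ) + q) * vl s + 1) ↔ (∀ p ∈ PP w, ¬ p ∣ (x + q) * (vl s % p) + 1) := by
        refine forall₂_congr fun p _ => not_congr ?_
        rw [← Nat.modEq_zero_iff_dvd, ← Nat.modEq_zero_iff_dvd]
        have h : ((x : ℕ) + q) * (vl s % p) + 1 ≡ (x + q) * vl s + 1 [MOD p] :=
          ((Nat.mod_modEq (vl s) p).mul_left _).add_right _
        exact ⟨fun h1 => h.trans h1, fun h1 => h.symm.trans h1⟩
      simp only [this]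
    rw [sum_congr rfl fun s _ => this s,
      sum_vl (fun n => if ∀ p ∈ PP w, ¬ p ∣ (x + q) * (n % p) + 1 then (Vv w)⁻¹ else 0),
      ← sum_filter, sum_const, nsmul_eq_mul, mul_comm]
  rw [e1]
  have h2 := (abs_le.1 h).1
  have hb2 : (1 / 2 : ℝ) ^ b ≤ 1 / 4 := by
    calc (1 / 2 : ℝ) ^ b ≤ (1 / 2 : ℝ) ^ 2 := pow_le_pow_of_le_one (by norm_num) (by norm_num) (le_max_right _ _)
      _ = 1 / 4 := by norm_num
  have h3 : 3 / 4 * (R * Vv w) - E ≤
      (((Icc 1 R).filter (fun n => ∀ p ∈ PP w, ¬ p ∣ (x + q) * (n % p) + 1)).card : ℝ) := by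
    have k1 : 0 ≤ (R : ℝ) * Pr := mul_nonneg hRp.le (hVp.le.trans hPr1)
    have k2 : (1 / 2 : ℝ) ^ b * (R * Pr) ≤ 1 / 4 * (R * Pr) := mul_le_mul_of_nonneg_right hb2 k1
    have k3 : (R : ℝ) * Vv w ≤ R * Pr := mul_le_mul_of_nonneg_left hPr1 hRp.le
    linarith
  rw [le_div_iff₀ hRp]
  have h4 := mul_le_mul_of_nonneg_left h3 (inv_nonneg.2 hVp.le)
  have e2 : (Vv w)⁻¹ * (3 / 4 * (R * Vv w) - E) = 3 / 4 * R - E * (Vv w)⁻¹ := by
    field_simp
  rw [e2] at h4
  linarith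

/-- the Siegel-Walfisz input, averaged over `s` -/
theorem SW_ev (w : ℕ) (hw : 1 ≤ w) {C : ℝ} (hC : 0 ≤ C) {δ η : ℝ} (hδ : 0 < δ) (hδ1 : δ ≤ 1) (hη : 0 < η) :
    ∀ᶠ x : ℕ in atTop, ∀ R : ℕ, 1 ≤ R → (R : ℝ) ≤ Real.log x ^ C → ∀ ψ : ℕ → ℝ, (∀ z, |ψ z| ≤ 1) →
      ∀ b : Fin R → ℝ, (∀ s, |b s| ≤ 1) →
      |𝔼 q : Fin x, ψ ((x + q) % Wn w) * 𝔼 s, b s * (fx R x s q - Gf w (vl s) ((x + q) % Wn w))| ≤
        (Vv w)⁻¹ * ((1 + δ) * Real.exp (3 / w) - 1) + η := by
  classical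
  filter_upwards [sw_dil w hC hδ hδ1 hη] with x hx R hR hRC ψ hψ b hb
  have hne : Nonempty (Fin R) := ⟨⟨0, hR⟩⟩
  have hRp : (0 : ℝ) < R := by exact_mod_cast hR
  have e1 : 𝔼 q : Fin x, ψ ((x + q) % Wn w) * 𝔼 s, b s * (fx R x s q - Gf w (vl s) ((x + q) % Wn w)) =
      𝔼 s, b s * 𝔼 q : Fin x, ψ ((x + q) % Wn w) *
        ((if ((x + q) * vl s + 1).Prime then Real.log x else 0) - Gf w (vl s) (x + q)) := by
    simp only [mul_expect]
    rw [exp_comm]
    refine expect_congr rfl fun s _ => expect_congr rfl fun q _ => ?_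
    rw [Gf_mod]
    unfold fx
    ring
  rw [e1]
  calc _ ≤ 𝔼 s : Fin R, ((Vv w)⁻¹ * ((1 + δ) * sg w 3 (vl s) - 1) + η) := by
        refine (abs_expect_le _ _).trans (expect_le_expect fun s _ => ?_)
        rw [abs_mul]
        have h1 := hx (vl s) (vl_pos s) (le_trans (by exact_mod_cast vl_le s) hRC) ψ hψ
        calc _ ≤ 1 * _ := mul_le_mul_of_nonneg_right (hb s) (abs_nonneg _)
          _ ≤ _ := by
              rw [one_mul]
              convert h1
    _ = (Vv w)⁻¹ * ((1 + δ) * 𝔼 s : Fin R, sg w 3 (vl s) - 1) + η := by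
        rw [expect_add_distrib, ← mul_expect, expect_sub_distrib, ← mul_expect, Fintype.expect_const,
          Fintype.expect_const]
    _ ≤ _ := by
        have h2 : 𝔼 s : Fin R, sg w 3 (vl s) ≤ Real.exp (3 / w) := by
          rw [exp_vl, div_le_iff₀ hRp, mul_comm]
          exact sum_sg hw (by norm_num) R
        have h3 := mul_le_mul_of_nonneg_left h2 (by linarith : (0 : ℝ) ≤ 1 + δ)
        have h4 := mul_le_mul_of_nonneg_left (sub_le_sub_right h3 1) (inv_nonneg.2 (Vv_pos w).le)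
        linarith

end Pool.Agent.NH16.DL
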