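import Pool.Agent.NH16.DL.C3

set_option autoImplicit false
set_option linter.unusedSectionVars false
set_option linter.unusedVariables false

/-!
# From the mean square condition to the mean error over the sets
-/

namespace Pool.Agent.NH16.DL

open Finset Filter Topology
open scoped BigOperators
open Pool.Agent.W218.MU (wD SD ND SD_hasProd)

lemma small {A c : ℝ} (hA : 0 < A) (hc : 0 ≤ c) : ∃ t : ℝ, 0 < t ∧ t ≤ 1 ∧ c * t ≤ A := by
  refine ⟨min 1 (A / (c + 1)), lt_min one_pos (by positivity), min_le_left _ _, ?_⟩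
  calc c * min 1 (A / (c + 1)) ≤ c * (A / (c + 1)) := mul_le_mul_of_nonneg_left (min_le_right _ _) hc
    _ ≤ (c + 1) * (A / (c + 1)) := mul_le_mul_of_nonneg_right (by linarith) (by positivity)
    _ = A := by field_simp

lemma ke_le_one (C b : ℕ) : ke C b ≤ 1 := by
  unfold ke
  rw [div_le_one (by positivity)]
  have : (0 : ℝ) ≤ 4 * (C : ℝ) * b := by positivity
  linarith

lemma K_ge (C b : ℕ) : 1 ≤ 2 / ke C b := by
  rw [le_div_iff₀ (ke_pos C b)]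
  have := ke_le_one C b
  linarith

lemma theta_le {b : ℕ} (hb : 2 ≤ b) : 3 * (1 / 2 : ℝ) ^ b ≤ 1 := by
  have : (1 / 2 : ℝ) ^ b ≤ (1 / 2 : ℝ) ^ 2 := pow_le_pow_of_le_one (by norm_num) (by norm_num) hb
  linarith [this, show (1 / 2 : ℝ) ^ 2 = 1 / 4 by norm_num]

lemma DI_le {n M w y x R : ℕ} {K θ η lam : ℝ} (h : GD M w y x R K θ η lam) (hθ0 : 0 ≤ θ) (hη0 : 0 ≤ η)
    (hM : n + 1 ≤ M) (hw : n + 1 ≤ w) :
    DI (n + 1) x R ≤ 𝔼 r : Fin (n + 1) → Fin R, |𝔼 q, ∏ i, fx R x (r i) q - 𝔼 q, ∏ i, gx R x w (r i) q| +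
      (θ * c1 (n + 1) + η + XX (n + 1) w) := by
  classical
  have hav := avg_SD (x := x) h.hR h.hwy hθ0 hη0 (m := n + 1) (by omega) hw (h.hFL (n + 1) hM)
  unfold DI
  have h1 : ∀ r : Fin (n + 1) → Fin R,
      (if Function.Injective r then |𝔼 q, ∏ i, fx R x (r i) q - SD (im r)| else 0) ≤
      |𝔼 q, ∏ i, fx R x (r i) q - 𝔼 q, ∏ i, gx R x w (r i) q| +
      (if Function.Injective r then |𝔼 q, ∏ i, gx R x w (r i) q - SD (im r)| else 0) := by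
    intro r
    split_ifs
    · exact abs_sub_le _ _ _
    · have := abs_nonneg (𝔼 q, ∏ i, fx R x (r i) q - 𝔼 q, ∏ i, gx R x w (r i) q)
      linarith
  refine (expect_le_expect fun r _ => h1 r).trans ?_
  rw [expect_add_distrib]
  exact add_le_add le_rfl hav

theorem half (n C : ℕ) (hC : 1 ≤ C) {δ : ℝ} (hδ : 0 < δ) : ∃ b : ℕ, C ≤ b ∧ 2 ≤ b ∧ ∃ c2 : ℝ, 0 < c2 ∧ c2 ≤ 1 ∧
    ∃ w0 : ℕ, ∀ w : ℕ, w0 ≤ w → ∃ η : ℝ, 0 < η ∧ η ≤ 1 ∧ ∃ lam0 : ℝ, 0 < lam0 ∧ ∀ lam : ℝ, 0 < lam → lam ≤ lam0 →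
      ∀ M x R : ℕ, 2 * n + 2 ≤ M →
        GD M w (yx C b x) x R (2 / ke C b) (3 * (1 / 2 : ℝ) ^ b) η lam →
        Cut w x R (c2 * (Vv w) ^ n) → DD (n + 1) x R ≤ δ := by
  set B := BB n + BB 2 with hB
  have hB1 : 1 ≤ B := by have := one_le_BB n; have := one_le_BB 2; linarith
  set m0 := 2 * n + 2 with hm0
  set d : ℝ := (δ / 2) / (n + 1) with hd
  have hd0 : 0 < d := by positivity
  have hc1 := one_le_c1 m0
  have hc1' := one_le_c1 (n + 1)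
  -- the choice of `b`
  have hA0 : 0 < min (d ^ 4 / (256 * B ^ 3) / (24 * c1 m0)) (δ / (24 * c1 (n + 1))) := by
    refine lt_min (by positivity) (by positivity)
  have hev : ∀ᶠ b : ℕ in atTop, (2 / ke C b) ^ (4 * n + 4) * (1 / 2 : ℝ) ^ b <
      min (d ^ 4 / (256 * B ^ 3) / (24 * c1 m0)) (δ / (24 * c1 (n + 1))) :=
    (Kpow C (4 * n + 4) hC).eventually (gt_mem_nhds hA0)
  obtain ⟨b, hb1, hb2, hb3⟩ := (hev.and ((eventually_ge_atTop C).and (eventually_ge_atTop 2))).exists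
  set K := 2 / ke C b with hK
  have hK1 : 1 ≤ K := K_ge C b
  have hKp : 0 < K := by linarith
  set t := d ^ 4 / (256 * B ^ 3 * K ^ (4 * n + 4)) with ht
  have ht0 : 0 < t := by positivity
  have hθt : 2 * (3 * (1 / 2 : ℝ) ^ b) * c1 m0 ≤ t / 4 := by
    have h1 : K ^ (4 * n + 4) * (1 / 2 : ℝ) ^ b ≤ d ^ 4 / (256 * B ^ 3) / (24 * c1 m0) :=
      hb1.le.trans (min_le_left _ _)
    rw [le_div_iff₀ (by positivity)] at h1
    have h2 : (2 * (3 * (1 / 2 : ℝ) ^ b) * c1 m0) * K ^ (4 * n + 4) ≤ d ^ 4 / (256 * B ^ 3) / 4 := by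
      nlinarith
    have h3 : t / 4 = d ^ 4 / (256 * B ^ 3) / 4 / K ^ (4 * n + 4) := by
      rw [ht]; field_simp
    rw [h3, le_div_iff₀ (by positivity)]
    exact h2
  have hθδ : (3 * (1 / 2 : ℝ) ^ b) * c1 (n + 1) ≤ δ / 8 := by
    have h1 : K ^ (4 * n + 4) * (1 / 2 : ℝ) ^ b ≤ δ / (24 * c1 (n + 1)) := hb1.le.trans (min_le_right _ _)
    have h2 : (1 / 2 : ℝ) ^ b ≤ K ^ (4 * n + 4) * (1 / 2 : ℝ) ^ b :=
      le_mul_of_one_le_left (by positivity) (one_le_pow₀ hK1)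
    have h3 := h2.trans h1
    rw [le_div_iff₀ (by positivity)] at h3
    nlinarith
  refine ⟨b, hb2, hb3, min 1 (d ^ 2 / (2 * B * K ^ (2 * n))), lt_min one_pos (by positivity), min_le_left _ _, ?_⟩
  -- the choice of `w`
  have hw1 : ∀ᶠ w : ℕ in atTop, (Vv w)⁻¹ ^ 0 * XX m0 w < t / 4 :=
    (XX_tendsto m0 0).eventually (gt_mem_nhds (by positivity))
  have hw2 : ∀ᶠ w : ℕ in atTop, (Vv w)⁻¹ ^ 0 * XX (n + 1) w < δ / 8 :=
    (XX_tendsto (n + 1) 0).eventually (gt_mem_nhds (by positivity))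
  obtain ⟨w0, hw0⟩ := eventually_atTop.1 ((hw1.and hw2).and (eventually_ge_atTop m0))
  refine ⟨w0, fun w hw => ?_⟩
  obtain ⟨⟨hwa, hwb⟩, hwc⟩ := hw0 w hw
  rw [pow_zero, one_mul] at hwa hwb
  have hη0 : 0 < min 1 (min (t / 8) (δ / 8)) := by positivity
  have hBm := one_le_BB (m0 - 1)
  obtain ⟨lam0, hl0, hl1, hl2⟩ := small (A := t / 4) (c := 2 * ((m0 : ℝ) * m0 * BB (m0 - 1)))
    (by positivity) (by positivity)
  refine ⟨min 1 (min (t / 8) (δ / 8)), hη0, min_le_left _ _, lam0, hl0,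
    fun lam hlam hlam0 M x R hM hGD hcut => ?_⟩
  set η := min 1 (min (t / 8) (δ / 8)) with hη
  have hη1 : η ≤ 1 := min_le_left _ _
  have hηt : η ≤ t / 8 := (min_le_right _ _).trans (min_le_left _ _)
  have hηδ : η ≤ δ / 8 := (min_le_right _ _).trans (min_le_right _ _)
  have hθ0 : (0 : ℝ) ≤ 3 * (1 / 2 : ℝ) ^ b := by positivity
  have hLx : 0 < Real.log x := by linarith [hGD.hlog]
  refine (DD_le_DI hLx).trans ((DI_le hGD hθ0 hη0.le (by omega) (by omega)).trans ?_)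
  have hcount := count_GD hGD hM hwc hK1 hθ0 (theta_le hb3) hη0.le hη1 hcut
  have hVw := Vv_pos w
  have hτ : tau m0 w (3 * (1 / 2 : ℝ) ^ b) η lam ≤ t := by
    unfold tau
    have e : (Vv w)⁻¹ ^ m0 * (((m0 : ℝ) + 2 * m0 * m0) * (Real.exp ((1 + 3 ^ m0) ^ (m0 + m0 * m0) / w) - 1) +
      (m0 : ℝ) ^ 2 / w) = XX m0 w := rfl
    rw [e]
    have k1 : 2 * ((m0 : ℝ) * m0 * (lam * BB (m0 - 1))) ≤ t / 4 := by
      calc _ = 2 * ((m0 : ℝ) * m0 * BB (m0 - 1)) * lam := by ring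
        _ ≤ 2 * ((m0 : ℝ) * m0 * BB (m0 - 1)) * lam0 := mul_le_mul_of_nonneg_left hlam0 (by positivity)
        _ ≤ t / 4 := hl2
    linarith
  have hτ0 : 0 ≤ tau m0 w (3 * (1 / 2 : ℝ) ^ b) η lam := by
    unfold tau
    have e : (Vv w)⁻¹ ^ m0 * (((m0 : ℝ) + 2 * m0 * m0) * (Real.exp ((1 + 3 ^ m0) ^ (m0 + m0 * m0) / w) - 1) +
      (m0 : ℝ) ^ 2 / w) = XX m0 w := rfl
    rw [e]
    have := XX_nonneg m0 w
    positivity
  have hA : (Vv w)⁻¹ ^ n * (min 1 (d ^ 2 / (2 * B * K ^ (2 * n))) * Vv w ^ n) ≤ d ^ 2 / (2 * B * K ^ (2 * n)) := by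
    have e : (Vv w)⁻¹ ^ n * (min 1 (d ^ 2 / (2 * B * K ^ (2 * n))) * Vv w ^ n) =
        min 1 (d ^ 2 / (2 * B * K ^ (2 * n))) := by
      rw [inv_pow]; field_simp
    rw [e]
    exact min_le_right _ _
  have hfin := choose_bound (n := n) (δ := δ / 2) hKp (by linarith : 0 < B) (by positivity) hτ0 hA hτ
  have : 𝔼 r : Fin (n + 1) → Fin R, |𝔼 q, ∏ i, fx R x (r i) q - 𝔼 q, ∏ i, gx R x w (r i) q| ≤ δ / 2 :=
    hcount.trans hfin
  linarith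

end Pool.Agent.NH16.DL
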