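import Pool.Agent.NH16.DL.C4

set_option autoImplicit false
set_option linter.unusedSectionVars false
set_option linter.unusedVariables false

/-!
# From the mean error over the sets of one size to all sizes
-/

namespace Pool.Agent.NH16.DL

open Finset Filter Topology
open scoped BigOperators
open Pool.Agent.W218.MU (wD SD ND SD_hasProd)

lemma sqrt_bound {k' : ℕ} {Φ M' κ : ℝ} (hM : 0 ≤ M') (hκ0 : 0 ≤ κ) (hκ1 : κ ≤ 1) (hΦ : Φ ≤ κ ^ 2) :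
    2 ^ k' * (Φ + k' * Real.sqrt (2 ^ k' * Φ * M')) ≤ 2 ^ k' * (1 + k' * Real.sqrt (2 ^ k' * M')) * κ := by
  have h1 : Real.sqrt (2 ^ k' * Φ * M') ≤ Real.sqrt (2 ^ k' * M') * κ := by
    rw [← Real.sqrt_sq hκ0, ← Real.sqrt_mul (by positivity)]
    refine Real.sqrt_le_sqrt ?_
    have : 2 ^ k' * Φ * M' ≤ 2 ^ k' * κ ^ 2 * M' := by
      refine mul_le_mul_of_nonneg_right (mul_le_mul_of_nonneg_left hΦ (by positivity)) hM
    linarith
  have h2 : Φ ≤ κ := hΦ.trans (by nlinarith)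
  have h3 : (k' : ℝ) * Real.sqrt (2 ^ k' * Φ * M') ≤ k' * (Real.sqrt (2 ^ k' * M') * κ) :=
    mul_le_mul_of_nonneg_left h1 (Nat.cast_nonneg _)
  calc _ ≤ 2 ^ k' * (κ + k' * (Real.sqrt (2 ^ k' * M') * κ)) :=
        mul_le_mul_of_nonneg_left (add_le_add h2 h3) (by positivity)
    _ = _ := by ring

/-- the mean square condition from the mean error over the tuples of `k' + 2` elements -/
theorem cut_of_DI {k' M M' w y y' x R : ℕ} {K K' θ θ' η η' lam lam' δs : ℝ} (h : GD M w y x R K θ η lam)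
    (h' : GD M' w y' x R K' θ' η' lam') (hM : 2 * k' + 2 ≤ M) (hM' : k' + 2 ≤ M') (hw : k' + 2 ≤ w) (hK : 0 ≤ K)
    (hθ : θ ≤ 1) (hη0 : 0 ≤ η) (hη : η ≤ 1) (hθ0' : 0 ≤ θ') (hη0' : 0 ≤ η') (hδs : 0 ≤ δs)
    (hG : ∀ q : Fin x, 1 / 2 ≤ 𝔼 s, gx R x w s q)
    (hSW : ∀ ψ : ℕ → ℝ, (∀ z, |ψ z| ≤ 1) → ∀ b : Fin R → ℝ, (∀ s, |b s| ≤ 1) →
      |𝔼 q : Fin x, ψ ((x + q) % Wn w) * 𝔼 s, b s * (fx R x s q - Gf w (vl s) ((x + q) % Wn w))| ≤ δs)
    {κ : ℝ} (hκ0 : 0 ≤ κ) (hκ1 : κ ≤ 1)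
    (hΦ : (DI (k' + 2) x R + (θ' * c1 (k' + 2) + η' + XX (k' + 2) w) +
      ((k' + 2) * (k' + 1) * (lam * BB (k' + 1))) * (K ^ (k' + 2) + 1)) +
        (k' + 2) * (Vv w)⁻¹ ^ (k' + 1) * δs ≤ κ ^ 2) :
    Cut w x R (2 ^ k' * (1 + k' * Real.sqrt (2 ^ k' * (2 ^ (2 * k' + 2) * ((K ^ (2 * k' + 2) + 1) *
      BB (2 * k' + 2))))) * κ) := by
  intro b hb
  have hne : Nonempty (Fin R) := ⟨⟨0, h.hR⟩⟩
  have hnx : Nonempty (Fin x) := ⟨⟨0, h.hx⟩⟩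
  have hall := all_tuples (m := k' + 1) h h' (by omega) (by omega) (by omega) hK hθ hη0 hη hθ0' hη0'
  have hmom := moments h hM hK hθ hη0 hη
  have hgm : ∀ (s : Fin R) (q : Fin x), Gf w (vl s) ((x + q) % Wn w) = gx R x w s q := fun s q => Gf_mod _ _ _
  set F := DI (k' + 2) x R + (θ' * c1 (k' + 2) + η' + XX (k' + 2) w) +
      ((k' + 2) * (k' + 1) * (lam * BB (k' + 1))) * (K ^ (k' + 2) + 1) with hF
  have hFF : 𝔼 r : Fin (k' + 2) → Fin R, |𝔼 q, ∏ i, fx R x (r i) q - 𝔼 q, ∏ i, gx R x w (r i) q| ≤ F := by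
    refine hall.trans (le_of_eq ?_)
    rw [hF]
    push_cast
    ring
  have hF0 : 0 ≤ F := le_trans (expect_nonneg fun r _ => abs_nonneg _) hFF
  have hpc := power_cut (ρ := Fin R) (κ := Fin x) (γ := ℕ) (f := fx R x) (fun q => (x + q) % Wn w)
    (fun s z => Gf w (vl s) z) (A := (Vv w)⁻¹) (δ := δs) (ε := F)
    (M := 2 ^ (2 * k' + 2) * ((K ^ (2 * k' + 2) + 1) * BB (2 * k' + 2))) (n := k')
    (fun s q => fx_nonneg R x s q) (fun s z => Gf_nonneg _ _ _) (fun s z => Gf_le _ _ _)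
    (inv_pos.2 (Vv_pos w)) (fun q => by simp only [hgm]; exact hG q) hSW
    (by simp only [hgm]; exact hFF) (by simp only [hgm]; exact hmom) hF0 hδs b hb
  simp only [hgm] at hpc
  refine hpc.trans ?_
  have hA : 0 ≤ (Vv w)⁻¹ := inv_nonneg.2 (Vv_pos w).le
  have hBB := one_le_BB (2 * k' + 2)
  have hM0 : 0 ≤ 2 ^ (2 * k' + 2) * ((K ^ (2 * k' + 2) + 1) * BB (2 * k' + 2)) := by
    have : 0 ≤ BB (2 * k' + 2) := by linarith
    positivity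
  refine le_trans ?_ (sqrt_bound (k' := k') hM0 hκ0 hκ1 hΦ)
  refine mul_le_mul_of_nonneg_left ?_ (by positivity)
  refine add_le_add ?_ le_rfl
  have h1 : 0 ≤ (Vv w)⁻¹ ^ (k' + 1) * δs := by positivity
  have h2 : (0 : ℝ) ≤ k' := Nat.cast_nonneg _
  nlinarith

/-- the mean square condition from the mean error over the sets of `k' + 2` elements -/
theorem cut_of_DD (k' C : ℕ) (hC : 1 ≤ C) {K : ℝ} (hK : 1 ≤ K) (n : ℕ) {c2 : ℝ} (hc2 : 0 < c2) (hc21 : c2 ≤ 1) :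
    ∀ᶠ w : ℕ in atTop, ∃ b' : ℕ, C ≤ b' ∧ ∃ η' : ℝ, 0 < η' ∧ η' ≤ 1 ∧ ∃ lam0 : ℝ, 0 < lam0 ∧ ∃ ε : ℝ, 0 < ε ∧
      ∀ D : ℝ, 0 ≤ D → ∃ x0 : ℕ, ∀ x : ℕ, x0 ≤ x → ∀ R : ℕ, Real.log x ≤ R → (R : ℝ) ≤ Real.log x ^ D →
      ∀ (M M' y y' : ℕ) (K' θ η lam lam' : ℝ), lam ≤ lam0 → 0 ≤ lam → θ ≤ 1 → 0 ≤ η → η ≤ 1 →
        GD M w y x R K θ η lam → GD M' w y' x R K' (3 * (1 / 2 : ℝ) ^ b') η' lam' →
        2 * k' + 2 ≤ M → k' + 2 ≤ M' → DD (k' + 2) x R ≤ ε → Cut w x R (c2 * (Vv w) ^ n) := by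
  set M1 : ℝ := 2 ^ (2 * k' + 2) * ((K ^ (2 * k' + 2) + 1) * BB (2 * k' + 2)) with hM1
  have hBB := one_le_BB (2 * k' + 2)
  have hM10 : 0 ≤ M1 := by
    have : 0 ≤ BB (2 * k' + 2) := by linarith
    have : 0 ≤ K := by linarith
    positivity
  set c3 : ℝ := 2 ^ k' * (1 + k' * Real.sqrt (2 ^ k' * M1)) with hc3
  have hc31 : 1 ≤ c3 := by
    have h1 : (1 : ℝ) ≤ 2 ^ k' := one_le_pow₀ (by norm_num)
    have h2 : 0 ≤ (k' : ℝ) * Real.sqrt (2 ^ k' * M1) := by positivity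
    nlinarith
  set c4 : ℝ := (c2 / c3) ^ 2 with hc4
  have hc40 : 0 < c4 := by positivity
  have hw1 : ∀ᶠ w : ℕ in atTop, (Vv w)⁻¹ ^ (2 * n) * XX (k' + 2) w < c4 / 8 :=
    (XX_tendsto (k' + 2) (2 * n)).eventually (gt_mem_nhds (by positivity))
  have hw2 : ∀ᶠ w : ℕ in atTop, (Vv w)⁻¹ ^ (2 * n + (k' + 2)) * (Real.exp (3 / w) - 1) <
      c4 / (8 * (k' + 2)) :=
    (vpow_exp (2 * n + (k' + 2)) (c := 3) (by norm_num)).eventually (gt_mem_nhds (by positivity))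
  filter_upwards [hw1, hw2, eventually_ge_atTop (k' + 2)] with w hwa hwb hwc
  have hVp := Vv_pos w
  set A : ℝ := (Vv w)⁻¹ with hA
  have hAp : 0 < A := inv_pos.2 hVp
  set T : ℝ := c4 * (Vv w) ^ (2 * n) with hT
  have hTp : 0 < T := by positivity
  have hAV : A ^ (2 * n) * (Vv w) ^ (2 * n) = 1 := by
    rw [← mul_pow, hA, inv_mul_cancel₀ hVp.ne', one_pow]
  have hXX : XX (k' + 2) w ≤ T / 8 := by
    have := mul_le_mul_of_nonneg_left hwa.le (pow_nonneg hVp.le (2 * n))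
    calc XX (k' + 2) w = (A ^ (2 * n) * (Vv w) ^ (2 * n)) * XX (k' + 2) w := by rw [hAV, one_mul]
      _ = (Vv w) ^ (2 * n) * (A ^ (2 * n) * XX (k' + 2) w) := by ring
      _ ≤ (Vv w) ^ (2 * n) * (c4 / 8) := this
      _ = T / 8 := by rw [hT]; ring
  have hE : ((k' : ℝ) + 2) * A ^ (k' + 1) * (A * (Real.exp (3 / w) - 1)) ≤ T / 8 := by
    have := mul_le_mul_of_nonneg_left hwb.le (pow_nonneg hVp.le (2 * n))
    have h2 : A ^ (k' + 2) * (Real.exp (3 / w) - 1) ≤ (Vv w) ^ (2 * n) * (c4 / (8 * (k' + 2))) := by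
      calc A ^ (k' + 2) * (Real.exp (3 / w) - 1) =
            (A ^ (2 * n) * (Vv w) ^ (2 * n)) * (A ^ (k' + 2) * (Real.exp (3 / w) - 1)) := by rw [hAV, one_mul]
        _ = (Vv w) ^ (2 * n) * (A ^ (2 * n + (k' + 2)) * (Real.exp (3 / w) - 1)) := by
            rw [pow_add A (2 * n)]; ring
        _ ≤ _ := this
    calc ((k' : ℝ) + 2) * A ^ (k' + 1) * (A * (Real.exp (3 / w) - 1)) =
          ((k' : ℝ) + 2) * (A ^ (k' + 2) * (Real.exp (3 / w) - 1)) := by ring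
      _ ≤ ((k' : ℝ) + 2) * ((Vv w) ^ (2 * n) * (c4 / (8 * (k' + 2)))) :=
          mul_le_mul_of_nonneg_left h2 (by positivity)
      _ = T / 8 := by rw [hT]; field_simp
  -- the parameters
  obtain ⟨ε, hε0, hε1, hε⟩ := small (A := T / 8) (c := ((k' + 2 : ℕ) : ℝ) ^ (k' + 2)) (by positivity) (by positivity)
  have hc1 := one_le_c1 (k' + 2)
  obtain ⟨θ', hθ0', hθ1', hθ'⟩ := small (A := T / 8) (c := c1 (k' + 2)) (by positivity) (by linarith)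
  obtain ⟨η', hη0', hη1', hη'⟩ := small (A := T / 8) (c := 1) (by positivity) (by norm_num)
  have hBB1 := one_le_BB (k' + 1)
  have hBB0 : 0 ≤ BB (k' + 1) := by linarith
  have hK0 : 0 ≤ K := by linarith
  obtain ⟨lam0, hl0, hl1, hl⟩ := small (A := T / 8)
    (c := ((k' + 2) * (k' + 1) * BB (k' + 1)) * (K ^ (k' + 2) + 1)) (by positivity) (by positivity)
  obtain ⟨δ', hd0, hd1, hd⟩ := small (A := T / 8)
    (c := ((k' : ℝ) + 2) * A ^ (k' + 1) * (A * Real.exp (3 / w))) (by positivity) (by positivity)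
  obtain ⟨η2, he0, he1, he⟩ := small (A := T / 8)
    (c := ((k' : ℝ) + 2) * A ^ (k' + 1)) (by positivity) (by positivity)
  have hb' : ∀ᶠ b : ℕ in atTop, 3 * (1 / 2 : ℝ) ^ b < θ' := by
    have h0 : Tendsto (fun b : ℕ => 3 * (1 / 2 : ℝ) ^ b) atTop (𝓝 0) := by
      have := (tendsto_pow_atTop_nhds_zero_of_lt_one (r := (1 / 2 : ℝ)) (by norm_num) (by norm_num)).const_mul 3
      rwa [mul_zero] at this
    exact h0.eventually (gt_mem_nhds hθ0')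
  obtain ⟨b', hb1, hb2⟩ := (hb'.and (eventually_ge_atTop C)).exists
  obtain ⟨R0, hR0⟩ := G_ge w
  refine ⟨b', hb2, η', hη0', hη1', lam0, hl0, ε, hε0, fun D hD => ?_⟩
  have hlog : Tendsto (fun x : ℕ => Real.log (x : ℝ)) atTop atTop :=
    Real.tendsto_log_atTop.comp tendsto_natCast_atTop_atTop
  obtain ⟨x0, hx0⟩ := eventually_atTop.1 ((SW_ev w (by omega) hD hd0 hd1 he0).and
    ((hlog.eventually_ge_atTop (R0 : ℝ)).and (hlog.eventually_ge_atTop 1)))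
  refine ⟨x0, fun x hx R hR1 hR2 M M' y y' K' θ η lam lam' hlam hlam0 hθ hη0 hη h h' hM hM' hDD => ?_⟩
  obtain ⟨hSW, hxR, hx1⟩ := hx0 x hx
  have hR0' : R0 ≤ R := by exact_mod_cast hxR.trans hR1
  have hLx : 0 < Real.log x := by linarith
  set δs : ℝ := (Vv w)⁻¹ * ((1 + δ') * Real.exp (3 / w) - 1) + η2 with hδs
  have hexp : 1 ≤ Real.exp (3 / (w : ℝ)) := Real.one_le_exp (by positivity)
  have hδs0 : 0 ≤ δs := by
    have : 0 ≤ (1 + δ') * Real.exp (3 / w) - 1 := by nlinarith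
    positivity
  set κ : ℝ := c2 * (Vv w) ^ n / c3 with hκ
  have hκ0 : 0 ≤ κ := by positivity
  have hκ1 : κ ≤ 1 := by
    rw [hκ, div_le_one (by linarith)]
    have : (Vv w) ^ n ≤ 1 := pow_le_one₀ hVp.le (Vv_le_one w)
    nlinarith
  have hκT : κ ^ 2 = T := by
    rw [hκ, hT, hc4]
    rw [mul_comm 2 n, pow_mul]
    ring
  have hDI := DI_le_DD (m := k' + 2) (x := x) (R := R) hLx
  have hcut := cut_of_DI (κ := κ) h h' hM hM' hwc hK0 hθ hη0 hη (by positivity : (0 : ℝ) ≤ 3 * (1 / 2 : ℝ) ^ b')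
    hη0'.le hδs0 (fun q => hR0 R hR0' x q) (hSW R h.hR hR2) hκ0 hκ1 ?_
  · have e : c3 * κ = c2 * (Vv w) ^ n := by
      rw [hκ]; field_simp
    rw [← e]
    exact hcut
  · rw [hκT]
    have i1 : DI (k' + 2) x R ≤ T / 8 := by
      refine hDI.trans (le_trans ?_ hε)
      exact mul_le_mul_of_nonneg_left hDD (by positivity)
    have i2 : 3 * (1 / 2 : ℝ) ^ b' * c1 (k' + 2) ≤ T / 8 := by
      refine le_trans ?_ hθ'
      rw [mul_comm]
      exact mul_le_mul_of_nonneg_left hb1.le (by linarith)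
    have i3 : η' ≤ T / 8 := by linarith
    have i4 : ((k' + 2) * (k' + 1) * (lam * BB (k' + 1))) * (K ^ (k' + 2) + 1) ≤ T / 8 := by
      refine le_trans ?_ hl
      calc ((k' : ℝ) + 2) * (k' + 1) * (lam * BB (k' + 1)) * (K ^ (k' + 2) + 1) =
            (((k' : ℝ) + 2) * (k' + 1) * BB (k' + 1)) * (K ^ (k' + 2) + 1) * lam := by ring
        _ ≤ _ := mul_le_mul_of_nonneg_left hlam (by positivity)
    have i5 : ((k' : ℝ) + 2) * (Vv w)⁻¹ ^ (k' + 1) * δs ≤ 3 * (T / 8) := by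
      have e : ((k' : ℝ) + 2) * (Vv w)⁻¹ ^ (k' + 1) * δs =
          ((k' : ℝ) + 2) * A ^ (k' + 1) * (A * (Real.exp (3 / w) - 1)) +
          ((k' : ℝ) + 2) * A ^ (k' + 1) * (A * Real.exp (3 / w)) * δ' +
          ((k' : ℝ) + 2) * A ^ (k' + 1) * η2 := by
        rw [hδs, ← hA]; ring
      rw [e]
      linarith
    linarith

/-- **one length controls all the others, on average** -/
theorem all_lengths (k l : ℕ) (hk : 2 ≤ k) (hl : 1 ≤ l) {δ : ℝ} (hδ : 0 < δ) :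
    ∃ ε : ℝ, 0 < ε ∧ ∃ b0 : ℝ, 1 ≤ b0 ∧ ∀ D : ℝ, 0 ≤ D → ∃ x0 : ℕ, ∀ x : ℕ, x0 ≤ x → ∀ R : ℕ,
      b0 * Real.log x ≤ R → (R : ℝ) ≤ Real.log x ^ D → DD k x R ≤ ε → DD l x R ≤ δ := by
  obtain ⟨k', rfl⟩ : ∃ k', k = k' + 2 := ⟨k - 2, by omega⟩
  obtain ⟨n, rfl⟩ : ∃ n, l = n + 1 := ⟨l - 1, by omega⟩
  set M := 2 * n + 2 * k' + 4 with hM
  obtain ⟨C, hC, hGD⟩ := GD_ev M
  obtain ⟨b, hb1, hb2, c2, hc20, hc21, w0, hw0⟩ := half n C hC hδ
  obtain ⟨w, hw1, hw2⟩ := ((cut_of_DD k' C hC (K_ge C b) n hc20 hc21).and (eventually_ge_atTop w0)).exists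
  obtain ⟨η, hη0, hη1, lam1, hlam1, hhalf⟩ := hw0 w hw2
  obtain ⟨b', hb', η', hη0', hη1', lam0, hlam0, ε, hε, hcut⟩ := hw1
  set lam := min lam1 lam0 with hlam
  have hlamp : 0 < lam := lt_min hlam1 hlam0
  obtain ⟨b1, hb11, hGD1⟩ := hGD b hb1 η hη0 lam hlamp
  obtain ⟨b2, hb21, hGD2⟩ := hGD b' hb' η' hη0' lam hlamp
  refine ⟨ε, hε, max b1 b2, le_trans hb11 (le_max_left _ _), fun D hD => ?_⟩
  obtain ⟨x1, hx1⟩ := hcut D hD
  have hlog : Tendsto (fun x : ℕ => Real.log (x : ℝ)) atTop atTop :=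
    Real.tendsto_log_atTop.comp tendsto_natCast_atTop_atTop
  obtain ⟨x2, hx2⟩ := eventually_atTop.1 (((hGD1 w).and (hGD2 w)).and (hlog.eventually_ge_atTop 1))
  refine ⟨max x1 x2, fun x hx R hR1 hR2 hDD => ?_⟩
  obtain ⟨⟨g1, g2⟩, hL⟩ := hx2 x (le_trans (le_max_right _ _) hx)
  have hLx : 0 ≤ Real.log x := by linarith
  have r1 : b1 * Real.log x ≤ R := le_trans (mul_le_mul_of_nonneg_right (le_max_left _ _) hLx) hR1
  have r2 : b2 * Real.log x ≤ R := le_trans (mul_le_mul_of_nonneg_right (le_max_right _ _) hLx) hR1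
  have r0 : Real.log x ≤ R := le_trans (by nlinarith) r1
  have hc := hx1 x (le_trans (le_max_left _ _) hx) R r0 hR2 M M _ _ _ _ _ _ _ (min_le_right _ _) hlamp.le
    (theta_le hb2) hη0.le hη1 (g1 R r1) (g2 R r2) (by omega) (by omega) hDD
  exact hhalf lam hlamp (min_le_left _ _) M x R (by omega) (g1 R r1) hc

end Pool.Agent.NH16.DL
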