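import Pool.Agent.NH16.DL.C5

set_option autoImplicit false
set_option linter.unusedSectionVars false
set_option linter.unusedVariables false

/-!
# From upper bounds for the pairs, on average over subsets, to all sizes
-/

namespace Pool.Agent.NH16.DL

open Finset Filter Topology
open scoped BigOperators
open Pool.Agent.W218.MU (wD SD ND SD_hasProd)

/-- convex functions on the cube -/
lemma cube_max {ι : Type*} [Fintype ι] [DecidableEq ι] (Q : (ι → ℝ) → ℝ) (hQ : ConvexOn ℝ Set.univ Q) {c : ℝ}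
    (h : ∀ A : Finset ι, Q (fun i => if i ∈ A then 1 else 0) ≤ c) (b : ι → ℝ) (hb : ∀ i, 0 ≤ b i ∧ b i ≤ 1) :
    Q b ≤ c := by
  have hmem : b ∈ convexHull ℝ (Set.univ.pi fun _ : ι => ({0, 1} : Set ℝ)) := by
    rw [convexHull_pi]
    intro i _
    rw [convexHull_pair, segment_eq_Icc zero_le_one]
    exact hb i
  obtain ⟨z, hz, hzz⟩ := (hQ.subset (Set.subset_univ _) (convex_convexHull ℝ _)).exists_ge_of_mem_convexHull
    (subset_convexHull ℝ _) hmem
  refine hzz.trans ?_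
  have e : z = fun i => if i ∈ univ.filter (fun i => z i = 1) then 1 else 0 := by
    funext i
    have := hz i (Set.mem_univ i)
    rw [Set.mem_insert_iff, Set.mem_singleton_iff] at this
    rcases this with h0 | h0
    · rw [if_neg (by rw [mem_filter]; rintro ⟨_, h1⟩; rw [h0] at h1; exact zero_ne_one h1), h0]
    · rw [if_pos (by rw [mem_filter]; exact ⟨mem_univ _, h0⟩), h0]
  rw [e]
  exact h _

variable {ρ κ : Type*} [Fintype ρ] [Fintype κ]

lemma convex_sq (h : ρ → κ → ℝ) : ConvexOn ℝ Set.univ (fun b : ρ → ℝ => 𝔼 q, (𝔼 s, b s * h s q) ^ 2) := by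
  refine ⟨convex_univ, fun u _ v _ a b ha hb hab => ?_⟩
  simp only [smul_eq_mul, Pi.add_apply, Pi.smul_apply]
  rw [mul_expect, mul_expect, ← expect_add_distrib]
  refine expect_le_expect fun q _ => ?_
  have e : 𝔼 s, (a * u s + b * v s) * h s q = a * 𝔼 s, u s * h s q + b * 𝔼 s, v s * h s q := by
    rw [mul_expect, mul_expect, ← expect_add_distrib]
    exact expect_congr rfl fun s _ => by ring
  rw [e]
  have hb' : b = 1 - a := by linarith
  subst hb'
  nlinarith [mul_nonneg ha hb, sq_nonneg (𝔼 s, u s * h s q - 𝔼 s, v s * h s q)]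

/-- from the indicator functions to all weights -/
lemma cut_of_sets [DecidableEq ρ] (h : ρ → κ → ℝ) {c : ℝ}
    (hc : ∀ A : Finset ρ, 𝔼 q, (𝔼 s, (if s ∈ A then 1 else 0) * h s q) ^ 2 ≤ c) (b : ρ → ℝ) (hb : ∀ s, |b s| ≤ 1) :
    𝔼 q, (𝔼 s, b s * h s q) ^ 2 ≤ 4 * c := by
  have hp := cube_max (fun b : ρ → ℝ => 𝔼 q, (𝔼 s, b s * h s q) ^ 2) (convex_sq h) hc (fun s => max (b s) 0)
    (fun s => ⟨le_max_right _ _, max_le ((le_abs_self _).trans (hb s)) zero_le_one⟩)
  have hn := cube_max (fun b : ρ → ℝ => 𝔼 q, (𝔼 s, b s * h s q) ^ 2) (convex_sq h) hc (fun s => max (-b s) 0)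
    (fun s => ⟨le_max_right _ _, max_le ((neg_le_abs _).trans (hb s)) zero_le_one⟩)
  have e : ∀ q, 𝔼 s, b s * h s q = 𝔼 s, max (b s) 0 * h s q - 𝔼 s, max (-b s) 0 * h s q := by
    intro q
    rw [← expect_sub_distrib]
    refine expect_congr rfl fun s _ => ?_
    rw [← sub_mul]
    congr 1
    rcases le_total (b s) 0 with h0 | h0
    · rw [max_eq_right h0, max_eq_left (by linarith)]; ring
    · rw [max_eq_left h0, max_eq_right (by linarith)]; ring
  calc 𝔼 q, (𝔼 s, b s * h s q) ^ 2 ≤ 𝔼 q, (2 * (𝔼 s, max (b s) 0 * h s q) ^ 2 +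
        2 * (𝔼 s, max (-b s) 0 * h s q) ^ 2) := by
        refine expect_le_expect fun q _ => ?_
        rw [e]
        nlinarith [sq_nonneg (𝔼 s, max (b s) 0 * h s q + 𝔼 s, max (-b s) 0 * h s q)]
    _ = 2 * 𝔼 q, (𝔼 s, max (b s) 0 * h s q) ^ 2 + 2 * 𝔼 q, (𝔼 s, max (-b s) 0 * h s q) ^ 2 := by
        rw [expect_add_distrib, mul_expect, mul_expect]
    _ ≤ _ := by linarith

/-- the square of a sum over a set, in terms of pairs -/
lemma sq_tuple (f : ρ → κ → ℝ) (b : ρ → ℝ) :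
    𝔼 q, (𝔼 s, b s * f s q) ^ 2 = 𝔼 r : Fin 2 → ρ, b (r 0) * b (r 1) * 𝔼 q, ∏ i, f (r i) q := by
  rw [exp_pow_tuple (fun s q => b s * f s q) 2]
  refine expect_congr rfl fun r _ => ?_
  rw [mul_expect]
  refine expect_congr rfl fun q _ => ?_
  simp only [Fin.prod_univ_two]
  ring

lemma im_two {R : ℕ} (r : Fin 2 → Fin R) : im r = {vl (r 0), vl (r 1)} := by
  unfold im
  ext t
  rw [mem_image, mem_insert, mem_singleton]
  constructor
  · rintro ⟨i, _, rfl⟩
    fin_cases i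
    · left; rfl
    · right; rfl
  · rintro (h | h)
    · exact ⟨0, mem_univ _, h.symm⟩
    · exact ⟨1, mem_univ _, h.symm⟩

lemma inj_two {α : Type*} (r : Fin 2 → α) : Function.Injective r ↔ r 0 ≠ r 1 := by
  constructor
  · intro h h2
    exact absurd (h h2) (by decide)
  · intro h i j hij
    fin_cases i <;> fin_cases j
    · rfl
    · exact absurd hij h
    · exact absurd hij.symm h
    · rfl

open Classical in
lemma sum_offDiag {R : ℕ} (A : Finset (Fin R)) (φ : Finset ℕ → ℝ) :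
    ∑ r : Fin 2 → Fin R, (if Function.Injective r then
      (if r 0 ∈ A then (1 : ℝ) else 0) * (if r 1 ∈ A then 1 else 0) * φ (im r) else 0) =
    ∑ p ∈ (A.image vl).offDiag, φ {p.1, p.2} := by
  have h1 : ∀ r : Fin 2 → Fin R, (if Function.Injective r then
      (if r 0 ∈ A then (1 : ℝ) else 0) * (if r 1 ∈ A then 1 else 0) * φ (im r) else 0) =
      if ((r 0, r 1) : Fin R × Fin R) ∈ A.offDiag then φ {vl (r 0), vl (r 1)} else 0 := by
    intro r
    rw [im_two]
    simp only [mem_offDiag, inj_two]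
    by_cases ha : r 0 ∈ A <;> by_cases hb : r 1 ∈ A <;> by_cases hc : r 0 = r 1 <;> simp [ha, hb, hc]
  rw [sum_congr rfl fun r _ => h1 r]
  have h2 : ∑ r : Fin 2 → Fin R, (if ((r 0, r 1) : Fin R × Fin R) ∈ A.offDiag then φ {vl (r 0), vl (r 1)} else 0) =
      ∑ p : Fin R × Fin R, (if p ∈ A.offDiag then φ {vl p.1, vl p.2} else 0) :=
    Fintype.sum_equiv (finTwoArrowEquiv (Fin R)) _ _ fun r => rfl
  rw [h2, sum_ite_mem, univ_inter]
  refine sum_nbij (fun p => (vl p.1, vl p.2)) ?_ ?_ ?_ ?_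
  · intro p hp
    rw [mem_offDiag] at hp ⊢
    exact ⟨mem_image_of_mem _ hp.1, mem_image_of_mem _ hp.2.1, fun h => hp.2.2 (vl_inj h)⟩
  · intro p _ p' _ h
    rw [Prod.mk.injEq] at h
    exact Prod.ext (vl_inj h.1) (vl_inj h.2)
  · intro p hp
    rw [mem_coe, mem_offDiag, mem_image, mem_image] at hp
    obtain ⟨⟨s, hs, hs'⟩, ⟨t, ht, ht'⟩, hst⟩ := hp
    refine ⟨(s, t), ?_, Prod.ext hs' ht'⟩
    rw [mem_coe, mem_offDiag]
    exact ⟨hs, ht, fun h => hst (by rw [← hs', ← ht']; exact congrArg vl h)⟩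
  · intro p _
    rfl

/-- the mean square condition from upper bounds for the pairs in all the subsets -/
theorem cut_of_pairs {M M' w y y' x R : ℕ} {K K' θ θ' η η' lam lam' δs ε : ℝ} (h : GD M w y x R K θ η lam)
    (h' : GD M' w y' x R K' θ' η' lam') (hM : 1 ≤ M) (hM' : 2 ≤ M') (hw : 2 ≤ w) (hK : 0 ≤ K)
    (hθ : θ ≤ 1) (hη0 : 0 ≤ η) (hη : η ≤ 1) (hθ0' : 0 ≤ θ') (hη0' : 0 ≤ η') (hδs : 0 ≤ δs)
    (hSW : ∀ ψ : ℕ → ℝ, (∀ z, |ψ z| ≤ 1) → ∀ b : Fin R → ℝ, (∀ s, |b s| ≤ 1) →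
      |𝔼 q : Fin x, ψ ((x + q) % Wn w) * 𝔼 s, b s * (fx R x s q - Gf w (vl s) ((x + q) % Wn w))| ≤ δs)
    (hpair : ∀ A : Finset ℕ, A ⊆ Icc 1 R → ∑ p ∈ A.offDiag, (ND x {p.1, p.2} : ℝ) ≤
      x / Real.log x ^ 2 * (∑ p ∈ A.offDiag, SD {p.1, p.2} + ε * R ^ 2)) :
    Cut w x R (4 * (ε + (θ' * c1 2 + η' + XX 2 w) + 2 * (lam * BB 1) * K ^ 2 + 2 * ((Vv w)⁻¹ * δs))) := by
  classical
  intro b hb
  refine cut_of_sets (fun s q => fx R x s q - gx R x w s q) (fun A => ?_) b hb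
  have hne : Nonempty (Fin R) := ⟨⟨0, h.hR⟩⟩
  have hnx : Nonempty (Fin x) := ⟨⟨0, h.hx⟩⟩
  have hRp : (0 : ℝ) < R := by exact_mod_cast h.hR
  have hxp : (0 : ℝ) < x := by exact_mod_cast h.hx
  have hLx : 0 < Real.log x := by linarith [h.hlog]
  have hMB := MB_of_FL h.hR h.hx h.hwy hθ hη hη0 h.hV h.hFL
  have hav := avg_SD (x := x) h.hR h'.hwy hθ0' hη0' (m := 2) (by omega) hw (h'.hFL 2 hM')
  have hgm : ∀ (s : Fin R) (q : Fin x), Gf w (vl s) ((x + q) % Wn w) = gx R x w s q := fun s q => Gf_mod _ _ _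
  have hVp := Vv_pos w
  set V : ℝ := (Vv w)⁻¹ with hV
  have hVi : 0 < V := inv_pos.2 hVp
  set a : Fin R → ℝ := fun s => if s ∈ A then 1 else 0 with ha
  have ha0 : ∀ s, 0 ≤ a s := fun s => by simp only [ha]; split_ifs <;> norm_num
  have ha1 : ∀ s, a s ≤ 1 := fun s => by simp only [ha]; split_ifs <;> norm_num
  have haa : ∀ s, |a s| ≤ 1 := fun s => by rw [abs_of_nonneg (ha0 s)]; exact ha1 s
  set F : Fin x → ℝ := fun q => 𝔼 s, a s * fx R x s q with hF
  set G : Fin x → ℝ := fun q => 𝔼 s, a s * gx R x w s q with hG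
  set X : (Fin 2 → Fin R) → ℝ := fun r => 𝔼 q, ∏ i, fx R x (r i) q with hX
  set Z : (Fin 2 → Fin R) → ℝ := fun r => 𝔼 q, ∏ i, gx R x w (r i) q with hZ
  set Yt : (Fin 2 → Fin R) → ℝ := fun r => 𝔼 q, pp (gx R x y) (gx R x w) (tt 2) r q with hYt
  have hX0 : ∀ r, 0 ≤ X r := fun r => expect_nonneg fun q _ => prod_nonneg fun i _ => fx_nonneg _ _ _ _
  have hZ0 : ∀ r, 0 ≤ Z r := fun r => expect_nonneg fun q _ => prod_nonneg fun i _ => gx_nonneg _ _ _ _ _
  have hXY : ∀ r, X r ≤ K ^ 2 * Yt r := by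
    intro r
    simp only [hX, hYt]
    rw [mul_expect]
    exact expect_le_expect fun q _ => pp_f_le h.hf w r q
  have hY0 : ∀ r, 0 ≤ Yt r := fun r => expect_nonneg fun q _ => pp_nn R x w y _ r q
  -- the main terms
  have k1 : 𝔼 q, F q ^ 2 - 𝔼 q, G q ^ 2 ≤ ε + (θ' * c1 2 + η' + XX 2 w) + 2 * (lam * BB 1) * K ^ 2 := by
    simp only [hF, hG]
    rw [sq_tuple (fx R x) a, sq_tuple (gx R x w) a, ← expect_sub_distrib]
    have h1 : ∀ r : Fin 2 → Fin R, a (r 0) * a (r 1) * 𝔼 q, ∏ i, fx R x (r i) q -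
        a (r 0) * a (r 1) * 𝔼 q, ∏ i, gx R x w (r i) q ≤
        (if Function.Injective r then a (r 0) * a (r 1) * (X r - SD (im r)) else 0) +
        ((if Function.Injective r then |Z r - SD (im r)| else 0) +
        ∑ i, ∑ k : Fin 1, (if r i = r (i.succAbove k) then K ^ 2 * Yt r else 0)) := by
      intro r
      have hs1 : 0 ≤ ∑ i, ∑ k : Fin 1, (if r i = r (i.succAbove k) then K ^ 2 * Yt r else 0) :=
        sum_nonneg fun i _ => sum_nonneg fun k _ => by
          split_ifs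
          exacts [mul_nonneg (pow_nonneg hK _) (hY0 r), le_rfl]
      have c0 : 0 ≤ a (r 0) * a (r 1) := mul_nonneg (ha0 _) (ha0 _)
      have c1 : a (r 0) * a (r 1) ≤ 1 := mul_le_one₀ (ha1 _) (ha0 _) (ha1 _)
      by_cases hinj : Function.Injective r
      · rw [if_pos hinj, if_pos hinj]
        have e : a (r 0) * a (r 1) * 𝔼 q, ∏ i, fx R x (r i) q - a (r 0) * a (r 1) * 𝔼 q, ∏ i, gx R x w (r i) q =
            a (r 0) * a (r 1) * (X r - SD (im r)) - a (r 0) * a (r 1) * (Z r - SD (im r)) := by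
          simp only [hX, hZ]; ring
        rw [e]
        have h2 : -(a (r 0) * a (r 1) * (Z r - SD (im r))) ≤ |Z r - SD (im r)| := by
          refine (neg_le_abs _).trans ?_
          rw [abs_mul, abs_of_nonneg c0]
          exact (mul_le_mul_of_nonneg_right c1 (abs_nonneg _)).trans (le_of_eq (one_mul _))
        linarith
      · rw [if_neg hinj, if_neg hinj]
        have k1 := le_coinc r (mul_nonneg (pow_nonneg hK 2) (hY0 r)) le_rfl (fun h => absurd h hinj)
        have k2 : a (r 0) * a (r 1) * 𝔼 q, ∏ i, fx R x (r i) q ≤ X r :=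
          (mul_le_mul_of_nonneg_right c1 (hX0 r)).trans (le_of_eq (one_mul _))
        have k3 : 0 ≤ a (r 0) * a (r 1) * 𝔼 q, ∏ i, gx R x w (r i) q := mul_nonneg c0 (hZ0 r)
        linarith [hXY r]
    refine (expect_le_expect fun r _ => h1 r).trans ?_
    simp only [expect_add_distrib]
    have g1 : 𝔼 r : Fin 2 → Fin R, (if Function.Injective r then a (r 0) * a (r 1) * (X r - SD (im r)) else 0) ≤ ε := by
      have e1 : ∀ r : Fin 2 → Fin R, (if Function.Injective r then a (r 0) * a (r 1) * (X r - SD (im r)) else 0) =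
          (if Function.Injective r then a (r 0) * a (r 1) * (Real.log x ^ 2 * ND x (im r) / x - SD (im r)) else 0) := by
        intro r
        simp only [hX]
        rw [exp_fx]
      rw [expect_congr rfl fun r _ => e1 r, Fintype.expect_eq_sum_div_card, Fintype.card_fun, Fintype.card_fin,
        Fintype.card_fin]
      simp only [ha]
      rw [sum_offDiag A (fun T => Real.log x ^ 2 * ND x T / x - SD T), sum_sub_distrib]
      have hA : A.image vl ⊆ Icc 1 R := by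
        intro t ht
        rw [mem_image] at ht
        obtain ⟨s, _, rfl⟩ := ht
        exact mem_Icc.2 ⟨vl_pos _, vl_le _⟩
      have h2 := hpair (A.image vl) hA
      push_cast
      rw [div_le_iff₀ (by positivity)]
      have h3 : ∑ p ∈ (A.image vl).offDiag, Real.log x ^ 2 * (ND x {p.1, p.2} : ℝ) / x =
          Real.log x ^ 2 / x * ∑ p ∈ (A.image vl).offDiag, (ND x {p.1, p.2} : ℝ) := by
        rw [mul_sum]
        exact sum_congr rfl fun p _ => by ring
      rw [h3]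
      have h4 := mul_le_mul_of_nonneg_left h2 (by positivity : 0 ≤ Real.log x ^ 2 / (x : ℝ))
      have e2 : Real.log x ^ 2 / (x : ℝ) * (x / Real.log x ^ 2 * (∑ p ∈ (A.image vl).offDiag, SD {p.1, p.2} +
          ε * R ^ 2)) = ∑ p ∈ (A.image vl).offDiag, SD {p.1, p.2} + ε * R ^ 2 := by
        field_simp
      rw [e2] at h4
      linarith
    have g2 : 𝔼 r : Fin 2 → Fin R, (if Function.Injective r then |Z r - SD (im r)| else 0) ≤
        θ' * c1 2 + η' + XX 2 w := hav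
    have g3 : 𝔼 r : Fin 2 → Fin R, ∑ i, ∑ k : Fin 1, (if r i = r (i.succAbove k) then K ^ 2 * Yt r else 0) ≤
        2 * (lam * BB 1) * K ^ 2 := by
      have hB0 : 0 ≤ BB 1 := zero_le_one.trans (one_le_BB 1)
      rw [expect_sum_comm]
      calc _ ≤ ∑ _i : Fin 2, ∑ _k : Fin 1, K ^ 2 * (lam * BB 1) := by
            refine sum_le_sum fun i _ => ?_
            rw [expect_sum_comm]
            refine sum_le_sum fun k _ => ?_
            have e : ∀ r : Fin 2 → Fin R, (if r i = r (i.succAbove k) then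
                K ^ 2 * Yt r else 0) = K ^ 2 * (if r i = r (i.succAbove k) then Yt r else 0) := by
              intro r; split_ifs
              · rfl
              · rw [mul_zero]
            simp only [e, ← mul_expect]
            refine mul_le_mul_of_nonneg_left ?_ (pow_nonneg hK 2)
            refine (coinc h.hR h.hwy (tt 2) i k (hMB 1 (by omega))).trans ?_
            exact mul_le_mul_of_nonneg_right h.hlam hB0
        _ = _ := by
            simp only [sum_const, card_univ, Fintype.card_fin, nsmul_eq_mul]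
            push_cast
            ring
    linarith
  -- the cross term
  have k2 : |𝔼 q, G q * (F q - G q)| ≤ V * δs := by
    have hFG : ∀ q : Fin x, F q - G q = 𝔼 s, a s * (fx R x s q - Gf w (vl s) ((x + q) % Wn w)) := by
      intro q
      simp only [hF, hG, hgm]
      rw [← expect_sub_distrib]
      exact expect_congr rfl fun s _ => by ring
    have k := hSW (fun z => (𝔼 s, a s * Gf w (vl s) z) / V) (fun z => ?_) a haa
    · have e : 𝔼 q : Fin x, (𝔼 s, a s * Gf w (vl s) ((x + q) % Wn w)) / V *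
          𝔼 s, a s * (fx R x s q - Gf w (vl s) ((x + q) % Wn w)) = (𝔼 q, G q * (F q - G q)) / V := by
        rw [expect_div]
        refine expect_congr rfl fun q _ => ?_
        rw [hFG q]
        simp only [hG, hgm]
        ring
      rw [e, abs_div, abs_of_pos hVi, div_le_iff₀ hVi] at k
      linarith
    · have k0 : 0 ≤ 𝔼 s, a s * Gf w (vl s) z := expect_nonneg fun s _ => mul_nonneg (ha0 s) (Gf_nonneg _ _ _)
      have k1 : 𝔼 s, a s * Gf w (vl s) z ≤ V := expect_le univ_nonempty fun s _ =>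
        (mul_le_mul (ha1 s) (Gf_le _ _ _) (Gf_nonneg _ _ _) zero_le_one).trans (le_of_eq (one_mul _))
      rw [abs_of_nonneg (by positivity), div_le_one hVi]
      exact k1
  have e0 : 𝔼 q, (𝔼 s, (if s ∈ A then (1 : ℝ) else 0) * (fx R x s q - gx R x w s q)) ^ 2 =
      (𝔼 q, F q ^ 2 - 𝔼 q, G q ^ 2) - 2 * 𝔼 q, G q * (F q - G q) := by
    rw [mul_expect (a := (2 : ℝ)), ← expect_sub_distrib, ← expect_sub_distrib]
    refine expect_congr rfl fun q _ => ?_
    have : 𝔼 s, (if s ∈ A then (1 : ℝ) else 0) * (fx R x s q - gx R x w s q) = F q - G q := by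
      simp only [hF, hG, ha]
      rw [← expect_sub_distrib]
      exact expect_congr rfl fun s _ => by ring
    rw [this]
    ring
  rw [e0]
  have := neg_abs_le (𝔼 q, G q * (F q - G q))
  linarith

/-- **upper bounds for the pairs control all the lengths, on average** -/
theorem all_of_pairs (l : ℕ) (hl : 1 ≤ l) {δ : ℝ} (hδ : 0 < δ) :
    ∃ ε : ℝ, 0 < ε ∧ ∃ b0 : ℝ, 1 ≤ b0 ∧ ∀ D : ℝ, 0 ≤ D → ∃ x0 : ℕ, ∀ x : ℕ, x0 ≤ x → ∀ R : ℕ,
      b0 * Real.log x ≤ R → (R : ℝ) ≤ Real.log x ^ D →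
      (∀ A : Finset ℕ, A ⊆ Icc 1 R → ∑ p ∈ A.offDiag, (ND x {p.1, p.2} : ℝ) ≤
        x / Real.log x ^ 2 * (∑ p ∈ A.offDiag, SD {p.1, p.2} + ε * R ^ 2)) → DD l x R ≤ δ := by
  obtain ⟨n, rfl⟩ : ∃ n, l = n + 1 := ⟨l - 1, by omega⟩
  set M := 2 * n + 2 with hM
  obtain ⟨C, hC, hGD⟩ := GD_ev M
  obtain ⟨b, hb1, hb2, c2, hc20, hc21, w0, hw0⟩ := half n C hC hδ
  set K := 2 / ke C b with hK
  have hK1 : 1 ≤ K := K_ge C b
  have hwA : ∀ᶠ w : ℕ in atTop, (Vv w)⁻¹ ^ n * XX 2 w < c2 / 32 :=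
    (XX_tendsto 2 n).eventually (gt_mem_nhds (by positivity))
  have hwB : ∀ᶠ w : ℕ in atTop, (Vv w)⁻¹ ^ (n + 2) * (Real.exp (3 / w) - 1) < c2 / 64 :=
    (vpow_exp (n + 2) (c := 3) (by norm_num)).eventually (gt_mem_nhds (by positivity))
  obtain ⟨w, ⟨⟨hwa, hwb⟩, hw2⟩, hw3⟩ := (((hwA.and hwB).and (eventually_ge_atTop w0)).and
    (eventually_ge_atTop 2)).exists
  obtain ⟨η, hη0, hη1, lam1, hlam1, hhalf⟩ := hw0 w hw2
  have hVp := Vv_pos w
  set A : ℝ := (Vv w)⁻¹ with hA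
  have hAp : 0 < A := inv_pos.2 hVp
  set T : ℝ := c2 * (Vv w) ^ n with hT
  have hTp : 0 < T := by positivity
  have hAV : A ^ n * (Vv w) ^ n = 1 := by
    rw [← mul_pow, hA, inv_mul_cancel₀ hVp.ne', one_pow]
  have hXX : XX 2 w ≤ T / 32 := by
    have := mul_le_mul_of_nonneg_left hwa.le (pow_nonneg hVp.le n)
    calc XX 2 w = (A ^ n * (Vv w) ^ n) * XX 2 w := by rw [hAV, one_mul]
      _ = (Vv w) ^ n * (A ^ n * XX 2 w) := by ring
      _ ≤ (Vv w) ^ n * (c2 / 32) := this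
      _ = T / 32 := by rw [hT]; ring
  have hE : 2 * (A * (A * (Real.exp (3 / w) - 1))) ≤ T / 32 := by
    have := mul_le_mul_of_nonneg_left hwb.le (pow_nonneg hVp.le n)
    calc 2 * (A * (A * (Real.exp (3 / w) - 1))) =
          2 * ((A ^ n * (Vv w) ^ n) * (A ^ 2 * (Real.exp (3 / w) - 1))) := by rw [hAV, one_mul]; ring
      _ = 2 * ((Vv w) ^ n * (A ^ (n + 2) * (Real.exp (3 / w) - 1))) := by rw [pow_add A n]; ring
      _ ≤ 2 * ((Vv w) ^ n * (c2 / 64)) := mul_le_mul_of_nonneg_left this (by norm_num)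
      _ = T / 32 := by rw [hT]; ring
  -- the parameters
  obtain ⟨θ', hθ0', hθ1', hθ'⟩ := small (A := T / 32) (c := c1 2) (by positivity) (by linarith [one_le_c1 2])
  have hBB1 := one_le_BB 1
  have hBB0 : 0 ≤ BB 1 := by linarith
  obtain ⟨lam0, hl0, hl1, hl⟩ := small (A := T / 32) (c := 2 * BB 1 * K ^ 2) (by positivity) (by positivity)
  obtain ⟨δ', hd0, hd1, hd⟩ := small (A := T / 32) (c := 2 * (A * (A * Real.exp (3 / w)))) (by positivity)
    (by positivity)
  obtain ⟨η2, he0, he1, he⟩ := small (A := T / 32) (c := 2 * A) (by positivity) (by positivity)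
  have hb' : ∀ᶠ b : ℕ in atTop, 3 * (1 / 2 : ℝ) ^ b < θ' := by
    have h0 : Tendsto (fun b : ℕ => 3 * (1 / 2 : ℝ) ^ b) atTop (𝓝 0) := by
      have := (tendsto_pow_atTop_nhds_zero_of_lt_one (r := (1 / 2 : ℝ)) (by norm_num) (by norm_num)).const_mul 3
      rwa [mul_zero] at this
    exact h0.eventually (gt_mem_nhds hθ0')
  obtain ⟨b', hb1', hb2'⟩ := (hb'.and (eventually_ge_atTop C)).exists
  set lam := min lam1 lam0 with hlam
  have hlamp : 0 < lam := lt_min hlam1 hl0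
  obtain ⟨b1, hb11, hGD1⟩ := hGD b hb1 η hη0 lam hlamp
  obtain ⟨b2, hb21, hGD2⟩ := hGD b' hb2' (T / 32) (by positivity) lam hlamp
  refine ⟨T / 32, by positivity, max b1 b2, le_trans hb11 (le_max_left _ _), fun D hD => ?_⟩
  have hlog : Tendsto (fun x : ℕ => Real.log (x : ℝ)) atTop atTop :=
    Real.tendsto_log_atTop.comp tendsto_natCast_atTop_atTop
  obtain ⟨x2, hx2⟩ := eventually_atTop.1 ((((hGD1 w).and (hGD2 w)).and (hlog.eventually_ge_atTop 1)).and
    (SW_ev w (by omega) hD hd0 hd1 he0))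
  refine ⟨x2, fun x hx R hR1 hR2 hpair => ?_⟩
  obtain ⟨⟨⟨g1, g2⟩, hL⟩, hSW⟩ := hx2 x hx
  have hLx : 0 ≤ Real.log x := by linarith
  have r1 : b1 * Real.log x ≤ R := le_trans (mul_le_mul_of_nonneg_right (le_max_left _ _) hLx) hR1
  have r2 : b2 * Real.log x ≤ R := le_trans (mul_le_mul_of_nonneg_right (le_max_right _ _) hLx) hR1
  set δs : ℝ := (Vv w)⁻¹ * ((1 + δ') * Real.exp (3 / w) - 1) + η2 with hδs
  have hexp : 1 ≤ Real.exp (3 / (w : ℝ)) := Real.one_le_exp (by positivity)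
  have hδs0 : 0 ≤ δs := by
    have : 0 ≤ (1 + δ') * Real.exp (3 / w) - 1 := by nlinarith
    positivity
  have hcut := cut_of_pairs (g1 R r1) (g2 R r2) (by omega) (by omega) hw3 (by linarith) (theta_le hb2) hη0.le hη1
    (by positivity : (0 : ℝ) ≤ 3 * (1 / 2 : ℝ) ^ b') (by positivity) hδs0 (hSW R (g1 R r1).hR hR2) hpair
  refine hhalf lam hlamp (min_le_left _ _) M x R (by omega) (g1 R r1) (fun bb hbb => (hcut bb hbb).trans ?_)
  have i2 : 3 * (1 / 2 : ℝ) ^ b' * c1 2 ≤ T / 32 := by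
    refine le_trans ?_ hθ'
    rw [mul_comm]
    exact mul_le_mul_of_nonneg_left hb1'.le (by linarith [one_le_c1 2])
  have i4 : 2 * (lam * BB 1) * K ^ 2 ≤ T / 32 := by
    refine le_trans ?_ hl
    calc 2 * (lam * BB 1) * K ^ 2 = 2 * BB 1 * K ^ 2 * lam := by ring
      _ ≤ _ := mul_le_mul_of_nonneg_left (min_le_right _ _) (by positivity)
  have i5 : 2 * ((Vv w)⁻¹ * δs) ≤ 3 * (T / 32) := by
    have e : 2 * ((Vv w)⁻¹ * δs) = 2 * (A * (A * (Real.exp (3 / w) - 1))) +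
        2 * (A * (A * Real.exp (3 / w))) * δ' + 2 * A * η2 := by
      rw [hδs, ← hA]; ring
    rw [e]
    linarith
  linarith

end Pool.Agent.NH16.DL
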