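import Pool.Agent.NH16.DL.C6

set_option autoImplicit false
set_option linter.unusedSectionVars false
set_option linter.unusedVariables false

/-!
# The mean error and the primes in short progressions for almost all `q`
-/

namespace Pool.Agent.NH16.DL

open Finset Filter Topology
open scoped BigOperators
open Pool.Agent.W218.MU (wD SD ND SD_hasProd)

/-- distribution of the primes `q r + 1`, `r ∈ A`, for almost all `q` -/
def Pap (w x R : ℕ) (η : ℝ) : Prop := ∀ A : Finset (Fin R),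
  𝔼 q : Fin x, |𝔼 s, (if s ∈ A then (1 : ℝ) else 0) * (fx R x s q - gx R x w s q)| ≤ η

lemma exp_abs_sq {κ : Type*} [Fintype κ] [Nonempty κ] (Z : κ → ℝ) : (𝔼 q, |Z q|) ^ 2 ≤ 𝔼 q, Z q ^ 2 := by
  have h := cs_weight (fun _ : κ => (1 : ℝ)) (fun _ => 1) (fun q => |Z q|) (fun _ => by simp)
  simp only [one_mul, sq_abs] at h
  rwa [Fintype.expect_const, one_mul] at h

lemma exp_sq_three {κ : Type*} [Fintype κ] [Nonempty κ] (Z : κ → ℝ) :
    (𝔼 q, Z q ^ 2) ^ 2 ≤ (𝔼 q, |Z q|) * 𝔼 q, |Z q| ^ 3 := by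
  have h := cs_weight (fun q => |Z q|) (fun q => |Z q|) (fun q => |Z q|) (fun q => by rw [abs_abs])
  refine le_trans (le_of_eq ?_) (h.trans (le_of_eq ?_))
  · congr 1
    refine expect_congr rfl fun q _ => ?_
    rw [← sq, sq_abs]
  · congr 1
    refine expect_congr rfl fun q _ => ?_
    ring

lemma pap_of_cut {w x R : ℕ} {η : ℝ} (hx : 1 ≤ x) (hη : 0 ≤ η) (h : Cut w x R (η ^ 2)) : Pap w x R η := by
  intro A
  have : Nonempty (Fin x) := ⟨⟨0, by omega⟩⟩
  have h1 := h (fun s => if s ∈ A then 1 else 0) (fun s => by split_ifs <;> simp)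
  have h2 := exp_abs_sq (fun q : Fin x => 𝔼 s, (if s ∈ A then (1 : ℝ) else 0) * (fx R x s q - gx R x w s q))
  exact (le_abs_self _).trans (abs_le_of_sq_le_sq (h2.trans h1) hη)

theorem cut_of_pap {M w y x R : ℕ} {K θ η lam ζ : ℝ} (h : GD M w y x R K θ η lam) (hM : 3 ≤ M) (hK : 0 ≤ K)
    (hθ : θ ≤ 1) (hη0 : 0 ≤ η) (hη : η ≤ 1) (hζ : 0 ≤ ζ) (hp : Pap w x R ζ) :
    Cut w x R (4 * Real.sqrt (ζ * (2 ^ 3 * ((K ^ 3 + 1) * BB 3)))) := by
  classical
  have : Nonempty (Fin x) := ⟨⟨0, by have := h.hx; omega⟩⟩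
  have : Nonempty (Fin R) := ⟨⟨0, by have := h.hR; omega⟩⟩
  refine cut_of_sets (fun s q => fx R x s q - gx R x w s q) fun A => ?_
  set Z : Fin x → ℝ := fun q => 𝔼 s, (if s ∈ A then (1 : ℝ) else 0) * (fx R x s q - gx R x w s q) with hZ
  have h1 : 𝔼 q, |Z q| ≤ ζ := hp A
  have h2 : 𝔼 q, |Z q| ^ 3 ≤ 2 ^ 3 * ((K ^ 3 + 1) * BB 3) := by
    refine le_trans (expect_le_expect fun q _ => ?_) (moments (j := 3) h hM hK hθ hη0 hη)
    refine pow_le_pow_left₀ (abs_nonneg _) ?_ 3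
    rw [← expect_add_distrib]
    refine (abs_expect_le _ _).trans (expect_le_expect fun s _ => ?_)
    have i1 := fx_nonneg R x s q
    have i2 := gx_nonneg R x w s q
    rw [abs_mul]
    have i3 : |if s ∈ A then (1 : ℝ) else 0| ≤ 1 := by split_ifs <;> simp
    have i4 : |fx R x s q - gx R x w s q| ≤ fx R x s q + gx R x w s q := by
      rw [abs_le]; constructor <;> linarith
    calc _ ≤ 1 * (fx R x s q + gx R x w s q) := mul_le_mul i3 i4 (abs_nonneg _) (by norm_num)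
      _ = _ := one_mul _
  have h3 := exp_sq_three Z
  have h4 : 0 ≤ 𝔼 q, |Z q| ^ 3 := expect_nonneg fun q _ => by positivity
  refine Real.le_sqrt_of_sq_le (h3.trans ?_)
  exact mul_le_mul h1 h2 h4 hζ

lemma prod_two_sub {R : ℕ} {κ : Type*} (ν g : Fin R → κ → ℝ) (u : Fin 2 → Fin R) (q : κ) :
    ∏ i, (ν (u i) q - g (u i) q) = pp ν g ![true, true] u q - pp ν g ![true, false] u q -
      pp ν g ![false, true] u q + pp ν g ![false, false] u q := by
  unfold pp pt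
  simp [Fin.prod_univ_two]
  ring

lemma cut_gg {R : ℕ} {κ : Type*} [Fintype κ] {ν g : Fin R → κ → ℝ} {τ : ℝ} (h : PR ν g τ 2)
    (b : Fin R → ℝ) (hb : ∀ s, |b s| ≤ 1) : 𝔼 q, (𝔼 s, b s * (ν s q - g s q)) ^ 2 ≤ 3 * τ := by
  rw [sq_tuple (fun s q => ν s q - g s q) b]
  have e : (![false, false] : Fin 2 → Bool) = fun _ => false := by
    funext i; fin_cases i <;> rfl
  have h1 := h ![true, true]
  have h2 := h ![true, false]
  have h3 := h ![false, true]
  have key : ∀ r : Fin 2 → Fin R, b (r 0) * b (r 1) * 𝔼 q, ∏ i, (ν (r i) q - g (r i) q) ≤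
      |𝔼 q, pp ν g ![true, true] r q - 𝔼 q, pp ν g (fun _ => false) r q| +
      |𝔼 q, pp ν g ![true, false] r q - 𝔼 q, pp ν g (fun _ => false) r q| +
      |𝔼 q, pp ν g ![false, true] r q - 𝔼 q, pp ν g (fun _ => false) r q| := by
    intro r
    have e1 : 𝔼 q, ∏ i, (ν (r i) q - g (r i) q) =
        (𝔼 q, pp ν g ![true, true] r q - 𝔼 q, pp ν g (fun _ => false) r q) -
        (𝔼 q, pp ν g ![true, false] r q - 𝔼 q, pp ν g (fun _ => false) r q) -
        (𝔼 q, pp ν g ![false, true] r q - 𝔼 q, pp ν g (fun _ => false) r q) := by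
      have : ∀ q, ∏ i, (ν (r i) q - g (r i) q) = pp ν g ![true, true] r q - pp ν g ![true, false] r q -
        pp ν g ![false, true] r q + pp ν g (fun _ => false) r q := fun q => by
          rw [prod_two_sub, e]
      simp only [this]
      rw [expect_add_distrib, expect_sub_distrib, expect_sub_distrib]
      ring
    refine (le_abs_self _).trans ?_
    rw [abs_mul, abs_mul, e1]
    have i1 : |b (r 0)| * |b (r 1)| ≤ 1 := mul_le_one₀ (hb _) (abs_nonneg _) (hb _)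
    refine (mul_le_mul_of_nonneg_right i1 (abs_nonneg _)).trans ?_
    rw [one_mul]
    refine (abs_sub _ _).trans (add_le_add (abs_sub _ _) le_rfl)
  refine (expect_le_expect fun r _ => key r).trans ?_
  rw [expect_add_distrib, expect_add_distrib]
  linarith

lemma FL_fixed (M v : ℕ) (hv : 2 ≤ v) {θ η : ℝ} (hθ : 0 < θ) (hη : 0 < η) : ∀ᶠ x : ℕ in atTop,
    ∀ m ≤ M, ∀ w ≤ v, FL w v x θ η m := by
  have key : ∀ m ∈ range (M + 1), ∀ᶠ x : ℕ in atTop, ∀ w ≤ v, FL w v x θ η m := by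
    intro m _
    obtain ⟨C0, K0, hC0, hK0, h⟩ := fl_prod m
    have hb' : ∀ᶠ b : ℕ in atTop, 3 * (1 / 2 : ℝ) ^ b < θ := by
      have h0 : Tendsto (fun b : ℕ => 3 * (1 / 2 : ℝ) ^ b) atTop (𝓝 0) := by
        have := (tendsto_pow_atTop_nhds_zero_of_lt_one (r := (1 / 2 : ℝ)) (by norm_num) (by norm_num)).const_mul 3
        rwa [mul_zero] at this
      exact h0.eventually (gt_mem_nhds hθ)
    obtain ⟨b, hb1, hb2⟩ := (hb'.and (eventually_ge_atTop C0)).exists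
    have ht : Tendsto (fun x : ℕ => 2 * ((Vv v)⁻¹ ^ m * Er C0 K0 b v / x)) atTop (𝓝 0) := by
      have := (tendsto_const_div_atTop_nhds_zero_nat ((Vv v)⁻¹ ^ m * Er C0 K0 b v)).const_mul 2
      rwa [mul_zero] at this
    filter_upwards [ht.eventually (gt_mem_nhds hη), eventually_ge_atTop 1] with x hx hx1 w hw a r
    refine (h b hb2 v hv w hw a r x hx1).trans (add_le_add ?_ hx.le)
    exact mul_le_mul_of_nonneg_right hb1.le (Lc_nonneg w v a r)
  filter_upwards [(eventually_all_finset _).2 key] with x hx m hm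
  exact hx m (mem_range.2 (by omega))

/-- from the primes in almost all short progressions to all lengths -/
theorem DD_of_pap (l : ℕ) (hl : 1 ≤ l) {δ : ℝ} (hδ : 0 < δ) :
    ∃ ζ : ℝ, 0 < ζ ∧ ∃ b0 : ℝ, 1 ≤ b0 ∧ ∃ w1 : ℕ, ∀ w' : ℕ, w1 ≤ w' → ∃ x0 : ℕ, ∀ x : ℕ, x0 ≤ x → ∀ R : ℕ,
      b0 * Real.log x ≤ R → Pap w' x R ζ → DD l x R ≤ δ := by
  obtain ⟨n, rfl⟩ : ∃ n, l = n + 1 := ⟨l - 1, by omega⟩
  set M := 2 * n + 3 with hM
  obtain ⟨C, hC, hGD⟩ := GD_ev M
  obtain ⟨b, hb1, hb2, c2, hc20, hc21, w0, hw0⟩ := half n C hC hδ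
  set K : ℝ := 2 / ke C b with hKd
  have hK : 1 ≤ K := K_ge C b
  have hXX := XX_tendsto 2 n
  obtain ⟨w, ⟨hwa, hwb⟩, hwc⟩ := ((hXX.eventually (gt_mem_nhds (by positivity : 0 < c2 / 48))).and
    (eventually_ge_atTop w0)).and (eventually_ge_atTop 2) |>.exists
  obtain ⟨η, hη0, hη1, lam1, hlam1, hhalf⟩ := hw0 w hwb
  have hVp := Vv_pos w
  set A : ℝ := (Vv w)⁻¹ with hA
  have hAp : 0 < A := inv_pos.2 hVp
  set T : ℝ := c2 * (Vv w) ^ n with hT
  have hTp : 0 < T := by positivity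
  have hAV : A ^ n * (Vv w) ^ n = 1 := by
    rw [← mul_pow, hA, inv_mul_cancel₀ hVp.ne', one_pow]
  have hXX2 : XX 2 w ≤ T / 48 := by
    have := mul_le_mul_of_nonneg_left hwa.le (pow_nonneg hVp.le n)
    calc XX 2 w = (A ^ n * (Vv w) ^ n) * XX 2 w := by rw [hAV, one_mul]
      _ = (Vv w) ^ n * (A ^ n * XX 2 w) := by ring
      _ ≤ (Vv w) ^ n * (c2 / 48) := this
      _ = T / 48 := by rw [hT]; ring
  set Mo : ℝ := 2 ^ 3 * ((K ^ 3 + 1) * BB 3) with hMo
  have hMo0 : 0 < Mo := by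
    have := one_le_BB 3
    positivity
  obtain ⟨θ', hθ0', hθ1', hθ'⟩ := small (A := T / 96) (c := c1 2) (by positivity) (by linarith [one_le_c1 2])
  have hBB1 := one_le_BB 1
  obtain ⟨lam0, hl0, hl1, hl⟩ := small (A := T / 48) (c := 8 * BB 1) (by positivity) (by positivity)
  set ζ : ℝ := (T / 16) ^ 2 / Mo with hζ
  have hζ0 : 0 < ζ := by positivity
  set lam := min lam1 lam0 with hlam
  have hlamp : 0 < lam := lt_min hlam1 hl0
  obtain ⟨b1, hb11, hGD1⟩ := hGD b hb1 η hη0 lam hlamp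
  refine ⟨ζ, hζ0, b1, hb11, w, fun w' hw' => ?_⟩
  have hlog : Tendsto (fun x : ℕ => Real.log (x : ℝ)) atTop atTop :=
    Real.tendsto_log_atTop.comp tendsto_natCast_atTop_atTop
  have hη'0 : 0 < min 1 (T / 96) := lt_min one_pos (by positivity)
  obtain ⟨x0, hx0⟩ := eventually_atTop.1 ((((hGD1 w).and (hGD1 w')).and (hlog.eventually_ge_atTop 1)).and
    ((FL_fixed 2 w' (by omega) hθ0' hη'0).and
      ((hlog.eventually_ge_atTop ((Vv w')⁻¹)).and (hlog.eventually_ge_atTop ((Vv w')⁻¹ / lam)))))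
  refine ⟨x0, fun x hx R hR1 hpap => ?_⟩
  obtain ⟨⟨⟨g1, g2⟩, hL⟩, hFL, hV1, hV2⟩ := hx0 x hx
  have hLx : 0 ≤ Real.log x := by linarith
  have hRl : Real.log x ≤ R := by
    refine le_trans ?_ hR1
    nlinarith
  have G1 := g1 R hR1
  have G2 := g2 R hR1
  have hRp : (0 : ℝ) < R := by linarith
  refine hhalf lam hlamp (min_le_left _ _) M x R (by omega) G1 ?_
  have hcut := cut_of_pap G2 (by omega) (by linarith) (theta_le hb2) hη0.le hη1 hζ0.le hpap
  have hsq : Real.sqrt (ζ * (2 ^ 3 * ((K ^ 3 + 1) * BB 3))) = T / 16 := by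
    rw [← hMo, hζ, div_mul_cancel₀ _ hMo0.ne', Real.sqrt_sq (by positivity)]
  rw [hsq] at hcut
  have hPR := PR_of_FL (R := R) (x := x) (w := w) (y := w') G1.hR G1.hx hw' hθ0'.le hθ1' (min_le_left _ _) hη'0.le
    (hV1.trans hRl) (lam := lam) (by
      rw [div_le_iff₀ hRp]
      rw [div_le_iff₀ hlamp] at hV2
      rw [mul_comm]
      refine hV2.trans ?_
      exact mul_le_mul_of_nonneg_right hRl hlamp.le) (m := 2) (by norm_num) (by omega) hwc
    (fun m' hm' => hFL m' hm' w hw')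
  have htau : tau 2 w θ' (min 1 (T / 96)) lam ≤ T / 12 := by
    have e : tau 2 w θ' (min 1 (T / 96)) lam = 2 * (c1 2 * θ') + 2 * min 1 (T / 96) + XX 2 w + 8 * BB 1 * lam := by
      unfold tau XX
      push_cast
      ring
    rw [e]
    have i1 : min 1 (T / 96) ≤ T / 96 := min_le_right _ _
    have i2 : 8 * BB 1 * lam ≤ T / 48 :=
      le_trans (mul_le_mul_of_nonneg_left (min_le_right _ _) (by positivity)) hl
    linarith
  intro bb hbb
  have j1 := hcut bb hbb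
  have j2 := cut_gg hPR bb hbb
  have j3 : ∀ q : Fin x, (𝔼 s, bb s * (fx R x s q - gx R x w s q)) ^ 2 ≤
      2 * (𝔼 s, bb s * (fx R x s q - gx R x w' s q)) ^ 2 + 2 * (𝔼 s, bb s * (gx R x w' s q - gx R x w s q)) ^ 2 := by
    intro q
    have e : 𝔼 s, bb s * (fx R x s q - gx R x w s q) = 𝔼 s, bb s * (fx R x s q - gx R x w' s q) +
        𝔼 s, bb s * (gx R x w' s q - gx R x w s q) := by
      rw [← expect_add_distrib]
      refine expect_congr rfl fun s _ => ?_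
      ring
    rw [e]
    nlinarith [sq_nonneg (𝔼 s, bb s * (fx R x s q - gx R x w' s q) - 𝔼 s, bb s * (gx R x w' s q - gx R x w s q))]
  refine (expect_le_expect fun q _ => j3 q).trans ?_
  rw [expect_add_distrib, ← mul_expect, ← mul_expect]
  have : 3 * tau 2 w θ' (min 1 (T / 96)) lam ≤ T / 4 := by linarith
  linarith

/-- from one length to the primes in almost all short progressions -/
theorem pap_of_DD (k : ℕ) (hk : 2 ≤ k) {ζ : ℝ} (hζ : 0 < ζ) :
    ∀ᶠ w : ℕ in atTop, ∃ ε : ℝ, 0 < ε ∧ ∃ b0 : ℝ, 1 ≤ b0 ∧ ∀ D : ℝ, 0 ≤ D → ∃ x0 : ℕ, ∀ x : ℕ, x0 ≤ x → ∀ R : ℕ,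
      b0 * Real.log x ≤ R → (R : ℝ) ≤ Real.log x ^ D → DD k x R ≤ ε → Pap w x R ζ := by
  obtain ⟨k', rfl⟩ : ∃ k', k = k' + 2 := ⟨k - 2, by omega⟩
  set M := 2 * k' + 2 with hM
  obtain ⟨C, hC, hGD⟩ := GD_ev M
  set b := max C 2 with hb
  have hb1 : C ≤ b := le_max_left _ _
  have hb2 : 2 ≤ b := le_max_right _ _
  set c2 : ℝ := min 1 (ζ ^ 2) with hc2
  have hc20 : 0 < c2 := lt_min one_pos (by positivity)
  filter_upwards [cut_of_DD k' C hC (K_ge C b) 0 hc20 (min_le_left _ _)] with w hw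
  obtain ⟨b', hb', η', hη0', hη1', lam0, hlam0, ε, hε, hcut⟩ := hw
  obtain ⟨b1, hb11, hGD1⟩ := hGD b hb1 1 one_pos lam0 hlam0
  obtain ⟨b2, hb21, hGD2⟩ := hGD b' hb' η' hη0' lam0 hlam0
  refine ⟨ε, hε, max b1 b2, le_trans hb11 (le_max_left _ _), fun D hD => ?_⟩
  obtain ⟨x1, hx1⟩ := hcut D hD
  have hlog : Tendsto (fun x : ℕ => Real.log (x : ℝ)) atTop atTop :=
    Real.tendsto_log_atTop.comp tendsto_natCast_atTop_atTop
  obtain ⟨x2, hx2⟩ := eventually_atTop.1 (((hGD1 w).and (hGD2 w)).and (hlog.eventually_ge_atTop 1))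
  refine ⟨max x1 x2, fun x hx R hR1 hR2 hDD => ?_⟩
  obtain ⟨⟨g1, g2⟩, hL⟩ := hx2 x (le_trans (le_max_right _ _) hx)
  have hLx : 0 ≤ Real.log x := by linarith
  have r1 : b1 * Real.log x ≤ R := le_trans (mul_le_mul_of_nonneg_right (le_max_left _ _) hLx) hR1
  have r2 : b2 * Real.log x ≤ R := le_trans (mul_le_mul_of_nonneg_right (le_max_right _ _) hLx) hR1
  have r0 : Real.log x ≤ R := le_trans (by nlinarith) r1
  have hc := hx1 x (le_trans (le_max_left _ _) hx) R r0 hR2 M M _ _ _ _ _ _ _ le_rfl hlam0.le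
    (theta_le hb2) zero_le_one le_rfl (g1 R r1) (g2 R r2) (by omega) (by omega) hDD
  rw [pow_zero, mul_one] at hc
  refine pap_of_cut (g1 R r1).hx hζ.le fun bb hbb => (hc bb hbb).trans (min_le_right _ _)

end Pool.Agent.NH16.DL
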